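import Pool.Agent.R48.KT.Defs

/-!
# Kasami triple counts: exact statements of the pieces (paper proof by helper902)
-/

namespace Pool.Agent.R48.KT

open Finset
open scoped Classical

noncomputable section

/-- (H1) for the `2^k`-power map -/
def HypA (K : Type) [Field K] (k : ℕ) : Prop := ∀ z : K, z ^ (2 ^ k) = z → z = 0 ∨ z = 1

/-! ## Piece A (helper48) -/

def StmA1 : Prop := ∀ (F : Type) [Field F] [Fintype F] [CharP F 2] (n k : ℕ),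
  Fintype.card F = 2 ^ n → Nat.Coprime k n → HypA F k

/-- existence of `z` with `z^(q-1) = m` -/
def StmA1e : Prop := ∀ (F : Type) [Field F] [Fintype F] [CharP F 2] (k : ℕ),
  HypA F k → ∀ m : F, m ≠ 0 → ∃ z : F, z ≠ 0 ∧ z ^ (2 ^ k) = m * z

/-- uniqueness of `z` with `z^(q-1) = m` -/
def StmA1u : Prop := ∀ (F : Type) [Field F] [Fintype F] [CharP F 2] (k : ℕ),
  HypA F k → ∀ m z z' : F, z ≠ 0 → z' ≠ 0 → z ^ (2 ^ k) = m * z → z' ^ (2 ^ k) = m * z' → z = z'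

def StmA2 : Prop := ∀ (F : Type) [Field F] [Fintype F] [CharP F 2] (k : ℕ),
  HypA F k → ∀ z : F, chi z = 1 ↔ ∃ y : F, y ^ (2 ^ k) + y = z

def StmA3 : Prop := ∀ (F : Type) [Field F] [Fintype F] [CharP F 2] (n k r : ℕ),
  Fintype.card F = 2 ^ n → Nat.Coprime k n → Odd k → (Odd n ∨ ¬ 3 ∣ k) → 3 * r = 2 ^ k + 1 →
  Function.Bijective (fun y : F => y ^ r)

/-- cube counts -/
def StmA4 : Prop := ∀ (F : Type) [Field F] [Fintype F] [CharP F 2],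
  (∀ m u : F, u ≠ 0 → c3 (m * u ^ 3) = c3 m) ∧
  (∀ m : F, c3 (m ^ 2) = c3 m) ∧
  (∀ m : F, c3 (m⁻¹) = c3 m) ∧
  (∑ m : F, c3 m = Fintype.card F) ∧ c3 (0 : F) = 1 ∧
  (chi (1 : F) = -1 → ∀ m : F, c3 m = 1)

/-! ## Piece B (character sums) -/

def StmB1 : Prop := ∀ (F : Type) [Field F] [Fintype F] [CharP F 2] (p s : F), p ≠ 0 → s ≠ 0 →
  ∑ w ∈ univ.erase (0 : F), CC (p * w) * CC (s * w)
    = (if p = s then (Fintype.card F : ℤ) ^ 2 else 0) + Fintype.card F * (1 - c3 (p / s))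

/-- B2 for `n` odd -/
def StmB2odd : Prop := ∀ (F : Type) [Field F] [Fintype F] [CharP F 2] (p s : F),
  chi (1 : F) = -1 → p ≠ 0 → s ≠ 0 →
  ∑ w ∈ univ.erase (0 : F), CC (p * w) * CC (s * w) * chi w
    = Fintype.card F * (1 - c3 (p / s) + chi (1 + p + s) * CC (p * s))

/-- B2a: a cubic character and Kloosterman-type expansion of `C(w)`, `n` even -/
def StmB2a : Prop := ∀ (F : Type) [Field F] [Fintype F] [CharP F 2],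
  chi (1 : F) = 1 →
  ∃ th : MulChar F ℂ, (∀ m : F, m ≠ 0 → (c3 m : ℂ) = 1 + th m + th m ^ 2) ∧
    (∀ m : F, m ≠ 0 → th m ^ 3 = 1) ∧
    (∑ m : F, th m = 0) ∧
    ∀ w : F, w ≠ 0 → (CC w : ℂ) = ∑ v ∈ univ.erase (0 : F), th v * (chi (w * (v + v⁻¹)) : ℂ)

/-- B2 for `n` even (uses `StmB2a`) -/
def StmB2even : Prop := ∀ (F : Type) [Field F] [Fintype F] [CharP F 2] (p s : F),
  chi (1 : F) = 1 → p ≠ 0 → s ≠ 0 →
  ∑ w ∈ univ.erase (0 : F), CC (p * w) * CC (s * w) * chi w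
    = Fintype.card F * (1 - c3 (p / s) + chi (1 + p + s) * CC (p * s))

def StmB2 : Prop := ∀ (F : Type) [Field F] [Fintype F] [CharP F 2] (p s : F),
  p ≠ 0 → s ≠ 0 →
  ∑ w ∈ univ.erase (0 : F), CC (p * w) * CC (s * w) * chi w
    = Fintype.card F * (1 - c3 (p / s) + chi (1 + p + s) * CC (p * s))

/-! ## Piece C -/

def StmC : Prop := ∀ (F : Type) [Field F] [Fintype F] [CharP F 2] (k r : ℕ),
  HypA F k → Odd k → 3 * r = 2 ^ k + 1 →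
  ∀ h pi : F, h ≠ 0 → h ≠ 1 → pi ≠ 0 → h * pi ^ (2 ^ k) = (h + 1) * pi →
    EE r (((h ^ (2 ^ k + 1) + h) ^ 2)⁻¹) = chi (1 + pi) * Fintype.card F

/-! ## Piece D -/

def StmD0 : Prop := ∀ (K : Type) [Field K] [CharP K 2] (k : ℕ) (b : K), 1 ≤ k → b ≠ 0 → b ≠ 1 →
  fK k b * (b ^ 2 + b) ^ (2 ^ k) = (b ^ (2 ^ k) + b) ^ (2 ^ k + 1)

/-- D1: every `b` for which `β/(β+1)` is a `(q+1)`-th power has a root `h` -/
def StmD1 : Prop := ∀ (K : Type) [Field K] [Fintype K] [CharP K 2] (k : ℕ), 1 ≤ k → HypA K k →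
  ∀ b be rho : K, b ≠ 0 → b ≠ 1 → be ^ 2 = b → rho ^ (2 ^ k + 1) * (be + 1) = be →
    ∃ h : K, h ≠ 0 ∧ h ≠ 1 ∧ fK k b * (h ^ (2 ^ k + 1) + h) ^ 2 = 1

/-- D2: for `h ∉ {0,1}`, `x(h) = 1/a(h)^2` is a value of `fK` iff `χ(1+π_h) = 1`; then `b` is
determined up to `b ↦ b + 1` -/
def StmD2 : Prop := ∀ (K : Type) [Field K] [Fintype K] [CharP K 2] (k : ℕ), 1 ≤ k → HypA K k →
  ∀ h pi : K, h ≠ 0 → h ≠ 1 → pi ≠ 0 → h * pi ^ (2 ^ k) = (h + 1) * pi →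
    (chi (1 + pi) = 1 → ∃ b : K, b ≠ 0 ∧ b ≠ 1 ∧ fK k b * (h ^ (2 ^ k + 1) + h) ^ 2 = 1) ∧
    (∀ b : K, b ≠ 0 → b ≠ 1 → fK k b * (h ^ (2 ^ k + 1) + h) ^ 2 = 1 → chi (1 + pi) = 1) ∧
    (∀ b b' : K, b ≠ 0 → b ≠ 1 → b' ≠ 0 → b' ≠ 1 → fK k b * (h ^ (2 ^ k + 1) + h) ^ 2 = 1 →
      fK k b' * (h ^ (2 ^ k + 1) + h) ^ 2 = 1 → b' = b ∨ b' = b + 1)

def StmD3 : Prop := ∀ (K : Type) [Field K] [Fintype K] [CharP K 2] (k : ℕ), HypA K k →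
  ∀ h h' pi : K, h ≠ 0 → h ≠ 1 → h' ≠ 0 → h' ≠ 1 → h ≠ h' →
    h ^ (2 ^ k + 1) + h = h' ^ (2 ^ k + 1) + h' →
    pi ≠ 0 → h * pi ^ (2 ^ k) = (h + 1) * pi → chi pi = 1

/-- D4 (Kasami functions are APN, in the form needed) -/
def StmD4 : Prop := ∀ (F : Type) [Field F] [Fintype F] [CharP F 2] (n k : ℕ),
  Fintype.card F = 2 ^ n → Nat.Coprime k n → Odd k → (Odd n ∨ ¬ 3 ∣ k) →
  ∀ b b' : F, fK k b = fK k b' → b' = b ∨ b' = b + 1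

def StmD5 : Prop := ∀ (F : Type) [Field F] [Fintype F] [CharP F 2] (r : ℕ),
  1 ≤ r → Function.Bijective (fun y : F => y ^ r) →
  (∑ x : F, EE r x = 0) ∧ (∑ x : F, EE r x ^ 2 = (Fintype.card F : ℤ) ^ 3) ∧
    EE r (0 : F) = Fintype.card F

/-- The result of piece D -/
def StmD : Prop := ∀ (F : Type) [Field F] [Fintype F] [CharP F 2] (n k r : ℕ),
  Fintype.card F = 2 ^ n → Nat.Coprime k n → Odd k → (Odd n ∨ ¬ 3 ∣ k) → 3 * r = 2 ^ k + 1 →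
  (∀ x : F, EE r x = Fintype.card F * (if x ∈ DeltaK F k then 1 else -1)) ∧
    2 * (DeltaK F k).card = Fintype.card F

/-! ## Piece E (existence, elliptic curve `Y² + Y = X³`) -/

/-- the curve `Y² + Y = X³` -/
def EC (K : Type) [Field K] : WeierstrassCurve.Affine K := ⟨0, 0, 1, 0, 0⟩

/-- the three coordinates `u(O) = (1,0,1)`, `u(X,Y) = (X+Y, X+1, X+Y+1)` -/
def uvec {K : Type} [Field K] : (EC K).Point → Fin 3 → K
  | .zero => ![1, 0, 1]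
  | .some x y _ => ![x + y, x + 1, x + y + 1]

/-- E1 -/
def StmE1 : Prop := ∀ (K : Type) [Field K] [CharP K 2] [DecidableEq K] (A B C : (EC K).Point),
  A + B + C = 0 → ∑ i : Fin 3, uvec A i * uvec B i * uvec C i = 0

/-- E2: the Frobenius endomorphism `phi`, `phi² = -2` -/
def StmE2 : Prop := ∀ (K : Type) [Field K] [CharP K 2] [DecidableEq K],
  ∃ phi : (EC K).Point →+ (EC K).Point,
    (∀ x y h, ∃ h', phi (.some x y h) = .some (x ^ 2) (y ^ 2) h') ∧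
    ∀ P, phi (phi P) + (P + P) = 0

/-- E3: for an endomorphism with `phi² = -2`, `phi^n = 1`, the alternating sum is bijective
(abstract group theory) -/
def StmE3 : Prop := ∀ (G : Type) [AddCommGroup G] [Finite G] (phi : G →+ G) (n k : ℕ),
  (∀ P, phi (phi P) + (P + P) = 0) → (∀ P, (⇑phi)^[n] P = P) → Nat.Coprime k n → Odd k →
  (Odd n ∨ ¬ 3 ∣ k) →
  Function.Bijective (fun P : G => ∑ i ∈ range k, (-1 : ℤ) ^ i • ((⇑phi)^[i] P))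

def StmE : Prop := ∀ (F : Type) [Field F] [Fintype F] [CharP F 2] (n k r : ℕ),
  Fintype.card F = 2 ^ n → Nat.Coprime k n → Odd k → (Odd n ∨ ¬ 3 ∣ k) → 3 * r = 2 ^ k + 1 →
  ∀ d1 d2 d3 : F, d1 ≠ 0 → d2 ≠ 0 → d3 ≠ 0 → d1 ^ 3 + d2 ^ 3 + d3 ^ 3 = 0 →
    ∃ y1 y2 y3 : F, (y1 ≠ 0 ∨ y2 ≠ 0 ∨ y3 ≠ 0) ∧ y1 + y2 + y3 = 0 ∧
      d1 * y1 ^ r + d2 * y2 ^ r + d3 * y3 ^ r = 0

/-! ## Piece F (counting) -/

/-- the number of triples of `Δ` on the plane -/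
def NK {F : Type} [Field F] [Fintype F] (D : Finset F) (v1 v2 : F) : ℤ :=
  ((univ.filter fun p : F × F × F => p.1 ∈ D ∧ p.2.1 ∈ D ∧ p.2.2 ∈ D ∧
    v1 * p.1 + v2 * p.2.1 + (v1 + v2) * p.2.2 = 0).card : ℤ)

/-- F1: lower bound for each `(v1,v2)` -/
def StmF1 : Prop := ∀ (F : Type) [Field F] [Fintype F] [CharP F 2] (r : ℕ) (D : Finset F),
  1 ≤ r → Function.Bijective (fun y : F => y ^ r) →
  (∀ x : F, EE r x = Fintype.card F * (if x ∈ D then 1 else -1)) →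
  (∀ d1 d2 d3 : F, d1 ≠ 0 → d2 ≠ 0 → d3 ≠ 0 → d1 ^ 3 + d2 ^ 3 + d3 ^ 3 = 0 →
    ∃ y1 y2 y3 : F, (y1 ≠ 0 ∨ y2 ≠ 0 ∨ y3 ≠ 0) ∧ y1 + y2 + y3 = 0 ∧
      d1 * y1 ^ r + d2 * y2 ^ r + d3 * y3 ^ r = 0) →
  ∀ v1 v2 : F, v1 ≠ 0 → v2 ≠ 0 → v1 ≠ v2 → (Fintype.card F : ℤ) ^ 2 ≤ 8 * NK D v1 v2

/-- F2: the sum over all `(v1,v2)` -/
def StmF2 : Prop := ∀ (F : Type) [Field F] [Fintype F] [CharP F 2] (D : Finset F),
  2 * D.card = Fintype.card F →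
  8 * ∑ v ∈ (univ : Finset (F × F)).filter (fun v => v.1 ≠ 0 ∧ v.2 ≠ 0 ∧ v.1 ≠ v.2), NK D v.1 v.2
    = ((Fintype.card F : ℤ) - 1) * ((Fintype.card F : ℤ) - 2) * (Fintype.card F : ℤ) ^ 2

end

end Pool.Agent.R48.KT
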