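import Pool.Agent.R48.KT.Stm

namespace Pool.Agent.R48.KT

open Finset
open scoped Classical

set_option linter.unusedSectionVars false

noncomputable section

theorem stmA1 : StmA1 := by
  intro F _ _ _ n k hcard hcop z hz
  by_cases h0 : z = 0
  · exact Or.inl h0
  right
  have h1 : z ^ (2 ^ k - 1) = 1 := by
    have h2 : z ^ (2 ^ k - 1) * z = 1 * z := by
      rw [← pow_succ, Nat.sub_add_cancel Nat.one_le_two_pow, hz, one_mul]
    exact mul_right_cancel₀ h0 h2
  have h2 : z ^ (2 ^ n - 1) = 1 := by
    rw [← hcard]; exact FiniteField.pow_card_sub_one_eq_one z h0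
  have h3 : orderOf z ∣ Nat.gcd (2 ^ k - 1) (2 ^ n - 1) :=
    Nat.dvd_gcd (orderOf_dvd_of_pow_eq_one h1) (orderOf_dvd_of_pow_eq_one h2)
  rw [Nat.pow_sub_one_gcd_pow_sub_one, hcop] at h3
  have h4 : orderOf z = 1 := by simpa using h3
  exact orderOf_eq_one_iff.1 h4

theorem stmA1e : StmA1e := by
  intro F _ _ _ k hA m hm
  have hinj : Function.Injective (powMonoidHom (2 ^ k - 1) : Fˣ →* Fˣ) := by
    rw [injective_iff_map_eq_one]
    intro u hu
    have hu' : u ^ (2 ^ k - 1) = 1 := hu
    have h1 : (u : F) ^ (2 ^ k) = u := by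
      have h2 : ((u ^ (2 ^ k - 1) : Fˣ) : F) = 1 := by rw [hu']; rfl
      rw [Units.val_pow_eq_pow_val] at h2
      calc (u : F) ^ (2 ^ k) = (u : F) ^ (2 ^ k - 1 + 1) := by
            rw [Nat.sub_add_cancel Nat.one_le_two_pow]
        _ = (u : F) := by rw [pow_succ, h2, one_mul]
    rcases hA _ h1 with h | h
    · exact absurd h u.ne_zero
    · exact Units.ext h
  have hsurj := Finite.surjective_of_injective hinj
  obtain ⟨u, hu⟩ := hsurj (Units.mk0 m hm)
  have hu' : u ^ (2 ^ k - 1) = Units.mk0 m hm := hu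
  refine ⟨u, u.ne_zero, ?_⟩
  have h2 : ((u ^ (2 ^ k - 1) : Fˣ) : F) = m := by rw [hu']; rfl
  rw [Units.val_pow_eq_pow_val] at h2
  calc (u : F) ^ (2 ^ k) = (u : F) ^ (2 ^ k - 1 + 1) := by
        rw [Nat.sub_add_cancel Nat.one_le_two_pow]
    _ = m * u := by rw [pow_succ, h2]

theorem stmA1u : StmA1u := by
  intro F _ _ _ k hA m z z' hz hz' h h'
  have hm : m ≠ 0 := by
    rintro rfl
    rw [zero_mul] at h
    exact hz (pow_eq_zero_iff (by positivity) |>.1 h)
  have h1 : (z / z') ^ (2 ^ k) = z / z' := by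
    rw [div_pow, h, h', mul_div_mul_left _ _ hm]
  rcases hA _ h1 with h2 | h2
  · exact absurd h2 (div_ne_zero hz hz')
  · exact (div_eq_one_iff_eq hz').1 h2

/-- the additive map `y ↦ y^(2^k) + y` -/
def LL (F : Type) [Field F] [CharP F 2] (k : ℕ) : F →+ F where
  toFun y := y ^ (2 ^ k) + y
  map_zero' := by simp
  map_add' x y := by
    rw [add_pow_char_pow]
    ring

theorem stmA2 : StmA2 := by
  intro F _ _ _ k hA z
  have hker : ((LL F k).ker : Set F) = {0, 1} := by
    ext y
    simp only [SetLike.mem_coe, AddMonoidHom.mem_ker, Set.mem_insert_iff, Set.mem_singleton_iff]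
    constructor
    · intro h
      have h1 : y ^ (2 ^ k) + y = 0 := h
      exact hA y (CharTwo.add_eq_zero.1 h1)
    · rintro (h | h)
      · rw [h]; exact map_zero _
      · rw [h]
        change (1 : F) ^ (2 ^ k) + 1 = 0
        rw [one_pow]; exact CharTwo.add_self_eq_zero 1
  have hcard : Nat.card (LL F k).ker = 2 := by
    have h1 : Nat.card (LL F k).ker = Set.ncard ((LL F k).ker : Set F) := rfl
    rw [h1, hker, Set.ncard_pair zero_ne_one]
  have hle : (LL F k).range ≤ (wp F).range := by
    rintro _ ⟨y, rfl⟩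
    rw [← chi_eq_one_iff']
    change chi (y ^ (2 ^ k) + y) = 1
    rw [chi_add, chi_pow_two_pow, chi_mul_self]
  have hc : Nat.card (LL F k).range = Nat.card (wp F).range := by
    have h1 := AddSubgroup.index_mul_card (LL F k).ker
    have h2 := AddSubgroup.index_mul_card (wp F).ker
    rw [AddSubgroup.index_ker, hcard] at h1
    rw [AddSubgroup.index_ker, card_ker_wp] at h2
    omega
  have heq : (LL F k).range = (wp F).range :=
    AddSubgroup.eq_of_le_of_card_ge hle (le_of_eq hc.symm)
  rw [chi_eq_one_iff', ← heq]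
  rfl

theorem gcd_r (n k r : ℕ) (hcop : Nat.Coprime k n) (hk : Odd k) (hn : Odd n ∨ ¬ 3 ∣ k)
    (hr : 3 * r = 2 ^ k + 1) : Nat.Coprime r (2 ^ n - 1) := by
  have h1 : r ∣ 2 ^ (2 * k) - 1 := by
    have h2 : 2 ^ (2 * k) - 1 = (2 ^ k + 1) * (2 ^ k - 1) := by
      rw [show 2 * k = k * 2 by ring, pow_mul]
      have : (1 : ℕ) ≤ 2 ^ k := Nat.one_le_two_pow
      zify [this, Nat.one_le_pow 2 (2 ^ k) (by positivity)]
      ring
    rw [h2, ← hr]
    exact ⟨3 * (2 ^ k - 1), by ring⟩
  have h3 : Nat.gcd r (2 ^ n - 1) ∣ 2 ^ Nat.gcd (2 * k) n - 1 := by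
    rw [← Nat.pow_sub_one_gcd_pow_sub_one]
    exact Nat.dvd_gcd ((Nat.gcd_dvd_left _ _).trans h1) (Nat.gcd_dvd_right _ _)
  rcases Nat.even_or_odd n with he | ho
  · -- n even
    have hk3 : ¬ 3 ∣ k := by
      rcases hn with h | h
      · exact absurd he (Nat.not_even_iff_odd.2 h)
      · exact h
    have hg : Nat.gcd (2 * k) n = 2 := by
      obtain ⟨m, hm⟩ := he
      have hm2 : n = 2 * m := by omega
      rw [hm2, Nat.gcd_mul_left]
      have : Nat.Coprime k m := Nat.Coprime.coprime_dvd_right ⟨2, by omega⟩ hcop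
      rw [this]
    rw [hg] at h3
    norm_num at h3
    have h4 : ¬ 3 ∣ r := by
      intro h5
      have h6 : 9 ∣ 2 ^ k + 1 := by
        rw [← hr]
        obtain ⟨c, hc⟩ := h5
        exact ⟨c, by rw [hc]; ring⟩
      have h7 : k % 6 = 1 ∨ k % 6 = 5 := by
        obtain ⟨j, hj⟩ := hk
        omega
      have h8 : 2 ^ k % 9 = 2 ^ (k % 6) % 9 := by
        conv_lhs => rw [← Nat.div_add_mod k 6, pow_add, pow_mul]
        rw [Nat.mul_mod, Nat.pow_mod]
        norm_num
      rcases h7 with h7 | h7 <;> rw [h7] at h8 <;> norm_num at h8 <;> omega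
    rcases (Nat.dvd_prime Nat.prime_three).1 h3 with h5 | h5
    · exact h5
    · exfalso
      apply h4
      rw [← h5]
      exact Nat.gcd_dvd_left _ _
  · have hg : Nat.gcd (2 * k) n = 1 := by
      apply Nat.Coprime.mul_left
      · exact (Nat.coprime_two_left).2 ho
      · exact hcop
    rw [hg] at h3
    simpa using h3

theorem stmA3 : StmA3 := by
  intro F _ _ _ n k r hcard hcop hk hn hr
  have hg := gcd_r n k r hcop hk hn hr
  have hr0 : r ≠ 0 := by rintro rfl; have := Nat.one_le_two_pow (n := k); omega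
  apply Finite.injective_iff_bijective.1
  intro y z hyz
  have hyz' : y ^ r = z ^ r := hyz
  by_cases hz : z = 0
  · rw [hz, zero_pow hr0] at hyz'
    rw [hz]; exact (pow_eq_zero_iff hr0).1 hyz'
  · have h1 : (y / z) ^ r = 1 := by
      rw [div_pow, hyz', div_self (pow_ne_zero _ hz)]
    have hne : y / z ≠ 0 := by
      intro h; rw [h, zero_pow hr0] at h1; exact zero_ne_one h1
    have h2 : (y / z) ^ (2 ^ n - 1) = 1 := by
      rw [← hcard]; exact FiniteField.pow_card_sub_one_eq_one _ hne
    have h3 : orderOf (y / z) ∣ Nat.gcd r (2 ^ n - 1) :=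
      Nat.dvd_gcd (orderOf_dvd_of_pow_eq_one h1) (orderOf_dvd_of_pow_eq_one h2)
    rw [hg] at h3
    have h4 : orderOf (y / z) = 1 := by simpa using h3
    exact (div_eq_one_iff_eq hz).1 (orderOf_eq_one_iff.1 h4)

theorem exists_sqrt {F : Type} [Field F] [Fintype F] [CharP F 2] (s : F) : ∃ t : F, t ^ 2 = s := by
  have h := (Finite.injective_iff_bijective.1 (frobenius_inj F 2)).2 s
  obtain ⟨t, ht⟩ := h
  exact ⟨t, ht⟩

theorem sq_inj {F : Type} [Field F] [CharP F 2] {s t : F} (h : s ^ 2 = t ^ 2) : s = t :=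
  frobenius_inj F 2 h

theorem stmA4 : StmA4 := by
  intro F _ _ _
  refine ⟨?_, ?_, ?_, ?_, ?_, ?_⟩
  · intro m u hu
    unfold c3
    congr 1
    apply Finset.card_bij' (fun t _ => t / u) (fun t _ => t * u)
    · intro t ht
      simp only [mem_filter, mem_univ, true_and] at ht ⊢
      rw [div_pow, ht]; field_simp
    · intro t ht
      simp only [mem_filter, mem_univ, true_and] at ht ⊢
      rw [mul_pow, ht]
    · intro t _; field_simp
    · intro t _; field_simp
  · intro m
    unfold c3
    congr 1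
    symm
    apply Finset.card_bij (fun t _ => t ^ 2)
    · intro t ht
      simp only [mem_filter, mem_univ, true_and] at ht ⊢
      rw [← ht]; ring
    · intro a _ b _ h
      exact sq_inj h
    · intro s hs
      simp only [mem_filter, mem_univ, true_and] at hs
      obtain ⟨t, ht⟩ := exists_sqrt s
      refine ⟨t, ?_, ht⟩
      simp only [mem_filter, mem_univ, true_and]
      apply sq_inj
      rw [← hs, ← ht]; ring
  · intro m
    unfold c3
    congr 1
    refine Finset.card_bij' (fun t _ => t⁻¹) (fun t _ => t⁻¹) ?_ ?_ ?_ ?_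
    · intro t ht
      simp only [mem_filter, mem_univ, true_and] at ht ⊢
      rw [inv_pow, ht, inv_inv]
    · intro t ht
      simp only [mem_filter, mem_univ, true_and] at ht ⊢
      rw [inv_pow, ht]
    · intro t _; exact inv_inv t
    · intro t _; exact inv_inv t
  · unfold c3
    rw [← Nat.cast_sum]
    congr 1
    rw [← Finset.card_univ]
    exact (Finset.card_eq_sum_card_fiberwise (s := (univ : Finset F)) (t := (univ : Finset F))
      (f := fun t : F => t ^ 3) (fun _ _ => mem_coe.2 (mem_univ _))).symm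
  · unfold c3
    have : (univ.filter fun t : F => t ^ 3 = 0) = {0} := by
      ext t
      simp
    rw [this]; simp
  · intro h1 m
    have hinj : Function.Injective (fun t : F => t ^ 3) := by
      intro a b hab
      have hab' : a ^ 3 = b ^ 3 := hab
      by_contra hne
      have hb : b ≠ 0 := by
        rintro rfl
        apply hne
        rw [zero_pow (by norm_num)] at hab'
        exact (pow_eq_zero_iff (by norm_num)).1 hab'
      have h2 : a ^ 2 + a * b + b ^ 2 = 0 := by
        have h3 : (a - b) * (a ^ 2 + a * b + b ^ 2) = 0 := by linear_combination hab'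
        rcases mul_eq_zero.1 h3 with h | h
        · exact absurd (sub_eq_zero.1 h) hne
        · exact h
      apply (chi_ne_one_iff (1 : F)).1 h1
      refine ⟨a / b, ?_⟩
      have h22 : (2 : F) = 0 := CharTwo.two_eq_zero
      field_simp
      linear_combination h2 - b ^ 2 * h22
    obtain ⟨t, ht⟩ := (Finite.injective_iff_bijective.1 hinj).2 m
    unfold c3
    have : (univ.filter fun t : F => t ^ 3 = m) = {t} := by
      ext s
      simp only [mem_filter, mem_univ, true_and, mem_singleton]
      constructor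
      · intro hs
        apply hinj
        change s ^ 3 = t ^ 3
        rw [hs]; exact ht.symm
      · rintro rfl
        exact ht
    rw [this]; simp

end

end Pool.Agent.R48.KT
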