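import Pool.Agent.R48.KT.Stm

/-!
# KT-B2a: the cubic character expansion of `C(w)` (`n` even)
-/

namespace Pool.Agent.R48.KT

open Finset
open scoped Classical

set_option linter.unusedSectionVars false

noncomputable section

variable {F : Type} [Field F] [Fintype F] [CharP F 2]

section B2a

/-- there is an element of order three -/
lemma exists_omega (h1 : chi (1 : F) = 1) : ∃ om : F, om ^ 2 + om = 1 := (chi_eq_one_iff _).1 h1

lemma three_dvd (h1 : chi (1 : F) = 1) : 3 ∣ Fintype.card F - 1 := by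
  obtain ⟨om, hom⟩ := exists_omega h1
  have h2 : (2 : F) = 0 := CharTwo.two_eq_zero
  have hom3 : om ^ 3 = 1 := by linear_combination (om - 1) * hom + (om - 1) * h2
  have hom0 : om ≠ 0 := by
    rintro rfl
    simp at hom
  have hom1 : om ≠ 1 := by
    rintro rfl
    have : (1 : F) = 0 := by linear_combination hom
    exact one_ne_zero this
  have hord : orderOf (Units.mk0 om hom0) = 3 := by
    apply orderOf_eq_prime
    · ext
      simpa using hom3
    · intro h
      apply hom1
      have := congrArg Units.val h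
      simpa using this
  have h3 := orderOf_dvd_card (x := Units.mk0 om hom0)
  rw [hord, Fintype.card_units] at h3
  exact h3

lemma th_exists (h1 : chi (1 : F) = 1) : ∃ th : MulChar F ℂ, orderOf th = 3 :=
  MulChar.exists_mulChar_orderOf F (three_dvd h1) (Complex.isPrimitiveRoot_exp 3 (by norm_num))

lemma th_cube {th : MulChar F ℂ} (hth : orderOf th = 3) {m : F} (hm : m ≠ 0) : th m ^ 3 = 1 := by
  have h := pow_orderOf_eq_one th
  rw [hth] at h
  have h2 := congrArg (fun c : MulChar F ℂ => c m) h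
  simp only [MulChar.pow_apply' th (by norm_num : 3 ≠ 0)] at h2
  rw [h2, MulChar.one_apply (IsUnit.mk0 m hm)]

lemma th_eq_one {th : MulChar F ℂ} (hth : orderOf th = 3) {m : F} (hm : m ≠ 0) (h : th m = 1) :
    ∃ u : F, u ≠ 0 ∧ u ^ 3 = m := by
  obtain ⟨g, hg⟩ := IsCyclic.exists_generator (α := Fˣ)
  set G : ℂˣ := MulChar.toUnitHom th g with hG
  have hGv : (G : ℂ) = th g := MulChar.coe_toUnitHom th g
  have hg1 : G ≠ 1 := by
    intro h1
    have h2 : th = 1 := by
      rw [MulChar.eq_iff hg]
      rw [← hGv, h1, MulChar.one_apply_coe, Units.val_one]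
    rw [h2, orderOf_one] at hth
    norm_num at hth
  have hg3 : G ^ 3 = 1 := by
    ext
    rw [Units.val_pow_eq_pow_val, hGv, Units.val_one]
    exact th_cube hth g.ne_zero
  obtain ⟨j, hj⟩ := (Subgroup.mem_zpowers_iff).1 (hg (Units.mk0 m hm))
  have hord : orderOf G = 3 := orderOf_eq_prime hg3 hg1
  have h3 : G ^ j = 1 := by
    rw [hG, ← map_zpow, hj]
    ext
    rw [MulChar.coe_toUnitHom, Units.val_mk0, h, Units.val_one]
  have h6 : (3 : ℤ) ∣ j := by
    have := orderOf_dvd_iff_zpow_eq_one.2 h3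
    rwa [hord] at this
  obtain ⟨i, rfl⟩ := h6
  refine ⟨((g ^ i : Fˣ) : F), Units.ne_zero _, ?_⟩
  have h7 : (g ^ i) ^ 3 = Units.mk0 m hm := by
    rw [← hj, ← zpow_natCast, ← zpow_mul]
    congr 1
    push_cast
    ring
  have h8 := congrArg Units.val h7
  simpa using h8

lemma c3_cube (h1 : chi (1 : F) = 1) {u : F} (hu : u ≠ 0) : c3 (u ^ 3) = 3 := by
  obtain ⟨om, hom⟩ := exists_omega h1
  have h2 : (2 : F) = 0 := CharTwo.two_eq_zero
  have hom0 : om ≠ 0 := by
    rintro rfl
    simp at hom
  have hom1 : om ≠ 1 := by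
    rintro rfl
    have : (1 : F) = 0 := by linear_combination hom
    exact one_ne_zero this
  have hom2 : om ≠ om + 1 := by
    intro h
    have : (1 : F) = 0 := by linear_combination -h
    exact one_ne_zero this
  have hom3 : (1 : F) ≠ om + 1 := by
    intro h
    apply hom0
    linear_combination -h
  unfold c3
  have : (univ.filter fun t : F => t ^ 3 = u ^ 3) = {u, u * om, u * (om + 1)} := by
    ext t
    simp only [mem_filter, mem_univ, true_and, mem_insert, mem_singleton]
    constructor
    · intro h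
      have h3 : (t - u) * ((t - u * om) * (t - u * (om + 1))) = 0 := by
        linear_combination h + (t - u) * u ^ 2 * hom - (t - u) * (t * u) * h2 * (om + 1) + (t - u) * u ^ 2 * h2 * 0
      rcases mul_eq_zero.1 h3 with h4 | h4
      · left; exact sub_eq_zero.1 h4
      · rcases mul_eq_zero.1 h4 with h5 | h5
        · right; left; exact sub_eq_zero.1 h5
        · right; right; exact sub_eq_zero.1 h5
    · rintro (rfl | rfl | rfl)
      · rfl
      · have hom3 : om ^ 3 = 1 := by linear_combination (om - 1) * hom + (om - 1) * h2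
        linear_combination u ^ 3 * hom3
      · have hom3 : (om + 1) ^ 3 = 1 := by
          linear_combination (om + 2) * hom + om * h2 + h2
        linear_combination u ^ 3 * hom3
  rw [this, Finset.card_insert_of_notMem, Finset.card_pair]
  · norm_num
  · intro h
    exact hom2 (mul_left_cancel₀ hu h)
  · simp only [mem_insert, mem_singleton, not_or]
    refine ⟨fun h => hom1 ?_, fun h => hom3 ?_⟩
    · exact (mul_left_cancel₀ hu (by rw [mul_one]; exact h)).symm
    · exact mul_left_cancel₀ hu (by rw [mul_one]; exact h)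

lemma c3_th (h1 : chi (1 : F) = 1) {th : MulChar F ℂ} (hth : orderOf th = 3) {m : F}
    (hm : m ≠ 0) : (c3 m : ℂ) = 1 + th m + th m ^ 2 := by
  by_cases h : th m = 1
  · obtain ⟨u, hu, rfl⟩ := th_eq_one hth hm h
    rw [c3_cube h1 hu, h]
    norm_num
  · have h3 := th_cube hth hm
    have h4 : 1 + th m + th m ^ 2 = 0 := by
      have : (th m - 1) * (1 + th m + th m ^ 2) = 0 := by linear_combination h3
      rcases mul_eq_zero.1 this with h5 | h5
      · exact absurd (sub_eq_zero.1 h5) h
      · exact h5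
    rw [h4]
    unfold c3
    rw [Finset.filter_eq_empty_iff.2, Finset.card_empty]
    · simp
    · intro t _ ht
      apply h
      have ht0 : t ≠ 0 := by
        rintro rfl
        apply hm
        rw [← ht]
        ring
      rw [← ht, map_pow, th_cube hth ht0]

/-- the weight `#{v ≠ 0 : v + 1/v = t}` -/
lemma card_inv (t : F) : ((univ.filter fun v : F => v ≠ 0 ∧ v + v⁻¹ = t).card : ℤ) =
    if t = 0 then 1 else 1 + chi (t⁻¹) := by
  have h2 : (2 : F) = 0 := CharTwo.two_eq_zero
  split_ifs with ht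
  · subst ht
    have : (univ.filter fun v : F => v ≠ 0 ∧ v + v⁻¹ = 0) = {1} := by
      ext v
      simp only [mem_filter, mem_univ, true_and, mem_singleton]
      constructor
      · rintro ⟨hv, h⟩
        have h3 : v * v + 1 = 0 := by
          have := congrArg (fun z => v * z) h
          simp only [mul_add, mul_inv_cancel₀ hv, mul_zero] at this
          exact this
        have h4 : (v + 1) ^ 2 = 0 := by linear_combination h3 + v * h2
        have h5 : v + 1 = 0 := by simpa using h4
        linear_combination h5 - h2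
      · rintro rfl
        refine ⟨one_ne_zero, ?_⟩
        rw [inv_one]
        linear_combination h2
    rw [this, card_singleton]
    norm_num
  · have h3 := card_quad (1 : F) t 1 one_ne_zero ht
    have h4 : (1 : F) * 1 / t ^ 2 = (t⁻¹) ^ 2 := by
      field_simp
    rw [h4, chi_sq] at h3
    rw [← h3]
    congr 2
    ext v
    simp only [mem_filter, mem_univ, true_and]
    constructor
    · rintro ⟨hv, h⟩
      rw [← h]
      have h5 : v * v⁻¹ = 1 := mul_inv_cancel₀ hv
      linear_combination h5 + (v ^ 2 + 1) * h2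
    · intro h
      have hv : v ≠ 0 := by
        rintro rfl
        have : (1 : F) = 0 := by linear_combination h
        exact one_ne_zero this
      refine ⟨hv, ?_⟩
      have h5 : v * v⁻¹ = 1 := mul_inv_cancel₀ hv
      have h6 : v * (v + v⁻¹ - t) = 0 := by
        linear_combination h + h5 - v * t * h2
      rcases mul_eq_zero.1 h6 with h7 | h7
      · exact absurd h7 hv
      · exact sub_eq_zero.1 h7

/-- weight -/
def omw (t : F) : ℂ := if t = 0 then 1 else 1 + (chi (t⁻¹) : ℂ)

def omw' (t : F) : ℂ := if t = 0 then 1 else 1 - (chi (t⁻¹) : ℂ)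

lemma omw_add (t : F) : omw t + omw' t = 2 := by
  unfold omw omw'
  split_ifs <;> ring

lemma sum_inv (h : F → ℂ) :
    ∑ v ∈ univ.erase (0 : F), h (v + v⁻¹) = ∑ t : F, omw t * h t := by
  have h1 : ∀ t : F, omw t * h t = ∑ v ∈ univ.erase (0 : F), if v + v⁻¹ = t then h t else 0 := by
    intro t
    rw [← Finset.sum_filter, Finset.sum_const, nsmul_eq_mul]
    congr 1
    have h2 := card_inv t
    have h3 : (univ.erase (0 : F)).filter (fun v => v + v⁻¹ = t) =
        univ.filter fun v : F => v ≠ 0 ∧ v + v⁻¹ = t := by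
      ext v
      simp [and_comm]
    rw [h3]
    unfold omw
    have h4 : (((univ.filter fun v : F => v ≠ 0 ∧ v + v⁻¹ = t).card : ℤ) : ℂ) =
        ((if t = 0 then 1 else 1 + chi (t⁻¹) : ℤ) : ℂ) := by rw [h2]
    rw [Int.cast_natCast] at h4
    rw [h4]
    split_ifs <;> simp
  rw [Finset.sum_congr rfl fun t _ => h1 t, Finset.sum_comm]
  refine Finset.sum_congr rfl fun v _ => ?_
  rw [Finset.sum_ite_eq univ, if_pos (mem_univ _)]

lemma sum_cube (h : F → ℂ) :
    ∑ v ∈ univ.erase (0 : F), h (v ^ 3) = ∑ v ∈ univ.erase (0 : F), (c3 v : ℂ) * h v := by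
  have h1 : ∀ t ∈ univ.erase (0 : F), (c3 t : ℂ) * h t =
      ∑ v ∈ univ.erase (0 : F), if v ^ 3 = t then h t else 0 := by
    intro t ht
    rw [← Finset.sum_filter, Finset.sum_const, nsmul_eq_mul]
    congr 1
    unfold c3
    rw [Int.cast_natCast]
    congr 2
    ext v
    simp only [mem_filter, mem_univ, true_and, mem_erase, and_true]
    constructor
    · intro hv
      refine ⟨?_, hv⟩
      rintro rfl
      apply Finset.ne_of_mem_erase ht
      rw [← hv]
      ring
    · exact fun hv => hv.2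
  rw [Finset.sum_congr rfl h1, Finset.sum_comm]
  refine Finset.sum_congr rfl fun v hv => ?_
  rw [Finset.sum_ite_eq, if_pos]
  refine Finset.mem_erase.2 ⟨?_, mem_univ _⟩
  exact pow_ne_zero 3 (Finset.ne_of_mem_erase hv)

/-- the Dickson map -/
def Dk (t : F) : F := t ^ 3 + t

lemma Dk_inv {v : F} (hv : v ≠ 0) : Dk (v + v⁻¹) = v ^ 3 + (v ^ 3)⁻¹ := by
  have h2 : (2 : F) = 0 := CharTwo.two_eq_zero
  unfold Dk
  rw [← inv_pow]
  have h5 : v * v⁻¹ = 1 := mul_inv_cancel₀ hv
  linear_combination (3 * v + 3 * v⁻¹) * h5 + (2 * v + 2 * v⁻¹) * h2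

lemma T1_key (f : F → ℂ) : ∑ t : F, omw' t * f t =
    f 0 + 2 * ∑ t ∈ univ.filter (fun t : F => t ≠ 0 ∧ chi (t⁻¹) = -1), f t := by
  have h1 : ∀ t : F, omw' t * f t = (if t = 0 then f 0 else 0) +
      (if t ≠ 0 ∧ chi (t⁻¹) = -1 then 2 * f t else 0) := by
    intro t
    unfold omw'
    by_cases ht : t = 0
    · subst ht; simp
    · rcases chi_eq (t⁻¹) with h | h
      · rw [h]; simp [ht]
      · rw [h, if_neg ht, if_neg ht, if_pos ⟨ht, rfl⟩]
        push_cast
        ring
  rw [Finset.sum_congr rfl fun t _ => h1 t, Finset.sum_add_distrib, Finset.sum_ite_eq' univ,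
    if_pos (mem_univ _), ← Finset.sum_filter, Finset.mul_sum]

lemma T1_sum (h1 : chi (1 : F) = 1) (h : F → ℂ) :
    ∑ t : F, omw' t * h (Dk t) = ∑ t : F, omw' t * h t := by
  have h2 : (2 : F) = 0 := CharTwo.two_eq_zero
  rw [T1_key, T1_key]
  set T1 : Finset F := univ.filter (fun t : F => t ≠ 0 ∧ chi (t⁻¹) = -1) with hT1
  have hmem : ∀ t : F, t ∈ T1 ↔ t ≠ 0 ∧ chi (t⁻¹) = -1 := fun t => by simp [hT1]
  have hmap : ∀ t ∈ T1, Dk t ∈ T1 := by
    intro t ht
    rw [hmem] at ht ⊢
    obtain ⟨ht0, htc⟩ := ht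
    have ht1 : t + 1 ≠ 0 := by
      intro h
      have : t = 1 := by linear_combination h - h2
      rw [this, inv_one, h1] at htc
      norm_num at htc
    have hD : Dk t = t * (t + 1) ^ 2 := by
      unfold Dk
      linear_combination -t ^ 2 * h2
    have hD0 : Dk t ≠ 0 := by
      rw [hD]
      exact mul_ne_zero ht0 (pow_ne_zero 2 ht1)
    refine ⟨hD0, ?_⟩
    have h3 : (Dk t)⁻¹ = t⁻¹ + (((t + 1)⁻¹) ^ 2 + (t + 1)⁻¹) := by
      rw [hD]
      field_simp
      linear_combination (-t ^ 2 - 2 * t) * h2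
    rw [h3, chi_add, chi_wp, mul_one, htc]
  have hinj : ∀ t ∈ T1, ∀ u ∈ T1, Dk t = Dk u → t = u := by
    intro t ht u hu hD
    rw [hmem] at ht hu
    by_contra hne
    have h3 : (t - u) * (t ^ 2 + t * u + u ^ 2 + 1) = 0 := by
      unfold Dk at hD
      linear_combination hD
    rcases mul_eq_zero.1 h3 with h4 | h4
    · exact hne (sub_eq_zero.1 h4)
    · have h5 : (u⁻¹) ^ 2 = ((t / u) ^ 2 + t / u) + 1 := by
        have hu0 := hu.1
        field_simp
        linear_combination -h4 + h2
      have h6 : chi ((u⁻¹) ^ 2) = 1 := by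
        rw [h5, chi_add, chi_wp, h1, mul_one]
      rw [chi_sq, hu.2] at h6
      norm_num at h6
  have himg : T1.image Dk = T1 := by
    apply Finset.eq_of_subset_of_card_le
    · intro x hx
      obtain ⟨t, ht, rfl⟩ := Finset.mem_image.1 hx
      exact hmap t ht
    · rw [Finset.card_image_of_injOn]
      intro t ht u hu h
      exact hinj t ht u hu h
  have hsum : ∑ t ∈ T1, h (Dk t) = ∑ t ∈ T1, h t := by
    conv_rhs => rw [← himg]
    rw [Finset.sum_image]
    intro t ht u hu h
    exact hinj t ht u hu h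
  rw [hsum]
  congr 2
  simp [Dk]

lemma expand (h1 : chi (1 : F) = 1) {th : MulChar F ℂ} (hth : orderOf th = 3) (h : F → ℂ) :
    ∑ t : F, h (Dk t) = ∑ t : F, h t + ∑ v ∈ univ.erase (0 : F), th v * h (v + v⁻¹) := by
  have e1 : ∑ t : F, omw t * h (Dk t) =
      ∑ v ∈ univ.erase (0 : F), (c3 v : ℂ) * h (v + v⁻¹) := by
    rw [← sum_inv (fun t => h (Dk t)), ← sum_cube (fun v => h (v + v⁻¹))]
    refine Finset.sum_congr rfl fun v hv => ?_
    rw [Dk_inv (Finset.ne_of_mem_erase hv)]
  have e2 : ∑ v ∈ univ.erase (0 : F), (c3 v : ℂ) * h (v + v⁻¹) =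
      ∑ t : F, omw t * h t + 2 * ∑ v ∈ univ.erase (0 : F), th v * h (v + v⁻¹) := by
    have e3 : ∑ v ∈ univ.erase (0 : F), th v ^ 2 * h (v + v⁻¹) =
        ∑ v ∈ univ.erase (0 : F), th v * h (v + v⁻¹) := by
      refine Finset.sum_bij' (fun v _ => v⁻¹) (fun v _ => v⁻¹) ?_ ?_ ?_ ?_ ?_
      · intro v hv
        exact Finset.mem_erase.2 ⟨inv_ne_zero (Finset.ne_of_mem_erase hv), mem_univ _⟩
      · intro v hv
        exact Finset.mem_erase.2 ⟨inv_ne_zero (Finset.ne_of_mem_erase hv), mem_univ _⟩
      · intro v _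
        exact inv_inv v
      · intro v _
        exact inv_inv v
      · intro v hv
        have hv0 := Finset.ne_of_mem_erase hv
        have e4 : th v ^ 2 = th v⁻¹ := by
          have e5 : th v * th v⁻¹ = 1 := by
            rw [← map_mul, mul_inv_cancel₀ hv0, map_one]
          have e6 := th_cube hth hv0
          have e7 : th v ≠ 0 := by
            intro h0
            rw [h0] at e6
            norm_num at e6
          have e8 : th v * (th v ^ 2 - th v⁻¹) = 0 := by linear_combination e6 - e5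
          rcases mul_eq_zero.1 e8 with e9 | e9
          · exact absurd e9 e7
          · exact sub_eq_zero.1 e9
        rw [e4, inv_inv, add_comm]
    rw [← sum_inv, two_mul]
    nth_rewrite 2 [← e3]
    rw [← Finset.sum_add_distrib, ← Finset.sum_add_distrib]
    refine Finset.sum_congr rfl fun v hv => ?_
    rw [c3_th h1 hth (Finset.ne_of_mem_erase hv)]
    ring
  have e3 := T1_sum h1 h
  have e4 : ∑ t : F, h (Dk t) * 2 = ∑ t : F, omw t * h (Dk t) + ∑ t : F, omw' t * h (Dk t) := by
    rw [← Finset.sum_add_distrib]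
    refine Finset.sum_congr rfl fun t _ => ?_
    rw [← add_mul, omw_add]
    ring
  have e5 : ∑ t : F, h t * 2 = ∑ t : F, omw t * h t + ∑ t : F, omw' t * h t := by
    rw [← Finset.sum_add_distrib]
    refine Finset.sum_congr rfl fun t _ => ?_
    rw [← add_mul, omw_add]
    ring
  rw [← Finset.sum_mul] at e4 e5
  linear_combination (1 / 2) * e4 - (1 / 2) * e5 + (1 / 2) * e1 + (1 / 2) * e2 + (1 / 2) * e3

theorem stmB2a : StmB2a := by
  intro F _ _ _ h1
  obtain ⟨th, hth⟩ := th_exists h1
  refine ⟨th, fun m hm => c3_th h1 hth hm, fun m hm => th_cube hth hm, ?_, ?_⟩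
  · apply MulChar.sum_eq_zero_of_ne_one
    intro h
    rw [h, orderOf_one] at hth
    norm_num at hth
  · intro w hw
    have e1 := expand h1 hth (fun t => ((chi (w * t) : ℤ) : ℂ))
    have e2 : ∑ t : F, ((chi (w * t) : ℤ) : ℂ) = 0 := by
      have := sum_chi_mul' w hw
      exact_mod_cast this
    rw [e2, zero_add] at e1
    rw [← e1]
    unfold CC Dk
    push_cast
    rfl

end B2a

end

end Pool.Agent.R48.KT
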