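import Pool.Agent.R48.KT.Stm

/-!
# KT-B2b: the identity B2 for `n` even, from B2a
-/

namespace Pool.Agent.R48.KT

open Finset
open scoped Classical

set_option linter.unusedSectionVars false

noncomputable section

variable {F : Type} [Field F] [Fintype F] [CharP F 2]

namespace B2b

lemma card_quad' (A C : F) :
    ((univ.filter fun X : F => A * X ^ 2 + 1 * X + C = 0).card : ℤ) =
      1 + chi (A * C) - if A = 0 then 1 else 0 := by
  by_cases hA : A = 0
  · subst hA
    have h2 : (2 : F) = 0 := CharTwo.two_eq_zero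
    have : (univ.filter fun X : F => (0 : F) * X ^ 2 + 1 * X + C = 0) = {C} := by
      ext X
      simp only [mem_filter, mem_univ, true_and, mem_singleton]
      constructor
      · intro h; linear_combination h - C * h2
      · intro h; rw [h]; linear_combination C * h2
    rw [this, card_singleton, zero_mul, chi_zero, if_pos rfl]
    norm_num
  · rw [card_quad A 1 C hA one_ne_zero, if_neg hA]
    norm_num

lemma count (p s lam : F) (hp : p ≠ 0) (hs : s ≠ 0) (hl : lam ≠ 0) :
    (((univ.erase (0 : F)).filter fun mu : F =>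
      p * (mu + mu⁻¹) + s * (lam * mu⁻¹ + (lam * mu⁻¹)⁻¹) + 1 = 0).card : ℤ) =
      1 + chi (p + s) * chi (p * s * (lam + lam⁻¹)) - (if lam = s / p then 1 else 0) -
        (if lam = p / s then 1 else 0) := by
  have h2 : (2 : F) = 0 := CharTwo.two_eq_zero
  set A : F := p + s * lam⁻¹ with hA
  set C : F := p + s * lam with hC
  have h3 := card_quad' A C
  have hAC : A * C = (p + s) ^ 2 + p * s * (lam + lam⁻¹) := by
    have : lam * lam⁻¹ = 1 := mul_inv_cancel₀ hl
    rw [hA, hC]
    linear_combination s ^ 2 * this - p * s * h2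
  have hchi : chi (A * C) = chi (p + s) * chi (p * s * (lam + lam⁻¹)) := by
    rw [hAC, chi_add, chi_sq]
  have hA0 : A = 0 ↔ lam = s / p := by
    rw [hA]
    constructor
    · intro h
      field_simp at h ⊢
      linear_combination h - s * h2
    · intro h
      rw [h]
      field_simp
      linear_combination p * h2
  have hC0 : C = 0 ↔ lam = p / s := by
    rw [hC]
    constructor
    · intro h
      field_simp
      linear_combination h - p * h2
    · intro h
      rw [h]
      field_simp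
      linear_combination p * h2
  have hset : (univ.erase (0 : F)).filter (fun mu : F =>
      p * (mu + mu⁻¹) + s * (lam * mu⁻¹ + (lam * mu⁻¹)⁻¹) + 1 = 0) =
      (univ.filter fun X : F => A * X ^ 2 + 1 * X + C = 0).erase 0 := by
    ext mu
    simp only [mem_filter, mem_erase, mem_univ, and_true, true_and]
    refine and_congr_right fun hmu => ?_
    have e : A * mu ^ 2 + 1 * mu + C =
        mu * (p * (mu + mu⁻¹) + s * (lam * mu⁻¹ + (lam * mu⁻¹)⁻¹) + 1) := by
      rw [hA, hC]
      field_simp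
      ring
    rw [e]
    constructor
    · intro h; rw [h, mul_zero]
    · intro h
      rcases mul_eq_zero.1 h with h' | h'
      · exact absurd h' hmu
      · exact h'
  have hmem : (0 : F) ∈ (univ.filter fun X : F => A * X ^ 2 + 1 * X + C = 0) ↔ lam = p / s := by
    rw [← hC0]
    simp
  rw [hset]
  rw [hchi] at h3
  simp only [hA0] at h3
  by_cases h5 : lam = p / s
  · have h4 := Finset.card_erase_of_mem (hmem.2 h5)
    have h6 : 0 < (univ.filter fun X : F => A * X ^ 2 + 1 * X + C = 0).card :=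
      Finset.card_pos.2 ⟨0, hmem.2 h5⟩
    rw [if_pos h5, ← h3, h4]
    omega
  · rw [Finset.erase_eq_of_notMem (fun h => h5 (hmem.1 h)), if_neg h5, ← h3]
    ring

end B2b

open B2b in
theorem stmB2even (hB : StmB2a) : StmB2even := by
  intro F _ _ _ p s h1 hp hs
  obtain ⟨th, hc3, hcube, hsum, hC⟩ := hB F h1
  set T : Finset F := univ.erase (0 : F) with hT
  have hT0 : ∀ v ∈ T, v ≠ 0 := fun v hv => Finset.ne_of_mem_erase hv
  have hTm : ∀ v : F, v ≠ 0 → v ∈ T := fun v hv => Finset.mem_erase.2 ⟨hv, mem_univ _⟩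
  set S : F → ℂ := fun a => ∑ v ∈ T, th v * ((chi (a * (v + v⁻¹)) : ℤ) : ℂ) with hS
  have hsumT : ∑ v ∈ T, th v = 0 := by
    rw [← hsum, hT, ← Finset.add_sum_erase univ _ (mem_univ (0 : F)), MulChar.map_zero, zero_add]
  have hS0 : S 0 = 0 := by
    rw [hS]
    simp only [zero_mul, chi_zero, Int.cast_one, mul_one]
    exact hsumT
  have hCS : ∀ w : F, w ≠ 0 → (CC w : ℂ) = S w := fun w hw => hC w hw
  -- the sum over all `w`
  have e1 : ∑ w ∈ T, ((CC (p * w) * CC (s * w) * chi w : ℤ) : ℂ) =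
      ∑ w : F, S (p * w) * S (s * w) * ((chi w : ℤ) : ℂ) := by
    rw [← Finset.add_sum_erase univ _ (mem_univ (0 : F)), mul_zero, hS0, zero_mul, zero_mul,
      zero_add]
    refine Finset.sum_congr rfl fun w hw => ?_
    push_cast
    rw [hCS _ (mul_ne_zero hp (hT0 w hw)), hCS _ (mul_ne_zero hs (hT0 w hw))]
  have e2 : ∀ w : F, S (p * w) * S (s * w) * ((chi w : ℤ) : ℂ) =
      ∑ mu ∈ T, ∑ nu ∈ T, th (mu * nu) *
        ((chi ((p * (mu + mu⁻¹) + s * (nu + nu⁻¹) + 1) * w) : ℤ) : ℂ) := by
    intro w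
    rw [hS]
    simp only
    rw [Finset.sum_mul_sum, Finset.sum_mul]
    refine Finset.sum_congr rfl fun mu _ => ?_
    rw [Finset.sum_mul]
    refine Finset.sum_congr rfl fun nu _ => ?_
    have : (p * (mu + mu⁻¹) + s * (nu + nu⁻¹) + 1) * w =
        p * w * (mu + mu⁻¹) + s * w * (nu + nu⁻¹) + w := by ring
    rw [this, chi_add, chi_add, map_mul]
    push_cast
    ring
  have e3 : ∑ w : F, S (p * w) * S (s * w) * ((chi w : ℤ) : ℂ) =
      ∑ mu ∈ T, ∑ nu ∈ T, th (mu * nu) *
        (if p * (mu + mu⁻¹) + s * (nu + nu⁻¹) + 1 = 0 then (Fintype.card F : ℂ) else 0) := by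
    rw [Finset.sum_congr rfl fun w _ => e2 w, Finset.sum_comm]
    refine Finset.sum_congr rfl fun mu _ => ?_
    rw [Finset.sum_comm]
    refine Finset.sum_congr rfl fun nu _ => ?_
    rw [← Finset.mul_sum]
    congr 1
    have := sum_chi_mul (p * (mu + mu⁻¹) + s * (nu + nu⁻¹) + 1)
    have h := congrArg (Int.cast : ℤ → ℂ) this
    push_cast at h
    exact h
  have e4 : ∀ mu ∈ T, ∑ nu ∈ T, th (mu * nu) *
        (if p * (mu + mu⁻¹) + s * (nu + nu⁻¹) + 1 = 0 then (Fintype.card F : ℂ) else 0) =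
      ∑ lam ∈ T, th lam * (if p * (mu + mu⁻¹) + s * (lam * mu⁻¹ + (lam * mu⁻¹)⁻¹) + 1 = 0 then
        (Fintype.card F : ℂ) else 0) := by
    intro mu hmu
    have hmu0 := hT0 mu hmu
    refine Finset.sum_bij' (fun nu _ => mu * nu) (fun lam _ => lam * mu⁻¹) ?_ ?_ ?_ ?_ ?_
    · intro nu hnu
      exact hTm _ (mul_ne_zero hmu0 (hT0 nu hnu))
    · intro lam hlam
      exact hTm _ (mul_ne_zero (hT0 lam hlam) (inv_ne_zero hmu0))
    · intro nu _
      field_simp
    · intro lam _
      field_simp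
    · intro nu _
      have : mu * nu * mu⁻¹ = nu := by field_simp
      rw [this]
  rw [Finset.sum_congr rfl e4, Finset.sum_comm] at e3
  have e5 : ∀ lam ∈ T, ∑ mu ∈ T, th lam *
      (if p * (mu + mu⁻¹) + s * (lam * mu⁻¹ + (lam * mu⁻¹)⁻¹) + 1 = 0 then
        (Fintype.card F : ℂ) else 0) =
      (Fintype.card F : ℂ) * (th lam + ((chi (p + s) : ℤ) : ℂ) *
        (th lam * ((chi (p * s * (lam + lam⁻¹)) : ℤ) : ℂ)) -
        (if lam = s / p then th lam else 0) - (if lam = p / s then th lam else 0)) := by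
    intro lam hlam
    rw [← Finset.mul_sum, ← Finset.sum_filter, Finset.sum_const, nsmul_eq_mul]
    have h := congrArg (Int.cast : ℤ → ℂ) (count p s lam hp hs (hT0 lam hlam))
    rw [Int.cast_natCast] at h
    rw [h]
    push_cast
    split_ifs <;> ring
  rw [Finset.sum_congr rfl e5, ← Finset.mul_sum, Finset.sum_sub_distrib, Finset.sum_sub_distrib,
    Finset.sum_add_distrib, hsumT, ← Finset.mul_sum, Finset.sum_ite_eq' T, Finset.sum_ite_eq' T,
    if_pos (hTm _ (div_ne_zero hs hp)), if_pos (hTm _ (div_ne_zero hp hs))] at e3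
  have hps := hCS (p * s) (mul_ne_zero hp hs)
  have e6 : ∑ lam ∈ T, th lam * ((chi (p * s * (lam + lam⁻¹)) : ℤ) : ℂ) = (CC (p * s) : ℂ) := by
    rw [hps]
  rw [e6] at e3
  have hq0 : p / s ≠ 0 := div_ne_zero hp hs
  have e7 : th (s / p) = th (p / s) ^ 2 := by
    have f1 : th (p / s) * th (s / p) = 1 := by
      rw [← map_mul]
      have : p / s * (s / p) = 1 := by field_simp
      rw [this, map_one]
    have f2 := hcube _ hq0
    have f3 : th (p / s) ≠ 0 := by
      intro h0
      rw [h0] at f2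
      norm_num at f2
    have f4 : th (p / s) * (th (s / p) - th (p / s) ^ 2) = 0 := by linear_combination f1 - f2
    rcases mul_eq_zero.1 f4 with f5 | f5
    · exact absurd f5 f3
    · exact sub_eq_zero.1 f5
  have e8 := hc3 _ hq0
  have e9 : chi (1 + p + s) = chi (p + s) := by
    rw [add_assoc, chi_add, h1, one_mul]
  have e10 : ((∑ w ∈ T, CC (p * w) * CC (s * w) * chi w : ℤ) : ℂ) =
      (((Fintype.card F : ℤ) * (1 - c3 (p / s) + chi (1 + p + s) * CC (p * s)) : ℤ) : ℂ) := by
    rw [e9]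
    rw [Int.cast_sum, e1, e3]
    push_cast
    rw [e7, e8]
    ring
  exact_mod_cast e10

end

end Pool.Agent.R48.KT
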