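import Pool.Agent.R48.KT.A

namespace Pool.Agent.R48.KT

open Finset
open scoped Classical

set_option linter.unusedSectionVars false

noncomputable section

variable {F : Type} [Field F] [Fintype F] [CharP F 2]

theorem frob_inj (k : ℕ) : Function.Injective (fun z : F => z ^ (2 ^ k)) := by
  induction k with
  | zero => intro a b h; simpa using h
  | succ k ih =>
    intro a b h
    have h' : a ^ (2 ^ (k + 1)) = b ^ (2 ^ (k + 1)) := h
    rw [pow_succ, pow_mul, pow_mul] at h'
    exact ih (sq_inj h')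

def frobE (F : Type) [Field F] [Fintype F] [CharP F 2] (k : ℕ) : F ≃ F :=
  Equiv.ofBijective (fun z : F => z ^ (2 ^ k)) (Finite.injective_iff_bijective.1 (frob_inj k))

theorem frobE_apply (k : ℕ) (z : F) : frobE F k z = z ^ (2 ^ k) := rfl

def mulE (a : F) (ha : a ≠ 0) : F ≃ F := Equiv.mulLeft₀ a ha

theorem mulE_apply (a : F) (ha : a ≠ 0) (x : F) : mulE a ha x = a * x := rfl

theorem sum_erase_equiv (e : F ≃ F) (he : e 0 = 0) (f : F → ℤ) :
    ∑ w ∈ univ.erase (0 : F), f (e w) = ∑ w ∈ univ.erase (0 : F), f w := by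
  apply Finset.sum_equiv e
  · intro i
    simp only [mem_erase, mem_univ, and_true, ne_eq]
    constructor
    · intro h h'
      apply h
      apply e.injective
      rw [h', he]
    · intro h h'
      apply h
      rw [h', he]
  · intro i _; rfl

theorem CC_sq (w : F) : CC (w ^ 2) = CC w := by
  unfold CC
  rw [← Equiv.sum_comp (frobE F 1)]
  apply Finset.sum_congr rfl
  intro t _
  rw [frobE_apply]
  rw [← chi_sq (w * (t ^ 3 + t))]
  congr 1
  have h22 : (2 : F) = 0 := CharTwo.two_eq_zero
  norm_num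
  linear_combination (- w ^ 2 * t ^ 4) * h22

theorem CC_pow (w : F) (j : ℕ) : CC (w ^ (2 ^ j)) = CC w := by
  induction j with
  | zero => simp
  | succ j ih => rw [pow_succ, pow_mul, CC_sq, ih]

theorem C0_sq (w : F) : C0 (w ^ 2) = C0 w := by
  unfold C0
  rw [← Equiv.sum_comp (frobE F 1)]
  apply Finset.sum_congr rfl
  intro t _
  rw [frobE_apply]
  rw [← chi_sq (w * t ^ 3)]
  congr 1
  norm_num
  ring

theorem C0_mul_cube (m u : F) (hu : u ≠ 0) : C0 (m * u ^ 3) = C0 m := by
  unfold C0
  rw [← Equiv.sum_comp (mulE u hu) (fun t => chi (m * t ^ 3))]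
  apply Finset.sum_congr rfl
  intro t _
  congr 1
  simp only [mulE_apply]
  ring

theorem C0_fib (g : F) (hg : g ≠ 0) : ∑ v : F, chi v * c3 (v / g) = C0 g := by
  unfold C0 c3
  have h1 : ∀ v : F, chi v * ((univ.filter fun t : F => t ^ 3 = v / g).card : ℤ)
      = ∑ t : F, if g * t ^ 3 = v then chi v else 0 := by
    intro v
    rw [← Finset.sum_filter, Finset.sum_const, nsmul_eq_mul, mul_comm]
    congr 2
    congr 1
    ext t
    simp only [mem_filter, mem_univ, true_and]
    rw [eq_div_iff hg, mul_comm]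
  rw [Finset.sum_congr rfl (fun v _ => h1 v), Finset.sum_comm]
  apply Finset.sum_congr rfl
  intro t _
  rw [Finset.sum_ite_eq]
  simp

theorem C0_odd (hA4 : StmA4) (h1 : chi (1 : F) = -1) (m : F) (hm : m ≠ 0) : C0 m = 0 := by
  rw [← C0_fib m hm]
  have := (hA4 F).2.2.2.2.2 h1
  simp only [this, mul_one]
  exact sum_chi

theorem sum_erase_chi : ∑ v ∈ univ.erase (0 : F), chi v = -1 := by
  have h := Finset.sum_erase_add (s := univ) (f := fun v : F => chi v) (a := 0) (mem_univ _)
  rw [sum_chi] at h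
  simp only [chi_zero] at h
  linarith

theorem sum_erase_c3 (hA4 : StmA4) : ∑ v ∈ univ.erase (0 : F), c3 v = Fintype.card F - 1 := by
  have h := Finset.sum_erase_add (s := univ) (f := fun v : F => c3 v) (a := 0) (mem_univ _)
  rw [(hA4 F).2.2.2.1] at h
  simp only [(hA4 F).2.2.2.2.1] at h
  linarith

theorem stmC (hA1u : StmA1u) (hA4 : StmA4) (hB1 : StmB1) (hB2 : StmB2) : StmC := by
  intro F _ _ _ k r hA hodd hr h pi hh0 hh1 hpi hpieq
  have h22 : (2 : F) = 0 := CharTwo.two_eq_zero
  set q := 2 ^ k with hq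
  set N : ℤ := (Fintype.card F : ℤ) with hN
  have hNpos : 0 < N := by rw [hN]; exact_mod_cast Fintype.card_pos
  have hh1' : h + 1 ≠ 0 := by
    intro h3; apply hh1; linear_combination h3 - h22
  have hr0 : r ≠ 0 := by
    rintro rfl
    have : 0 < q := by rw [hq]; positivity
    omega
  obtain ⟨hc_cube, hc_sq, hc_inv, hc_sum, hc_zero, hc_odd⟩ := hA4 F
  set a : F := h ^ (q + 1) + h with ha
  have ha' : a = h * (h + 1) ^ q := by
    rw [ha, hq, add_pow_char_pow, one_pow]; ring
  have ha0 : a ≠ 0 := by rw [ha']; exact mul_ne_zero hh0 (pow_ne_zero _ hh1')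
  set x : F := (a ^ 2)⁻¹ with hx
  set kap : F := h / (h + 1) with hkap
  have hkap0 : kap ≠ 0 := div_ne_zero hh0 hh1'
  -- cube facts
  have hcube : ∀ z : F, z ^ (q + 1) = (z ^ r) ^ 3 := by
    intro z; rw [← pow_mul, ← hr]; congr 1; ring
  -- step 1 : EE
  have step1 : EE r x = C0 x + ∑ w ∈ univ.erase (0 : F), CC (a * w ^ (q + 1)) * chi w := by
    unfold EE
    rw [Finset.sum_comm, ← Equiv.sum_comp (frobE F 1),
      ← Finset.sum_erase_add (s := univ) (a := (0 : F)) _ (mem_univ _), add_comm]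
    congr 1
    · unfold C0
      apply Finset.sum_congr rfl
      intro c _
      congr 1
      rw [frobE_apply, zero_pow (by positivity), zero_pow hr0]
      ring
    · apply Finset.sum_congr rfl
      intro w hw
      have hw0 : w ≠ 0 := (mem_erase.1 hw).1
      have hawr : a * w ^ r ≠ 0 := mul_ne_zero ha0 (pow_ne_zero _ hw0)
      rw [← Equiv.sum_comp (mulE (a * w ^ r) hawr)]
      unfold CC
      rw [Finset.sum_mul]
      apply Finset.sum_congr rfl
      intro t _
      rw [frobE_apply, ← chi_sq w, ← chi_add]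
      congr 1
      simp only [mulE_apply]
      rw [hcube w, hx]
      field_simp
      norm_num
      ring
  -- step 2 : B2
  have step2 : ∀ w ∈ univ.erase (0 : F), N * (CC (a * w ^ (q + 1)) * chi w)
      = chi (1 : F) * ((∑ v ∈ univ.erase (0 : F), CC (h * w * v) * CC (((h + 1) * w) ^ q * v) * chi v)
        + N * (c3 (h * (h + 1) * w ^ 2) - 1)) := by
    intro w hw
    have hw0 : w ≠ 0 := (mem_erase.1 hw).1
    have hp : h * w ≠ 0 := mul_ne_zero hh0 hw0
    have hs' : (h + 1) * w ≠ 0 := mul_ne_zero hh1' hw0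
    have hs : ((h + 1) * w) ^ q ≠ 0 := pow_ne_zero _ hs'
    have hb := hB2 F (h * w) (((h + 1) * w) ^ q) hp hs
    have e1 : h * w * ((h + 1) * w) ^ q = a * w ^ (q + 1) := by
      rw [ha', mul_pow]; ring
    have e2 : chi (1 + h * w + ((h + 1) * w) ^ q) = chi (1 : F) * chi w := by
      rw [chi_add, chi_add, hq, chi_pow_two_pow, mul_assoc, ← chi_add]
      congr 2
      linear_combination (h * w) * h22
    have e3 : c3 (h * w / ((h + 1) * w) ^ q) = c3 (h * (h + 1) * w ^ 2) := by
      have e4 : h * w / ((h + 1) * w) ^ q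
          = (h * (h + 1) * w ^ 2) * ((((h + 1) * w) ^ r)⁻¹) ^ 3 := by
        rw [inv_pow, ← hcube, pow_succ ((h + 1) * w) q]
        field_simp
      rw [e4, hc_cube _ _ (inv_ne_zero (pow_ne_zero _ hs'))]
    rw [e1, e2, e3] at hb
    rw [hb]
    have := chi_mul_self (1 : F)
    linear_combination (- N * CC (a * w ^ (q + 1)) * chi w) * this
  -- step 3 : sum of c3
  have step3 : ∑ w ∈ univ.erase (0 : F), (c3 (h * (h + 1) * w ^ 2) - 1) = 0 := by
    rw [Finset.sum_sub_distrib]
    have hg : h * (h + 1) ≠ 0 := mul_ne_zero hh0 hh1'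
    have e1 := sum_erase_equiv ((frobE F 1).trans (mulE (h * (h + 1)) hg))
      (by simp [frobE_apply, mulE_apply]) (fun v => c3 v)
    simp only [Equiv.trans_apply, frobE_apply, mulE_apply, pow_one] at e1
    rw [e1, sum_erase_c3 hA4]
    rw [Finset.sum_const, Finset.card_erase_of_mem (mem_univ _), Finset.card_univ]
    have : 1 ≤ Fintype.card F := Fintype.card_pos
    rw [nsmul_eq_mul, Nat.cast_sub this]
    push_cast
    ring
  -- step 4 : double sum
  have step4 : ∑ w ∈ univ.erase (0 : F), ∑ v ∈ univ.erase (0 : F),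
      CC (h * w * v) * CC (((h + 1) * w) ^ q * v) * chi v = N ^ 2 * chi pi - N * C0 (kap ^ 2) := by
    rw [Finset.sum_comm]
    have e0 := sum_erase_equiv (frobE F k) (by simp [frobE_apply])
      (fun v => ∑ w ∈ univ.erase (0 : F), CC (h * w * v) * CC (((h + 1) * w) ^ q * v) * chi v)
    rw [← e0]
    have e1 : ∀ v ∈ univ.erase (0 : F), (∑ w ∈ univ.erase (0 : F),
        CC (h * w * frobE F k v) * CC (((h + 1) * w) ^ q * frobE F k v) * chi (frobE F k v))
        = chi v * ((if v = pi then N ^ 2 else 0) + N * (1 - c3 (v / kap ^ 2))) := by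
      intro v hv
      have hv0 : v ≠ 0 := (mem_erase.1 hv).1
      have hb := hB1 F (h * v ^ q) ((h + 1) * v) (mul_ne_zero hh0 (pow_ne_zero _ hv0))
        (mul_ne_zero hh1' hv0)
      have e2 : ∀ w : F, CC (h * w * frobE F k v) * CC (((h + 1) * w) ^ q * frobE F k v)
          * chi (frobE F k v) = chi v * (CC (h * v ^ q * w) * CC ((h + 1) * v * w)) := by
        intro w
        rw [frobE_apply, chi_pow_two_pow, ← hq, ← mul_pow, hq, CC_pow, ← hq]
        rw [show h * w * v ^ q = h * v ^ q * w by ring,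
          show (h + 1) * w * v = (h + 1) * v * w by ring]
        ring
      rw [Finset.sum_congr rfl (fun w _ => e2 w), ← Finset.mul_sum, hb]
      congr 2
      · -- indicator
        by_cases hvp : v = pi
        · rw [if_pos hvp, if_pos]
          rw [hvp]; exact hpieq
        · rw [if_neg hvp, if_neg]
          intro h5
          apply hvp
          apply hA1u F k hA ((h + 1) / h) v pi hv0 hpi
          · rw [← hq]; field_simp; linear_combination h5
          · rw [← hq]; field_simp; linear_combination hpieq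
      · have e5 : h * v ^ q / ((h + 1) * v) = (v / kap ^ 2) * ((v ^ r) * v⁻¹ * kap) ^ 3 := by
          have e6 : ((v ^ r) * v⁻¹ * kap) ^ 3 = v ^ (q + 1) * (v⁻¹) ^ 3 * kap ^ 3 := by
            rw [hcube]; ring
          rw [e6, hkap, pow_succ v q]
          field_simp
        rw [e5, hc_cube]
        exact mul_ne_zero (mul_ne_zero (pow_ne_zero _ hv0) (inv_ne_zero hv0)) hkap0
    rw [Finset.sum_congr rfl e1]
    have e3 : ∑ v ∈ univ.erase (0 : F), chi v * (if v = pi then N ^ 2 else 0) = N ^ 2 * chi pi := by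
      rw [Finset.sum_eq_single pi]
      · rw [if_pos rfl]; ring
      · intro b _ hb; rw [if_neg hb, mul_zero]
      · intro h6; exact absurd (mem_erase.2 ⟨hpi, mem_univ _⟩) h6
    have e4 : ∑ v ∈ univ.erase (0 : F), chi v * c3 (v / kap ^ 2) = C0 (kap ^ 2) - 1 := by
      have e7 := Finset.sum_erase_add (s := univ) (f := fun v : F => chi v * c3 (v / kap ^ 2))
        (a := 0) (mem_univ _)
      rw [C0_fib (kap ^ 2) (pow_ne_zero _ hkap0)] at e7
      simp only [zero_div, chi_zero, hc_zero, mul_one] at e7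
      linarith
    calc ∑ v ∈ univ.erase (0 : F), chi v * ((if v = pi then N ^ 2 else 0)
          + N * (1 - c3 (v / kap ^ 2)))
        = ∑ v ∈ univ.erase (0 : F), (chi v * (if v = pi then N ^ 2 else 0)
          + (N * chi v - N * (chi v * c3 (v / kap ^ 2)))) :=
          Finset.sum_congr rfl (fun v _ => by ring)
      _ = N ^ 2 * chi pi - N * C0 (kap ^ 2) := by
          rw [Finset.sum_add_distrib, Finset.sum_sub_distrib, ← Finset.mul_sum, ← Finset.mul_sum,
            e3, e4, sum_erase_chi]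
          ring
  -- conclusion
  have step5 : N * ∑ w ∈ univ.erase (0 : F), CC (a * w ^ (q + 1)) * chi w
      = chi (1 : F) * (N ^ 2 * chi pi - N * C0 (kap ^ 2)) := by
    rw [Finset.mul_sum, Finset.sum_congr rfl step2, ← Finset.mul_sum, Finset.sum_add_distrib,
      step4, ← Finset.mul_sum, step3]
    ring
  have step6 : ∑ w ∈ univ.erase (0 : F), CC (a * w ^ (q + 1)) * chi w
      = chi (1 : F) * (N * chi pi - C0 (kap ^ 2)) := by
    apply mul_left_cancel₀ (ne_of_gt hNpos)
    rw [step5]; ring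
  have hxk : C0 x = C0 kap := by
    have e1 : x = kap * (((h + 1) ^ r) ^ (2 : ℕ) * kap)⁻¹ ^ 3 := by
      have e2 : (((h + 1) ^ r) ^ (2 : ℕ) * kap) ^ 3 = ((h + 1) ^ (q + 1)) ^ 2 * kap ^ 3 := by
        rw [hcube]; ring
      rw [inv_pow, e2, hx, ha', hkap, pow_succ (h + 1) q]
      field_simp
    rw [e1, C0_mul_cube]
    exact inv_ne_zero (mul_ne_zero (pow_ne_zero _ (pow_ne_zero _ hh1')) hkap0)
  rw [step1, step6, hxk, C0_sq, chi_add]
  rcases chi_eq (1 : F) with h1 | h1
  · rw [h1]; ring
  · rw [C0_odd hA4 h1 kap hkap0]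
    ring

end

end Pool.Agent.R48.KT
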