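import Pool.Agent.R48.KT.A

/-!
# Kasami triple counts, piece D4: Kasami functions are APN (in the form needed)
-/

namespace Pool.Agent.R48.KT

/-- in a finite field whose order is `1` modulo `3`, an element of order dividing `(N-1)/3` is a
cube -/
theorem exists_cube {K : Type} [Field K] [Fintype K] (a : K) (ha : a ≠ 0) (m : ℕ)
    (hm : Fintype.card K - 1 = 3 * m) (h : a ^ m = 1) : ∃ t : K, t ^ 3 = a := by
  classical
  obtain ⟨g, hg⟩ := IsCyclic.exists_generator (α := Kˣ)
  obtain ⟨j, hj⟩ := Subgroup.mem_zpowers_iff.1 (hg (Units.mk0 a ha))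
  have hm0 : m ≠ 0 := by
    rintro rfl
    have := Fintype.one_lt_card (α := K)
    omega
  have hord : orderOf g = 3 * m := by
    rw [orderOf_eq_card_of_forall_mem_zpowers hg, Nat.card_eq_fintype_card, Fintype.card_units, hm]
  have h1 : g ^ (j * m) = 1 := by
    rw [zpow_mul, hj, zpow_natCast]
    ext
    simpa using h
  rw [← orderOf_dvd_iff_zpow_eq_one, hord] at h1
  have h2 : (3 : ℤ) ∣ j := by
    have : ((3 * m : ℕ) : ℤ) = 3 * m := by push_cast; ring
    rw [this] at h1
    exact Int.dvd_of_mul_dvd_mul_right (by exact_mod_cast hm0) h1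
  obtain ⟨i, hi⟩ := h2
  refine ⟨((g ^ i : Kˣ) : K), ?_⟩
  have : (g ^ i) ^ 3 = Units.mk0 a ha := by
    rw [← hj, hi, mul_comm 3 i, zpow_mul]
    norm_cast
  rw [← Units.val_pow_eq_pow_val, this]
  rfl

theorem core_D4 (h1 : StmD1) (h2 : StmD2) {K : Type} [Field K] [Fintype K] [CharP K 2] (k : ℕ)
    (hk : 1 ≤ k) (hA : HypA K k) (b b' be rho : K) (hb0 : b ≠ 0) (hb1 : b ≠ 1) (hb0' : b' ≠ 0)
    (hb1' : b' ≠ 1) (hbe : be ^ 2 = b) (hrho : rho ^ (2 ^ k + 1) * (be + 1) = be)
    (hf : fK k b = fK k b') : b' = b ∨ b' = b + 1 := by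
  obtain ⟨h, hh0, hh1, hh⟩ := h1 K k hk hA b be rho hb0 hb1 hbe hrho
  have hh1' : h + 1 ≠ 0 := by
    intro h'
    have h2 : (2 : K) = 0 := CharTwo.two_eq_zero
    exact hh1 (by linear_combination h' - h2)
  obtain ⟨z, hz0, hz⟩ := stmA1e K k hA ((h + 1) / h) (div_ne_zero hh1' hh0)
  have hz' : h * z ^ (2 ^ k) = (h + 1) * z := by
    rw [hz]; field_simp
  exact (h2 K k hk hA h z hh0 hh1 hz0 hz').2.2 b b' hb0 hb1 hb0' hb1' hh (by rw [← hf]; exact hh)

theorem fK_ne_zero (h0 : StmD0) {K : Type} [Field K] [CharP K 2] (k : ℕ)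
    (hk : 1 ≤ k) (hA : HypA K k) (b : K) (hb0 : b ≠ 0) (hb1 : b ≠ 1) : fK k b ≠ 0 := by
  intro hf
  have h2 : (2 : K) = 0 := CharTwo.two_eq_zero
  have h3 := h0 K k b hk hb0 hb1
  rw [hf, zero_mul] at h3
  have h4 : b ^ (2 ^ k) + b = 0 := by
    by_contra hne
    exact (pow_ne_zero _ hne) h3.symm
  rcases hA b (by linear_combination h4 - b * h2) with h5 | h5
  · exact hb0 h5
  · exact hb1 h5

theorem fK_zero {K : Type} [Field K] [CharP K 2] (k : ℕ) : fK k (0 : K) = 0 := by
  have h2 : (2 : K) = 0 := CharTwo.two_eq_zero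
  unfold fK
  rw [zero_pow (by omega), zero_add, zero_add, one_pow]
  linear_combination h2

theorem fK_one {K : Type} [Field K] [CharP K 2] (k : ℕ) : fK k (1 : K) = 0 := by
  have h2 : (2 : K) = 0 := CharTwo.two_eq_zero
  unfold fK
  have : (1 : K) + 1 = 0 := by linear_combination h2
  rw [this, zero_pow (by omega), one_pow]
  linear_combination h2

theorem D4_of : StmD0 → StmD1 → StmD2 → StmA1 → StmD4 := by
  intro h0 h1 h2 hA1 F _ _ _ n k hcard hcop hk hn b b' hf
  have hk1 : 1 ≤ k := hk.pos
  have h2' : (2 : F) = 0 := CharTwo.two_eq_zero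
  have hAF := hA1 F n k hcard hcop
  have key : ∀ c : F, fK k c = 0 ↔ c = 0 ∨ c = 1 := by
    intro c
    constructor
    · intro hc
      by_contra hne
      push Not at hne
      exact fK_ne_zero h0 k hk1 hAF c hne.1 hne.2 hc
    · rintro (rfl | rfl)
      · exact fK_zero k
      · exact fK_one k
  by_cases hb : b = 0 ∨ b = 1
  · have hb' : b' = 0 ∨ b' = 1 := by
      rw [← key, ← hf, key]; exact hb
    rcases hb with rfl | rfl <;> rcases hb' with rfl | rfl
    · left; rfl
    · right; ring
    · right; linear_combination - h2'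
    · left; rfl
  · have hb' : ¬ (b' = 0 ∨ b' = 1) := by
      rw [← key, ← hf, key]; exact hb
    push Not at hb hb'
    obtain ⟨be, hbe⟩ := exists_sqrt b
    have hbe0 : be ≠ 0 := by
      rintro rfl; apply hb.1; rw [← hbe]; ring
    have hbe1 : be + 1 ≠ 0 := by
      intro h
      apply hb.2
      have : be = 1 := by linear_combination h - h2'
      rw [← hbe, this]; ring
    obtain ⟨r, hr⟩ : ∃ r : ℕ, 3 * r = 2 ^ k + 1 := by
      obtain ⟨j, rfl⟩ := hk
      have h4 : 3 ∣ 2 ^ (2 * j + 1) + 1 := by
        have : 2 ^ (2 * j + 1) % 3 = 2 := by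
          rw [pow_add, pow_mul, Nat.mul_mod, Nat.pow_mod]
          norm_num
        omega
      obtain ⟨r, hr⟩ := h4
      exact ⟨r, hr.symm⟩
    rcases Nat.even_or_odd n with he | ho
    · have hk3 : ¬ 3 ∣ k := by
        rcases hn with h | h
        · exact absurd he (Nat.not_even_iff_odd.2 h)
        · exact h
      have : Fact (Nat.Prime 2) := ⟨Nat.prime_two⟩
      set K := FiniteField.Extension F 2 3 with hK
      have : Fintype K := Fintype.ofFinite K
      have : CharP K 2 := charP_of_injective_algebraMap (algebraMap F K).injective 2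
      have hcK : Fintype.card K = 2 ^ (3 * n) := by
        have h5 := FiniteField.natCard_extension F 2 3
        rw [Nat.card_eq_fintype_card, Nat.card_eq_fintype_card] at h5
        rw [h5, hcard, ← pow_mul, mul_comm]
      have hcop3 : Nat.Coprime k (3 * n) := by
        apply Nat.Coprime.mul_right _ hcop
        exact ((Nat.Prime.coprime_iff_not_dvd Nat.prime_three).2 hk3).symm
      have hAK := hA1 K (3 * n) k hcK hcop3
      have hbij := stmA3 K (3 * n) k r hcK hcop3 hk (Or.inr hk3) hr
      -- `be/(be+1)` is a cube in `K`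
      set c : K := algebraMap F K (be / (be + 1)) with hc
      have hc0 : c ≠ 0 := by
        rw [hc]
        intro h
        rw [map_eq_zero] at h
        exact (div_ne_zero hbe0 hbe1) h
      obtain ⟨s, hs⟩ : 3 ∣ 2 ^ n - 1 := by
        obtain ⟨j, hj⟩ := he
        have : 2 ^ n % 3 = 1 := by
          rw [hj, ← two_mul, pow_mul, Nat.pow_mod]
          norm_num
        have h1 : 1 ≤ 2 ^ n := Nat.one_le_two_pow
        omega
      have hN : 2 ^ n = 3 * s + 1 := by
        have h1 : 1 ≤ 2 ^ n := Nat.one_le_two_pow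
        omega
      have hcube : ∃ t : K, t ^ 3 = c := by
        apply exists_cube c hc0 ((2 ^ n - 1) * (9 * s ^ 2 + 9 * s + 3) / 3)
        · rw [hcK, pow_mul']
          have e1 : (2 ^ n - 1) * (9 * s ^ 2 + 9 * s + 3) / 3 = (3 * s) * (3 * s ^ 2 + 3 * s + 1) := by
            rw [hs]
            have : 3 * s * (9 * s ^ 2 + 9 * s + 3) = 3 * ((3 * s) * (3 * s ^ 2 + 3 * s + 1)) := by
              ring
            rw [this, Nat.mul_div_cancel_left _ (by norm_num)]
          rw [e1, hN]
          have : (3 * s + 1) ^ 3 = 3 * (3 * s * (3 * s ^ 2 + 3 * s + 1)) + 1 := by ring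
          rw [this]
          rfl
        · have e1 : (2 ^ n - 1) * (9 * s ^ 2 + 9 * s + 3) / 3 = (2 ^ n - 1) * (3 * s ^ 2 + 3 * s + 1) := by
            have : (2 ^ n - 1) * (9 * s ^ 2 + 9 * s + 3)
                = 3 * ((2 ^ n - 1) * (3 * s ^ 2 + 3 * s + 1)) := by ring
            rw [this, Nat.mul_div_cancel_left _ (by norm_num)]
          rw [e1, pow_mul, hc, ← map_pow, ← hcard,
            FiniteField.pow_card_sub_one_eq_one _ (div_ne_zero hbe0 hbe1), map_one, one_pow]
      obtain ⟨t, ht⟩ := hcube
      obtain ⟨rho, hrho⟩ := hbij.2 t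
      have hrho' : rho ^ r = t := hrho
      have hr2 : rho ^ (2 ^ k + 1) * (algebraMap F K be + 1) = algebraMap F K be := by
        rw [← hr, mul_comm 3 r, pow_mul, hrho', ht, hc, map_div₀, map_add, map_one]
        have : algebraMap F K be + 1 ≠ 0 := by
          rw [← map_one (algebraMap F K), ← map_add]
          intro h
          rw [map_eq_zero] at h
          exact hbe1 h
        exact div_mul_cancel₀ _ this
      have hfK : ∀ x : F, fK k (algebraMap F K x) = algebraMap F K (fK k x) := by
        intro x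
        unfold fK
        simp only [map_add, map_pow, map_one]
      have hinj := (algebraMap F K).injective
      have hmap0 : ∀ x : F, x ≠ 0 → algebraMap F K x ≠ 0 := fun x hx h => hx ((map_eq_zero _).1 h)
      have hmap1 : ∀ x : F, x ≠ 1 → algebraMap F K x ≠ 1 := fun x hx h =>
        hx (hinj (by rw [h, map_one]))
      have := core_D4 h1 h2 k hk1 hAK (algebraMap F K b) (algebraMap F K b') (algebraMap F K be) rho
        (hmap0 _ hb.1) (hmap1 _ hb.2) (hmap0 _ hb'.1) (hmap1 _ hb'.2)
        (by rw [← map_pow, hbe]) hr2 (by rw [hfK, hfK, hf])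
      rcases this with h | h
      · left; exact hinj h
      · right
        apply hinj
        rw [h, map_add, map_one]
    · -- `n` odd: every element is a cube
      have hbij := stmA3 F n k r hcard hcop hk (Or.inl ho) hr
      have hcube : ∃ t : F, t ^ 3 = be / (be + 1) := by
        have h3 := stmA3 F n 1 1 hcard (Nat.coprime_one_left n) odd_one (Or.inl ho) (by norm_num)
        have hchi : Function.Bijective (fun y : F => y ^ 3) := by
          apply Finite.injective_iff_bijective.1
          intro y z hyz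
          have hyz' : y ^ 3 = z ^ 3 := hyz
          by_cases hz : z = 0
          · rw [hz, zero_pow (by norm_num)] at hyz'
            rw [hz]; exact (pow_eq_zero_iff (by norm_num)).1 hyz'
          · have g1 : (y / z) ^ 3 = 1 := by
              rw [div_pow, hyz', div_self (pow_ne_zero _ hz)]
            have hne : y / z ≠ 0 := by
              intro h; rw [h, zero_pow (by norm_num)] at g1; exact zero_ne_one g1
            have g2 : (y / z) ^ (2 ^ n - 1) = 1 := by
              rw [← hcard]; exact FiniteField.pow_card_sub_one_eq_one _ hne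
            have g3 : orderOf (y / z) ∣ Nat.gcd 3 (2 ^ n - 1) :=
              Nat.dvd_gcd (orderOf_dvd_of_pow_eq_one g1) (orderOf_dvd_of_pow_eq_one g2)
            have hg : Nat.gcd 3 (2 ^ n - 1) = 1 := by
              apply (Nat.Prime.coprime_iff_not_dvd Nat.prime_three).2
              obtain ⟨j, hj⟩ := ho
              have : 2 ^ n % 3 = 2 := by
                rw [hj, pow_add, pow_mul, Nat.mul_mod, Nat.pow_mod]
                norm_num
              omega
            rw [hg] at g3
            have g4 : orderOf (y / z) = 1 := by simpa using g3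
            exact (div_eq_one_iff_eq hz).1 (orderOf_eq_one_iff.1 g4)
        exact hchi.2 _
      obtain ⟨t, ht⟩ := hcube
      obtain ⟨rho, hrho⟩ := hbij.2 t
      have hrho' : rho ^ r = t := hrho
      have hr2 : rho ^ (2 ^ k + 1) * (be + 1) = be := by
        rw [← hr, mul_comm 3 r, pow_mul, hrho', ht]
        field_simp
      exact core_D4 h1 h2 k hk1 hAF b b' be rho hb.1 hb.2 hb'.1 hb'.2 hbe hr2 hf

end Pool.Agent.R48.KT
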