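import Pool.Agent.R48.KT.A

namespace Pool.Agent.R48.KT

open Finset
open scoped Classical

set_option linter.unusedSectionVars false

noncomputable section

theorem rest_lemma {F : Type} [Field F] [Fintype F] (E : F → ℤ) (T : Finset F) (N eps : ℤ)
    (hN : N = Fintype.card F) (heps : eps * eps = 1) (hT : 2 * (T.card : ℤ) = N)
    (hE : ∀ x ∈ T, E x = eps * N) (h1 : ∑ x : F, E x = 0) (h2 : ∑ x : F, E x ^ 2 = N ^ 3) :
    ∀ x, x ∉ T → E x = - eps * N := by
  have hc : 2 * ((Tᶜ).card : ℤ) = N := by
    have := Finset.card_add_card_compl T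
    have h3 : (T.card : ℤ) + (Tᶜ).card = N := by rw [hN]; exact_mod_cast this
    linarith
  have s1 : ∑ x ∈ T, E x = T.card * (eps * N) := by
    rw [Finset.sum_congr rfl hE, Finset.sum_const, nsmul_eq_mul]
  have s2 : ∑ x ∈ T, E x ^ 2 = T.card * N ^ 2 := by
    rw [Finset.sum_congr rfl (fun x hx => by rw [hE x hx]), Finset.sum_const, nsmul_eq_mul]
    linear_combination (T.card : ℤ) * N ^ 2 * heps
  have t1 := Finset.sum_add_sum_compl T E
  have t2 := Finset.sum_add_sum_compl T (fun x => E x ^ 2)
  rw [s1, h1] at t1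
  rw [s2, h2] at t2
  have hzero : ∑ x ∈ Tᶜ, (E x + eps * N) ^ 2 = 0 := by
    have e1 : ∑ x ∈ Tᶜ, (E x + eps * N) ^ 2
        = ∑ x ∈ Tᶜ, E x ^ 2 + 2 * eps * N * ∑ x ∈ Tᶜ, E x + (Tᶜ).card * (eps * N) ^ 2 := by
      rw [Finset.mul_sum, ← nsmul_eq_mul, ← Finset.sum_const, ← Finset.sum_add_distrib,
        ← Finset.sum_add_distrib]
      apply Finset.sum_congr rfl
      intro x _; ring
    rw [e1]
    have hx1 : ∑ x ∈ Tᶜ, E x = - (T.card * (eps * N)) := by linarith
    have hx2 : ∑ x ∈ Tᶜ, E x ^ 2 = N ^ 3 - T.card * N ^ 2 := by linarith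
    rw [hx1, hx2]
    have hmain : 2 * (N ^ 3 - T.card * N ^ 2 + 2 * eps * N * (- (T.card * (eps * N)))
        + (Tᶜ).card * (eps * N) ^ 2) = 0 := by
      linear_combination (-3 * N ^ 2) * hT + N ^ 2 * hc + (-4 * (T.card : ℤ) * N ^ 2
        + 2 * ((Tᶜ).card : ℤ) * N ^ 2) * heps
    linarith
  intro x hx
  have h4 := (Finset.sum_eq_zero_iff_of_nonneg (fun i _ => sq_nonneg (E i + eps * N))).1 hzero x
    (Finset.mem_compl.2 hx)
  have h5 : E x + eps * N = 0 := by
    exact pow_eq_zero_iff (two_ne_zero) |>.1 h4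
  linarith

theorem fK_add_one {F : Type} [Field F] [CharP F 2] (k : ℕ) (b : F) : fK k (b + 1) = fK k b := by
  unfold fK
  have h : b + 1 + 1 = b := by rw [add_assoc, CharTwo.add_self_eq_zero, add_zero]
  rw [h]
  ring

theorem card_Delta (hD4 : StmD4) (F : Type) [Field F] [Fintype F] [CharP F 2] (n k : ℕ)
    (hcard : Fintype.card F = 2 ^ n) (hcop : Nat.Coprime k n) (hodd : Odd k)
    (hn : Odd n ∨ ¬ 3 ∣ k) : 2 * (DeltaK F k).card = Fintype.card F := by
  have h := Finset.card_eq_sum_card_image (fK k) (univ : Finset F)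
  rw [Finset.card_univ] at h
  rw [h]
  have h2 : ∀ x ∈ (univ : Finset F).image (fK k),
      ((univ : Finset F).filter (fun a => fK k a = x)).card = 2 := by
    intro x hx
    obtain ⟨b, _, rfl⟩ := Finset.mem_image.1 hx
    have : (univ : Finset F).filter (fun a => fK k a = fK k b) = {b, b + 1} := by
      ext a
      simp only [mem_filter, mem_univ, true_and, mem_insert, mem_singleton]
      constructor
      · intro ha
        exact hD4 F n k hcard hcop hodd hn b a ha.symm
      · rintro (h | h)
        · rw [h]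
        · rw [h]; exact fK_add_one k b
    rw [this, Finset.card_pair]
    intro h5
    have : (1 : F) = 0 := by linear_combination -h5
    exact one_ne_zero this
  rw [Finset.sum_congr rfl h2, Finset.sum_const, smul_eq_mul]
  unfold DeltaK
  ring

theorem card_neg (F : Type) [Field F] [Fintype F] [CharP F 2] :
    2 * ((univ.filter fun x : F => chi x = -1).card : ℤ) = Fintype.card F := by
  have h1 : ∑ x : F, (1 - chi x) = Fintype.card F := by
    rw [Finset.sum_sub_distrib, sum_chi]
    simp
  rw [← h1, Finset.card_filter]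
  push_cast
  rw [Finset.mul_sum]
  apply Finset.sum_congr rfl
  intro x _
  rcases chi_eq x with h | h <;> rw [h] <;> norm_num

theorem stmD (hA1 : StmA1) (hA1u : StmA1u) (hA3 : StmA3) (hC : StmC) (hD2 : StmD2)
    (hD3 : StmD3) (hD4 : StmD4) (hD5 : StmD5) : StmD := by
  intro F _ _ _ n k r hcard hcop hodd hn hr
  have h22 : (2 : F) = 0 := CharTwo.two_eq_zero
  have hA := hA1 F n k hcard hcop
  have hbij := hA3 F n k r hcard hcop hodd hn hr
  have hk1 : 1 ≤ k := by obtain ⟨j, hj⟩ := hodd; omega
  have hr1 : 1 ≤ r := by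
    have := Nat.one_le_two_pow (n := k); omega
  obtain ⟨hE1, hE2, hE0⟩ := hD5 F r hr1 hbij
  have hDcard := card_Delta hD4 F n k hcard hcop hodd hn
  refine ⟨?_, hDcard⟩
  set N : ℤ := (Fintype.card F : ℤ) with hN
  set H : F → F := fun pi => pi / (pi ^ (2 ^ k) + pi) with hH
  set X : F → F := fun pi => (((H pi) ^ (2 ^ k + 1) + H pi) ^ 2)⁻¹ with hX
  -- basic facts on H
  have hden : ∀ pi : F, pi ≠ 0 → pi ≠ 1 → pi ^ (2 ^ k) + pi ≠ 0 := by
    intro pi h0 h1 h
    rcases hA pi (CharTwo.add_eq_zero.1 h) with h2 | h2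
    · exact h0 h2
    · exact h1 h2
  have hH0 : ∀ pi : F, pi ≠ 0 → pi ≠ 1 → H pi ≠ 0 := fun pi h0 h1 =>
    div_ne_zero h0 (hden pi h0 h1)
  have hHeq : ∀ pi : F, pi ≠ 0 → pi ≠ 1 → H pi * pi ^ (2 ^ k) = (H pi + 1) * pi := by
    intro pi h0 h1
    have hd := hden pi h0 h1
    simp only [hH]
    field_simp
    linear_combination (-pi) * h22
  have hH1 : ∀ pi : F, pi ≠ 0 → pi ≠ 1 → H pi ≠ 1 := by
    intro pi h0 h1 h
    have h3 := hHeq pi h0 h1
    rw [h, one_mul] at h3
    have h4 : pi ^ (2 ^ k) = 0 := by rw [h3]; linear_combination pi * h22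
    exact h0 (pow_eq_zero_iff (by positivity) |>.1 h4)
  have hHinj : ∀ pi pi' : F, pi ≠ 0 → pi ≠ 1 → pi' ≠ 0 → pi' ≠ 1 → H pi = H pi' → pi = pi' := by
    intro pi pi' h0 h1 h0' h1' heq
    apply hA1u F k hA ((H pi + 1) / H pi) pi pi' h0 h0'
    · have := hHeq pi h0 h1
      have hh := hH0 pi h0 h1
      field_simp
      linear_combination this
    · have := hHeq pi' h0' h1'
      have hh := hH0 pi h0 h1
      rw [← heq] at this
      field_simp
      linear_combination this
  -- a(h) nonzero
  have ha0 : ∀ pi : F, pi ≠ 0 → pi ≠ 1 → (H pi) ^ (2 ^ k + 1) + H pi ≠ 0 := by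
    intro pi h0 h1 h
    have hh0 := hH0 pi h0 h1
    have hh1 := hH1 pi h0 h1
    have h3 : H pi * (H pi + 1) ^ (2 ^ k) = 0 := by
      rw [add_pow_char_pow, one_pow, ← h]; ring
    rcases mul_eq_zero.1 h3 with h4 | h4
    · exact hh0 h4
    · have h5 := pow_eq_zero_iff (by positivity) |>.1 h4
      apply hh1; linear_combination h5 - h22
  -- the set S
  set S : Finset F := univ.filter (fun pi : F => pi ≠ 1 ∧ chi pi = -1) with hS
  have hSmem : ∀ pi ∈ S, pi ≠ 0 ∧ pi ≠ 1 ∧ chi pi = -1 := by
    intro pi hpi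
    simp only [hS, mem_filter, mem_univ, true_and] at hpi
    refine ⟨?_, hpi.1, hpi.2⟩
    rintro rfl
    rw [chi_zero] at hpi
    norm_num at hpi
  have hXinj : Set.InjOn X (S : Set F) := by
    intro p hp p' hp' heq
    obtain ⟨h0, h1, hc⟩ := hSmem p hp
    obtain ⟨h0', h1', hc'⟩ := hSmem p' hp'
    by_contra hne
    have hHne : H p ≠ H p' := fun h => hne (hHinj p p' h0 h1 h0' h1' h)
    have hae : (H p) ^ (2 ^ k + 1) + H p = (H p') ^ (2 ^ k + 1) + H p' := by
      apply sq_inj
      exact inv_injective heq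
    have := hD3 F k hA (H p) (H p') p (hH0 p h0 h1) (hH1 p h0 h1) (hH0 p' h0' h1')
      (hH1 p' h0' h1') hHne hae h0 (hHeq p h0 h1)
    rw [hc] at this
    norm_num at this
  have hXcard : (S.image X).card = S.card := Finset.card_image_of_injOn hXinj
  have hEX : ∀ p ∈ S, EE r (X p) = chi (1 : F) * (-1) * N := by
    intro p hp
    obtain ⟨h0, h1, hc⟩ := hSmem p hp
    have := hC F k r hA hodd hr (H p) p (hH0 p h0 h1) (hH1 p h0 h1) h0 (hHeq p h0 h1)
    simp only [hX]
    rw [this, chi_add, hc]
  -- membership in Delta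
  have hXD : ∀ p ∈ S, (X p ∈ DeltaK F k ↔ chi (1 : F) = -1) := by
    intro p hp
    obtain ⟨h0, h1, hc⟩ := hSmem p hp
    have hd2 := hD2 F k hk1 hA (H p) p (hH0 p h0 h1) (hH1 p h0 h1) h0 (hHeq p h0 h1)
    have hane := pow_ne_zero 2 (ha0 p h0 h1)
    have hchi : chi (1 + p) = 1 ↔ chi (1 : F) = -1 := by
      rw [chi_add, hc]
      constructor
      · intro h; linarith
      · intro h; rw [h]; norm_num
    rw [← hchi]
    constructor
    · intro hx
      obtain ⟨b, _, hb⟩ := Finset.mem_image.1 hx
      have hb2 : fK k b * ((H p) ^ (2 ^ k + 1) + H p) ^ 2 = 1 := by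
        rw [hb]; simp only [hX]; exact inv_mul_cancel₀ hane
      have hf0 : fK k b ≠ 0 := by
        intro h; rw [h, zero_mul] at hb2; exact zero_ne_one hb2
      have hbz : fK k (0 : F) = 0 := by
        unfold fK
        rw [zero_pow (by omega), zero_add, zero_add, one_pow]
        linear_combination h22
      have hb0 : b ≠ 0 := by
        rintro rfl; exact hf0 hbz
      have hb1 : b ≠ 1 := by
        rintro rfl
        apply hf0
        have := fK_add_one k (0 : F)
        rw [zero_add] at this
        rw [this, hbz]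
      exact hd2.2.1 b hb0 hb1 hb2
    · intro hch
      obtain ⟨b, _, _, hb⟩ := hd2.1 hch
      refine Finset.mem_image.2 ⟨b, mem_univ _, ?_⟩
      simp only [hX]
      exact eq_inv_of_mul_eq_one_left hb
  have hneg := card_neg F
  rcases chi_eq (1 : F) with hc1 | hc1
  · -- n even
    have hSeq : S = univ.filter (fun x : F => chi x = -1) := by
      ext x
      simp only [hS, mem_filter, mem_univ, true_and, and_iff_right_iff_imp]
      rintro h rfl
      rw [hc1] at h
      norm_num at h
    have hTc : 2 * ((S.image X).card : ℤ) = N := by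
      rw [hXcard, hSeq]; exact hneg
    have hrest := rest_lemma (fun x => EE r x) (S.image X) N (-1) hN (by norm_num) hTc
      (by
        intro x hx
        obtain ⟨p, hp, rfl⟩ := Finset.mem_image.1 hx
        have := hEX p hp
        rw [hc1] at this
        simpa using this) hE1 hE2
    have hdisj : Disjoint (S.image X) (DeltaK F k) := by
      rw [Finset.disjoint_left]
      intro x hx hx'
      obtain ⟨p, hp, rfl⟩ := Finset.mem_image.1 hx
      have := (hXD p hp).1 hx'
      rw [hc1] at this
      norm_num at this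
    have hDc : DeltaK F k = (S.image X)ᶜ := by
      apply Finset.eq_of_subset_of_card_le
      · intro x hx
        rw [Finset.mem_compl]
        intro hx'
        exact Finset.disjoint_left.1 hdisj hx' hx
      · have h7 := Finset.card_add_card_compl (S.image X)
        have h8 : 2 * (S.image X).card = Fintype.card F := by
          rw [hN] at hTc; exact_mod_cast hTc
        omega
    intro x
    by_cases hx : x ∈ DeltaK F k
    · rw [if_pos hx]
      have hx' : x ∉ S.image X := by
        rw [hDc, Finset.mem_compl] at hx; exact hx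
      have := hrest x hx'
      rw [this]; ring
    · rw [if_neg hx]
      have hx' : x ∈ S.image X := by
        rw [hDc, Finset.mem_compl, not_not] at hx; exact hx
      obtain ⟨p, hp, rfl⟩ := Finset.mem_image.1 hx'
      rw [hEX p hp, hc1]; ring
  · -- n odd
    have hScard : (S.card : ℤ) + 1 = (univ.filter (fun x : F => chi x = -1)).card := by
      have h7 : univ.filter (fun x : F => chi x = -1) = insert 1 S := by
        ext x
        simp only [hS, mem_filter, mem_univ, true_and, mem_insert]
        constructor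
        · intro h
          by_cases hx : x = 1
          · exact Or.inl hx
          · exact Or.inr ⟨hx, h⟩
        · rintro (h | h)
          · rw [h, hc1]
          · exact h.2
      rw [h7, Finset.card_insert_of_notMem]
      · push_cast; ring
      · simp [hS]
    have h0X : (0 : F) ∉ S.image X := by
      intro h
      obtain ⟨p, hp, h8⟩ := Finset.mem_image.1 h
      obtain ⟨h0, h1, _⟩ := hSmem p hp
      simp only [hX] at h8
      exact inv_ne_zero (pow_ne_zero 2 (ha0 p h0 h1)) h8
    set T : Finset F := insert 0 (S.image X) with hT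
    have hTc : 2 * (T.card : ℤ) = N := by
      rw [hT, Finset.card_insert_of_notMem h0X, hXcard]
      push_cast
      rw [hScard]; exact hneg
    have hET : ∀ x ∈ T, EE r x = 1 * N := by
      intro x hx
      rcases Finset.mem_insert.1 hx with h | h
      · rw [h, hE0, one_mul]
      · obtain ⟨p, hp, rfl⟩ := Finset.mem_image.1 h
        rw [hEX p hp, hc1]; ring
    have hrest := rest_lemma (fun x => EE r x) T N 1 hN (by norm_num) hTc hET hE1 hE2
    have hTsub : T ⊆ DeltaK F k := by
      intro x hx
      rcases Finset.mem_insert.1 hx with h | h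
      · rw [h]
        refine Finset.mem_image.2 ⟨0, mem_univ _, ?_⟩
        unfold fK
        rw [zero_pow (by omega), zero_add, zero_add, one_pow]
        linear_combination h22
      · obtain ⟨p, hp, rfl⟩ := Finset.mem_image.1 h
        exact (hXD p hp).2 hc1
    have hTD : T = DeltaK F k := by
      apply Finset.eq_of_subset_of_card_le hTsub
      have h8 : 2 * T.card = Fintype.card F := by
        rw [hN] at hTc; exact_mod_cast hTc
      omega
    intro x
    by_cases hx : x ∈ DeltaK F k
    · rw [if_pos hx]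
      rw [← hTD] at hx
      rw [hET x hx]; ring
    · rw [if_neg hx]
      rw [← hTD] at hx
      have := hrest x hx
      rw [this]; ring

end

end Pool.Agent.R48.KT
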