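import Mathlib

/-!
# Kasami triple counts: definitions and basic facts on the quadratic additive character
-/

namespace Pool.Agent.R48.KT

open Finset
open scoped Classical

universe u

set_option linter.unusedSectionVars false

noncomputable section

/-- The additive character of order two of a finite field of characteristic two
(`1` on the image of `y ↦ y ^ 2 + y`, that is on the elements of trace `0`, and `-1` elsewhere). -/
def chi {F : Type u} [Field F] (x : F) : ℤ := if ∃ y : F, y ^ 2 + y = x then 1 else -1

variable {F : Type u} [Field F] [Fintype F]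

/-- `C(w) = ∑ χ(w (t³ + t))`. -/
def CC (w : F) : ℤ := ∑ t : F, chi (w * (t ^ 3 + t))

/-- `C₀(w) = ∑ χ(w t³)`. -/
def C0 (w : F) : ℤ := ∑ t : F, chi (w * t ^ 3)

/-- the number of cube roots -/
def c3 (m : F) : ℤ := ((univ.filter fun t : F => t ^ 3 = m).card : ℤ)

/-- `E(x) = ∑_{c,y} χ(x c³ + c y^r + y)`. -/
def EE (r : ℕ) (x : F) : ℤ := ∑ c : F, ∑ y : F, chi (x * c ^ 3 + c * y ^ r + y)

/-- The Kasami power sum `b^d + (b+1)^d + 1`, `d = 4^k - 2^k + 1`. -/
def fK (k : ℕ) (b : F) : F :=
  b ^ (4 ^ k - 2 ^ k + 1) + (b + 1) ^ (4 ^ k - 2 ^ k + 1) + 1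

/-- The set `Δ`. -/
def DeltaK (F : Type u) [Field F] [Fintype F] (k : ℕ) : Finset F := univ.image (fK k)

/-! ## basic facts -/

section basic

variable [CharP F 2]

theorem two_eq : (2 : F) = 0 := by
  have := CharP.cast_eq_zero F 2
  exact_mod_cast this

theorem add_self' (x : F) : x + x = 0 := CharTwo.add_self_eq_zero x

theorem chi_zero : chi (0 : F) = 1 := by
  unfold chi
  rw [if_pos]
  exact ⟨0, by ring⟩

theorem chi_eq (x : F) : chi x = 1 ∨ chi x = -1 := by
  unfold chi
  split_ifs <;> simp

theorem chi_mul_self (x : F) : chi x * chi x = 1 := by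
  rcases chi_eq x with h | h <;> rw [h] <;> norm_num

theorem chi_eq_one_iff (x : F) : chi x = 1 ↔ ∃ y : F, y ^ 2 + y = x := by
  unfold chi
  split_ifs with h
  · simp [h]
  · simp [h]

theorem chi_ne_one_iff (x : F) : chi x = -1 ↔ ¬ ∃ y : F, y ^ 2 + y = x := by
  unfold chi
  split_ifs with h
  · simp [h]
  · simp [h]

/-- the additive map `y ↦ y² + y` -/
def wp (F : Type u) [Field F] [CharP F 2] : F →+ F where
  toFun y := y ^ 2 + y
  map_zero' := by ring
  map_add' x y := by
    have h2 : (2 : F) = 0 := CharTwo.two_eq_zero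
    linear_combination (x * y) * h2

theorem wp_apply (y : F) : wp F y = y ^ 2 + y := rfl

theorem wp_eq_zero_iff (y : F) : wp F y = 0 ↔ y = 0 ∨ y = 1 := by
  rw [wp_apply]
  constructor
  · intro h
    have : y * (y + 1) = 0 := by linear_combination h
    rcases mul_eq_zero.mp this with h | h
    · exact Or.inl h
    · right
      have h2 : (2 : F) = 0 := CharTwo.two_eq_zero
      linear_combination h - h2
  · rintro (h | h)
    · rw [h]; ring
    · rw [h]
      have h2 : (2 : F) = 0 := CharTwo.two_eq_zero
      linear_combination h2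

theorem card_ker_wp : Nat.card (wp F).ker = 2 := by
  have : ((wp F).ker : Set F) = {0, 1} := by
    ext y
    simp only [SetLike.mem_coe, AddMonoidHom.mem_ker, Set.mem_insert_iff, Set.mem_singleton_iff]
    exact wp_eq_zero_iff y
  have h1 : Nat.card (wp F).ker = Set.ncard ((wp F).ker : Set F) := rfl
  rw [h1, this, Set.ncard_pair zero_ne_one]

theorem index_range_wp : (wp F).range.index = 2 := by
  have h1 := AddSubgroup.index_mul_card (wp F).range
  have h2 := AddSubgroup.index_mul_card (wp F).ker
  have h3 : (wp F).ker.index = Nat.card (wp F).range := AddSubgroup.index_ker _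
  rw [card_ker_wp] at h2
  rw [h3] at h2
  have hpos : 0 < Nat.card (wp F).range := Nat.card_pos
  have : (wp F).range.index * Nat.card (wp F).range = 2 * Nat.card (wp F).range := by
    rw [h1, ← h2]; ring
  exact Nat.eq_of_mul_eq_mul_right hpos this

theorem chi_eq_one_iff' (x : F) : chi x = 1 ↔ x ∈ (wp F).range := by
  rw [chi_eq_one_iff]
  rfl

theorem chi_add (x y : F) : chi (x + y) = chi x * chi y := by
  have key := AddSubgroup.add_mem_iff_of_index_two (H := (wp F).range) index_range_wp
    (a := x) (b := y)
  rw [← chi_eq_one_iff', ← chi_eq_one_iff', ← chi_eq_one_iff'] at key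
  rcases chi_eq x with hx | hx <;> rcases chi_eq y with hy | hy <;>
    rcases chi_eq (x + y) with hxy | hxy <;> rw [hx, hy, hxy] at key <;> rw [hx, hy, hxy] <;>
    first
      | rfl
      | (exfalso; revert key; decide)

theorem chi_sq (x : F) : chi (x ^ 2) = chi x := by
  have h : x ^ 2 = x + (x ^ 2 + x) := by
    have h2 : (2 : F) = 0 := CharTwo.two_eq_zero
    linear_combination (-x) * h2
  rw [h, chi_add]
  have : chi (x ^ 2 + x) = 1 := (chi_eq_one_iff _).2 ⟨x, rfl⟩
  rw [this, mul_one]

theorem chi_pow_two_pow (x : F) (j : ℕ) : chi (x ^ 2 ^ j) = chi x := by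
  induction j with
  | zero => simp
  | succ j ih => rw [pow_succ, pow_mul, chi_sq, ih]

theorem chi_wp (x : F) : chi (x ^ 2 + x) = 1 := (chi_eq_one_iff _).2 ⟨x, rfl⟩

theorem exists_chi_neg : ∃ x : F, chi x = -1 := by
  by_contra h
  push Not at h
  have hall : ∀ x : F, x ∈ (wp F).range := by
    intro x
    rw [← chi_eq_one_iff']
    rcases chi_eq x with hx | hx
    · exact hx
    · exact absurd hx (h x)
  have : (wp F).range = ⊤ := by
    ext x; simp [hall x]
  have h2 := index_range_wp (F := F)
  rw [this] at h2
  simp at h2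

theorem sum_chi : ∑ x : F, chi x = 0 := by
  obtain ⟨a, ha⟩ := exists_chi_neg (F := F)
  have h1 : ∑ x : F, chi (x + a) = ∑ x : F, chi x :=
    Fintype.sum_equiv (Equiv.addRight a) _ _ (fun x => rfl)
  have h2 : ∑ x : F, chi (x + a) = - ∑ x : F, chi x := by
    rw [← Finset.sum_neg_distrib]
    apply Finset.sum_congr rfl
    intro x _
    rw [chi_add, ha]; ring
  linarith

theorem sum_chi_mul (a : F) : ∑ x : F, chi (a * x) = if a = 0 then (Fintype.card F : ℤ) else 0 := by
  split_ifs with h
  · subst h
    simp [chi_zero]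
  · rw [← sum_chi (F := F)]
    exact Fintype.sum_equiv (Equiv.mulLeft₀ a h) _ _ (fun x => rfl)

theorem sum_chi_mul' (a : F) (ha : a ≠ 0) : ∑ x : F, chi (a * x) = 0 := by
  rw [sum_chi_mul, if_neg ha]

/-- the number of solutions of `X² + X = c` -/
theorem card_wp (c : F) : ((univ.filter fun X : F => X ^ 2 + X = c).card : ℤ) = 1 + chi c := by
  rcases chi_eq c with h | h
  · rw [h]
    obtain ⟨y, hy⟩ := (chi_eq_one_iff c).1 h
    have : (univ.filter fun X : F => X ^ 2 + X = c) = {y, y + 1} := by
      ext X
      simp only [mem_filter, mem_univ, true_and, mem_insert, mem_singleton]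
      have h2 : (2 : F) = 0 := CharTwo.two_eq_zero
      constructor
      · intro hX
        have h3 : wp F (X + y) = 0 := by
          rw [wp_apply]
          linear_combination hX - hy + (X * y + c + y^2 + y - c) * h2
        rcases (wp_eq_zero_iff _).1 h3 with h4 | h4
        · left; linear_combination h4 - y * h2
        · right; linear_combination h4 - y * h2
      · rintro (h4 | h4)
        · rw [h4, hy]
        · rw [h4]
          linear_combination hy + (y + 1) * h2
    rw [this, Finset.card_pair]
    · norm_num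
    · intro h5
      have : (1 : F) = 0 := by linear_combination -h5
      exact one_ne_zero this
  · rw [h]
    have h3 := (chi_ne_one_iff c).1 h
    have : (univ.filter fun X : F => X ^ 2 + X = c) = ∅ := by
      rw [Finset.filter_eq_empty_iff]
      intro X _ hX
      exact h3 ⟨X, hX⟩
    rw [this]; simp

/-- the number of solutions of `A X² + B X + C = 0`, `A, B ≠ 0` -/
theorem card_quad (A B C : F) (hA : A ≠ 0) (hB : B ≠ 0) :
    ((univ.filter fun X : F => A * X ^ 2 + B * X + C = 0).card : ℤ) = 1 + chi (A * C / B ^ 2) := by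
  rw [← card_wp]
  congr 1
  have hBA : B / A ≠ 0 := div_ne_zero hB hA
  apply Finset.card_bij' (fun X _ => X / (B / A)) (fun X _ => X * (B / A))
  · intro X hX
    simp only [mem_filter, mem_univ, true_and] at hX ⊢
    have h2 : (2 : F) = 0 := CharTwo.two_eq_zero
    field_simp
    linear_combination hX - C * h2
  · intro X hX
    simp only [mem_filter, mem_univ, true_and] at hX ⊢
    have h2 : (2 : F) = 0 := CharTwo.two_eq_zero
    field_simp at hX ⊢
    linear_combination hX + A * C * h2
  · intro X _
    field_simp
  · intro X _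
    field_simp

end basic

end

end Pool.Agent.R48.KT
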