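import Pool.Agent.R48.KT.Stm

/-!
# Kasami triple counts, pieces E1 and E2: the curve `Y² + Y = X³` in characteristic two
-/

namespace Pool.Agent.R48.KT

open WeierstrassCurve

variable {K : Type} [Field K] [CharP K 2]

omit [CharP K 2] in
lemma EC_a : (EC K).a₁ = 0 ∧ (EC K).a₂ = 0 ∧ (EC K).a₃ = 1 ∧ (EC K).a₄ = 0 ∧ (EC K).a₆ = 0 :=
  ⟨rfl, rfl, rfl, rfl, rfl⟩

lemma negY_EC (x y : K) : (EC K).negY x y = y + 1 := by
  have h2 : (2 : K) = 0 := CharTwo.two_eq_zero
  simp only [Affine.negY, EC]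
  linear_combination (-y - 1) * h2

lemma ns_iff (x y : K) : (EC K).Nonsingular x y ↔ y ^ 2 + y = x ^ 3 := by
  have h2 : (2 : K) = 0 := CharTwo.two_eq_zero
  rw [Affine.nonsingular_iff, Affine.equation_iff]
  simp only [EC]
  constructor
  · rintro ⟨h, -⟩
    linear_combination h
  · intro h
    refine ⟨by linear_combination h, Or.inr ?_⟩
    intro h'
    have : (1 : K) = 0 := by linear_combination (-y) * h2 + h'
    exact one_ne_zero this

lemma slope_EC_ne [DecidableEq K] {x1 x2 : K} (y1 y2 : K) (h : x1 ≠ x2) :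
    (EC K).slope x1 x2 y1 y2 = (y1 + y2) / (x1 + x2) := by
  have h2 : (2 : K) = 0 := CharTwo.two_eq_zero
  rw [Affine.slope_of_X_ne h]
  congr 1
  · linear_combination (-y2) * h2
  · linear_combination (-x2) * h2

lemma slope_EC_self [DecidableEq K] (x y : K) : (EC K).slope x x y y = x ^ 2 := by
  have h2 : (2 : K) = 0 := CharTwo.two_eq_zero
  have hy : y ≠ (EC K).negY x y := by
    rw [negY_EC]
    intro h
    have : (1 : K) = 0 := by linear_combination -h
    exact one_ne_zero this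
  rw [Affine.slope_of_Y_ne rfl hy, negY_EC]
  simp only [EC]
  have : y - (y + 1) = 1 := by linear_combination -h2
  rw [this]
  linear_combination x ^ 2 * h2

lemma Y_eq {x1 y1 y2 : K} (h1 : y1 ^ 2 + y1 = x1 ^ 3) (h2' : y2 ^ 2 + y2 = x1 ^ 3)
    (h : y1 ≠ y2 + 1) : y1 = y2 := by
  have h2 : (2 : K) = 0 := CharTwo.two_eq_zero
  have : (y1 - y2) * (y1 - (y2 + 1)) = 0 := by
    linear_combination h1 - h2' + (y2 ^ 2 - y1 * y2 - y1 + y2) * h2
  rcases mul_eq_zero.1 this with h3 | h3
  · exact sub_eq_zero.1 h3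
  · exact absurd (sub_eq_zero.1 h3) h

/-- the sum of two points which are not opposite -/
lemma add_data [DecidableEq K] {x1 y1 x2 y2 : K} (h1 : (EC K).Nonsingular x1 y1)
    (h2' : (EC K).Nonsingular x2 y2) (hne : ¬ (x1 = x2 ∧ y1 = y2 + 1)) :
    ∃ (l x3 y3 : K) (h3 : (EC K).Nonsingular x3 (y3 + 1)),
      Affine.Point.some x1 y1 h1 + Affine.Point.some x2 y2 h2' = Affine.Point.some x3 (y3 + 1) h3 ∧
      x1 + x2 + x3 = l ^ 2 ∧ x1 * x2 + x1 * x3 + x2 * x3 = l ∧ y2 = y1 + l * (x1 + x2) ∧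
      y3 = y1 + l * (x1 + x3) ∧ (x1 ≠ x2 → l = (y1 + y2) / (x1 + x2)) ∧
      (x1 = x2 → l = x1 ^ 2) := by
  have h2 : (2 : K) = 0 := CharTwo.two_eq_zero
  have e1 := (ns_iff x1 y1).1 h1
  have e2 := (ns_iff x2 y2).1 h2'
  have hxy : ¬ (x1 = x2 ∧ y1 = (EC K).negY x2 y2) := by rwa [negY_EC]
  set l := (EC K).slope x1 x2 y1 y2 with hl
  have hX : (EC K).addX x1 x2 l = l ^ 2 + x1 + x2 := by
    simp only [Affine.addX, EC]
    linear_combination (- x1 - x2) * h2
  have hY : (EC K).addY x1 x2 y1 l = (y1 + l * (x1 + (l ^ 2 + x1 + x2))) + 1 := by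
    simp only [Affine.addY, Affine.negAddY, negY_EC, hX]
    linear_combination (-l * x1) * h2
  have hadd := Affine.Point.add_some hxy (h₁ := h1) (h₂ := h2')
  have hns := Affine.nonsingular_add h1 h2' hxy
  rw [← hl, hX, hY] at hns
  refine ⟨l, l ^ 2 + x1 + x2, y1 + l * (x1 + (l ^ 2 + x1 + x2)), hns, ?_, ?_, ?_, ?_, rfl, ?_, ?_⟩
  · rw [hadd]
    congr 1
  · linear_combination (x1 + x2) * h2
  · by_cases hx : x1 = x2
    · subst hx
      have : l = x1 ^ 2 := by
        rw [hl]
        have hy := Y_eq e1 e2 (fun h => hne ⟨rfl, h⟩)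
        rw [← hy]
        exact slope_EC_self x1 y1
      rw [this]
      linear_combination (x1 ^ 5 + 2 * x1 ^ 2) * h2
    · have hd : x1 + x2 ≠ 0 := by
        intro h
        exact hx (by linear_combination h - x2 * h2)
      have hl' : l * (x1 + x2) = y1 + y2 := by
        rw [hl, slope_EC_ne y1 y2 hx]
        field_simp
      have h5 : (x1 + x2) * (x1 * x2 + x1 * (l ^ 2 + x1 + x2) + x2 * (l ^ 2 + x1 + x2) - l) = 0 := by
        linear_combination (l * (x1 + x2) + y1 + y2 - 1) * hl' + e1 + e2 +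
          (y1 * y2 + x1 ^ 3 + x2 ^ 3 + 2 * x1 ^ 2 * x2 + 2 * x1 * x2 ^ 2 - y1 - y2) * h2
      rcases mul_eq_zero.1 h5 with h6 | h6
      · exact absurd h6 hd
      · exact sub_eq_zero.1 h6
  · by_cases hx : x1 = x2
    · subst hx
      have hy := Y_eq e1 e2 (fun h => hne ⟨rfl, h⟩)
      rw [hy]
      linear_combination (-l * x1) * h2
    · have hd : x1 + x2 ≠ 0 := by
        intro h
        exact hx (by linear_combination h - x2 * h2)
      have hl' : l * (x1 + x2) = y1 + y2 := by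
        rw [hl, slope_EC_ne y1 y2 hx]
        field_simp
      rw [hl']
      linear_combination (-y1) * h2
  · intro hx
    rw [hl]
    exact slope_EC_ne y1 y2 hx
  · intro hx
    subst hx
    have hy := Y_eq e1 e2 (fun h => hne ⟨rfl, h⟩)
    rw [hl, ← hy]
    exact slope_EC_self x1 y1

omit [CharP K 2] in
lemma E1_poly (x1 x2 x3 y1 y2 y3 l m : K) (h2 : (2 : K) = 0) (a1 : x1 + x2 + x3 = l ^ 2)
    (a2 : x1 * x2 + x1 * x3 + x2 * x3 = l) (a3 : x1 * x2 * x3 = m ^ 2 + m)
    (b1 : y1 = l * x1 + m) (b2 : y2 = l * x2 + m) (b3 : y3 = l * x3 + m) :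
    (x1 + y1) * (x2 + y2) * (x3 + y3) + (x1 + 1) * (x2 + 1) * (x3 + 1)
      + (x1 + y1 + 1) * (x2 + y2 + 1) * (x3 + y3 + 1) = 0 := by
  subst b1 b2 b3
  linear_combination ((l + 1) * m ^ 2 + 1 + (l + 1) * (m + 1) ^ 2) * a1 +
    ((l + 1) ^ 2 * m + 1 + (l + 1) ^ 2 * (m + 1)) * a2 + (2 * (l + 1) ^ 3 + 1) * a3 +
    (1 + l + 4 * l * m + 3 * l * m ^ 2 + 2 * l ^ 2 + 6 * l ^ 2 * m + 4 * l ^ 2 * m ^ 2 + l ^ 3
      + 3 * l ^ 3 * m + 2 * l ^ 3 * m ^ 2 + 3 * m + 3 * m ^ 2 + m ^ 3) * h2

omit [CharP K 2] in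
lemma us (x y : K) (h : (EC K).Nonsingular x y) :
    uvec (.some x y h) 0 = x + y ∧ uvec (.some x y h) 1 = x + 1 ∧
      uvec (.some x y h) 2 = x + y + 1 := ⟨rfl, rfl, rfl⟩

omit [CharP K 2] in
lemma uz : uvec (Affine.Point.zero : (EC K).Point) 0 = 1 ∧
    uvec (Affine.Point.zero : (EC K).Point) 1 = 0 ∧
    uvec (Affine.Point.zero : (EC K).Point) 2 = 1 := ⟨rfl, rfl, rfl⟩

theorem E1_ok : StmE1 := by
  intro K _ _ _ A B C hABC
  have h2 : (2 : K) = 0 := CharTwo.two_eq_zero
  have hC : C = -(A + B) := by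
    rw [eq_neg_iff_add_eq_zero, add_comm]; exact hABC
  rw [Fin.sum_univ_three]
  rcases A with _ | ⟨x1, y1, h1⟩
  · have : C = -B := by
      rw [hC]
      congr 1
    rw [this]
    rcases B with _ | ⟨x, y, h⟩
    · have h0 : -(Affine.Point.zero : (EC K).Point) = Affine.Point.zero := rfl
      rw [h0, uz.1, uz.2.1, uz.2.2]
      linear_combination h2
    · rw [Affine.Point.neg_some, uz.1, uz.2.1, uz.2.2, (us _ _ _).1, (us _ _ _).2.1, (us _ _ _).2.2,
        (us _ _ _).1, (us _ _ _).2.1, (us _ _ _).2.2, negY_EC]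
      linear_combination ((x + y) * (x + y + 1) + (x + y) + 1) * h2
  · rcases B with _ | ⟨x2, y2, h2'⟩
    · have : C = -(Affine.Point.some x1 y1 h1) := by
        rw [hC]
        congr 1
      rw [this, Affine.Point.neg_some, uz.1, uz.2.1, uz.2.2, (us _ _ _).1, (us _ _ _).2.1,
        (us _ _ _).2.2, (us _ _ _).1, (us _ _ _).2.1, (us _ _ _).2.2, negY_EC]
      linear_combination ((x1 + y1) * (x1 + y1 + 1) + (x1 + y1) + 1) * h2
    · by_cases hne : x1 = x2 ∧ y1 = y2 + 1
      · have hxy : y1 = (EC K).negY x2 y2 := by rw [negY_EC]; exact hne.2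
        have hz := Affine.Point.add_of_Y_eq (h₁ := h1) (h₂ := h2') hne.1 hxy
        rw [hz] at hC
        have h0 : -(0 : (EC K).Point) = Affine.Point.zero := rfl
        rw [hC, h0]
        obtain ⟨hx, hy⟩ := hne
        rw [uz.1, uz.2.1, uz.2.2, (us _ _ _).1, (us _ _ _).2.1,
          (us _ _ _).2.2, (us _ _ _).1, (us _ _ _).2.1, (us _ _ _).2.2, ← hx, hy]
        linear_combination ((x1 + y2) * (x1 + y2 + 1) + (x1 + y2 + 1)) * h2
      · obtain ⟨l, x3, y3, h3, q1, q2, q3, q4, q5, -, -⟩ := add_data h1 h2' hne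
        rw [q1, Affine.Point.neg_some] at hC
        rw [hC]
        have e1 := (ns_iff x1 y1).1 h1
        have hy3 : (EC K).negY x3 (y3 + 1) = y3 := by
          rw [negY_EC]; linear_combination h2
        rw [(us _ _ _).1, (us _ _ _).2.1, (us _ _ _).2.2, (us _ _ _).1, (us _ _ _).2.1,
          (us _ _ _).2.2, (us _ _ _).1, (us _ _ _).2.1, (us _ _ _).2.2, hy3]
        apply E1_poly x1 x2 x3 y1 y2 y3 l (y1 + l * x1) h2 q2 q3
        · linear_combination x1 ^ 2 * q2 - x1 * q3 - e1 +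
            (x1 * x2 * x3 - x1 * l - x1 * l * y1 - x1 ^ 3) * h2
        · linear_combination (-l * x1) * h2
        · linear_combination q4
        · linear_combination q5

theorem E2_ok : StmE2 := by
  intro K _ _ _
  have h2 : (2 : K) = 0 := CharTwo.two_eq_zero
  have hns : ∀ {x y : K}, (EC K).Nonsingular x y → (EC K).Nonsingular (x ^ 2) (y ^ 2) := by
    intro x y h
    rw [ns_iff] at h ⊢
    linear_combination (y ^ 2 + y + x ^ 3) * h - (y * y ^ 2) * h2
  set f : (EC K).Point → (EC K).Point := fun P =>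
    match P with
    | .zero => .zero
    | .some x y h => .some (x ^ 2) (y ^ 2) (hns h) with hf
  have f0 : f 0 = 0 := rfl
  have fs : ∀ (x y : K) (h : (EC K).Nonsingular x y),
      f (Affine.Point.some x y h) = Affine.Point.some (x ^ 2) (y ^ 2) (hns h) := fun x y h => rfl
  have hinj : ∀ a b : K, a ^ 2 = b ^ 2 → a = b := by
    intro a b hab
    have : (a - b) * (a - b) = 0 := by linear_combination hab + (b ^ 2 - a * b) * h2
    rcases mul_eq_zero.1 this with h | h <;> exact sub_eq_zero.1 h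
  have hsome : ∀ {a b a' b' : K} (h : (EC K).Nonsingular a b) (h' : (EC K).Nonsingular a' b'),
      a = a' → b = b' → Affine.Point.some a b h = Affine.Point.some a' b' h' := by
    intro a b a' b' h h' e1 e2
    subst e1 e2
    rfl
  have hadd : ∀ P Q : (EC K).Point, f (P + Q) = f P + f Q := by
    intro P Q
    rcases P with _ | ⟨x1, y1, h1⟩
    · have e : (Affine.Point.zero : (EC K).Point) = 0 := rfl
      rw [e, zero_add, f0, zero_add]
    · rcases Q with _ | ⟨x2, y2, h2'⟩
      · have e : (Affine.Point.zero : (EC K).Point) = 0 := rfl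
        rw [e, add_zero, f0, add_zero]
      · by_cases hne : x1 = x2 ∧ y1 = y2 + 1
        · have hxy : y1 = (EC K).negY x2 y2 := by rw [negY_EC]; exact hne.2
          have hz := Affine.Point.add_of_Y_eq (h₁ := h1) (h₂ := h2') hne.1 hxy
          rw [hz, f0, fs _ _ h1, fs _ _ h2']
          symm
          apply Affine.Point.add_of_Y_eq
          · rw [hne.1]
          · rw [negY_EC, hne.2]
            linear_combination y2 * h2
        · have hne2 : ¬ (x1 ^ 2 = x2 ^ 2 ∧ y1 ^ 2 = y2 ^ 2 + 1) := by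
            rintro ⟨a, b⟩
            apply hne
            refine ⟨hinj _ _ a, hinj _ _ ?_⟩
            rw [b]
            linear_combination (-y2) * h2
          obtain ⟨l, x3, y3, h3, q1, q2, q3, q4, q5, q6, q7⟩ := add_data h1 h2' hne
          obtain ⟨l', x3', y3', h3', r1, r2, r3, r4, r5, r6, r7⟩ :=
            add_data (hns h1) (hns h2') hne2
          have hl : l' = l ^ 2 := by
            by_cases hx : x1 = x2
            · rw [q7 hx, r7 (by rw [hx])]
            · rw [q6 hx, r6 (fun h => hx (hinj _ _ h)), div_pow]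
              congr 1
              · linear_combination (-y1 * y2) * h2
              · linear_combination (-x1 * x2) * h2
          rw [q1, fs _ _ h3, fs _ _ h1, fs _ _ h2', r1]
          have ex : x3 ^ 2 = x3' := by
            have a1 : x3' = l' ^ 2 + x1 ^ 2 + x2 ^ 2 := by
              linear_combination r2 - (x1 ^ 2 + x2 ^ 2) * h2
            have a2 : x3 = l ^ 2 + x1 + x2 := by
              linear_combination q2 - (x1 + x2) * h2
            rw [a1, a2, hl]
            linear_combination (l ^ 2 * x1 + l ^ 2 * x2 + x1 * x2) * h2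
          apply hsome
          · exact ex
          · rw [r5, q5, hl, ← ex]
            linear_combination (y1 * l * (x1 + x3) + l ^ 2 * x1 * x3 + y1 + l * (x1 + x3)) * h2
  refine ⟨{ toFun := f, map_zero' := f0, map_add' := hadd }, fun x y h => ⟨hns h, rfl⟩, ?_⟩
  intro P
  change f (f P) + (P + P) = 0
  rcases P with _ | ⟨x, y, h⟩
  · rfl
  · have hne : ¬ (x = x ∧ y = y + 1) := by
      rintro ⟨-, h'⟩
      have : (1 : K) = 0 := by linear_combination -h'
      exact one_ne_zero this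
    obtain ⟨l, x3, y3, h3, q1, q2, q3, q4, q5, q6, q7⟩ := add_data h h hne
    rw [q1, fs _ _ h, fs _ _ (hns h)]
    have hl := q7 rfl
    have e := (ns_iff x y).1 h
    have ex : x3 = x ^ 4 := by
      rw [hl] at q2
      linear_combination q2 - x * h2
    have ey : y3 = y ^ 4 := by
      rw [q5, hl, ex]
      linear_combination (-(y ^ 2 + y + x ^ 3) - 1) * e + (y * y ^ 2 + y ^ 2 + y) * h2
    apply Affine.Point.add_of_Y_eq
    · rw [ex]; ring
    · rw [negY_EC, ey]
      linear_combination - h2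

end Pool.Agent.R48.KT
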