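import Pool.Agent.R48.KT.Stm

/-!
# Kasami triple counts, piece F1: the lower bound (helper422)
-/

namespace Pool.Agent.R48.KT
namespace F1

open Finset
open scoped Classical

set_option linter.unusedSectionVars false

noncomputable section

variable {F : Type} [Field F] [Fintype F] [CharP F 2]

/-- `W(c) = ∑ χ(c y^r + y)` -/
def WW (r : ℕ) (c : F) : ℤ := ∑ y : F, chi (c * y ^ r + y)

/-- `A(y)` -/
def AA (r : ℕ) (c y : F × F × F) : F := c.1 * y.1 ^ r + c.2.1 * y.2.1 ^ r + c.2.2 * y.2.2 ^ r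

/-- `B(y)` -/
def BB (y : F × F × F) : F := y.1 + y.2.1 + y.2.2

/-- the sum over `y` -/
def PP (r : ℕ) (t s : F) (c : F × F × F) : ℤ := ∑ y : F × F × F, chi (t * AA r c y + s * BB y)

/-- `U(c)` -/
def UU (r : ℕ) (c : F × F × F) : ℤ := WW r c.1 * WW r c.2.1 * WW r c.2.2

lemma prod3 (f g h : F → ℤ) :
    (∑ a, f a) * (∑ b, g b) * (∑ c, h c) = ∑ y : F × F × F, f y.1 * g y.2.1 * h y.2.2 := by
  rw [Fintype.sum_prod_type, Finset.sum_mul, Finset.sum_mul]
  refine Finset.sum_congr rfl fun a _ => ?_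
  rw [Fintype.sum_prod_type, mul_assoc, Finset.sum_mul, Finset.mul_sum]
  refine Finset.sum_congr rfl fun b _ => ?_
  rw [Finset.mul_sum, Finset.mul_sum]
  exact Finset.sum_congr rfl fun c _ => by ring

lemma EE_eq (r : ℕ) (x : F) : EE r x = ∑ c : F, chi (x * c ^ 3) * WW r c := by
  unfold EE WW
  refine Finset.sum_congr rfl fun c _ => ?_
  rw [Finset.mul_sum]
  refine Finset.sum_congr rfl fun y _ => ?_
  rw [← chi_add]
  congr 1
  ring

lemma WW_zero (r : ℕ) : WW r (0 : F) = 0 := by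
  unfold WW
  rw [← sum_chi (F := F)]
  exact Finset.sum_congr rfl fun y _ => by rw [zero_mul, zero_add]

lemma sum_EE (r : ℕ) : ∑ x : F, EE r x = 0 := by
  simp only [EE_eq]
  rw [Finset.sum_comm]
  refine Finset.sum_eq_zero fun c _ => ?_
  rw [← Finset.sum_mul]
  by_cases hc : c = 0
  · rw [hc, WW_zero, mul_zero]
  · have : ∑ x : F, chi (x * c ^ 3) = 0 := by
      rw [← sum_chi_mul' (c ^ 3) (pow_ne_zero 3 hc)]
      exact Finset.sum_congr rfl fun x _ => by rw [mul_comm]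
    rw [this, zero_mul]

/-- scaling -/
lemma WW_scale (r : ℕ) (c s : F) (hs : s ≠ 0) :
    WW r c = ∑ y : F, chi (c * s ^ r * y ^ r + s * y) := by
  unfold WW
  rw [← Equiv.sum_comp (Equiv.mulLeft₀ s hs)]
  refine Finset.sum_congr rfl fun y _ => ?_
  change chi (c * (s * y) ^ r + s * y) = _
  congr 1
  rw [mul_pow]
  ring

lemma UU_scale (r : ℕ) (lam s : F) (hs : s ≠ 0) (c : F × F × F) :
    UU r (lam * c.1, lam * c.2.1, lam * c.2.2) = PP r (lam * s ^ r) s c := by
  unfold UU PP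
  simp only
  rw [WW_scale r (lam * c.1) s hs, WW_scale r (lam * c.2.1) s hs, WW_scale r (lam * c.2.2) s hs,
    prod3]
  refine Finset.sum_congr rfl fun y _ => ?_
  rw [← chi_add, ← chi_add]
  congr 1
  unfold AA BB
  ring

lemma sum_ne (a : F) : ∑ t ∈ univ.erase (0 : F), chi (t * a) =
    (if a = 0 then (Fintype.card F : ℤ) else 0) - 1 := by
  have h1 := Finset.add_sum_erase univ (fun t : F => chi (t * a)) (Finset.mem_univ 0)
  have h2 : ∑ t : F, chi (t * a) = if a = 0 then (Fintype.card F : ℤ) else 0 := by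
    rw [← sum_chi_mul]
    exact Finset.sum_congr rfl fun x _ => by rw [mul_comm]
  rw [h2] at h1
  simp only [zero_mul, chi_zero] at h1
  linarith

lemma card_ne : ((univ.erase (0 : F)).card : ℤ) = (Fintype.card F : ℤ) - 1 := by
  rw [Finset.card_erase_of_mem (Finset.mem_univ _), Finset.card_univ, Nat.cast_sub Fintype.card_pos]
  simp

/-- the number of common zeros -/
def ZZ (r : ℕ) (c : F × F × F) : ℤ :=
  ((univ.filter fun y : F × F × F => AA r c y = 0 ∧ BB y = 0).card : ℤ)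

lemma count_A {r : ℕ} (hr : Function.Bijective (fun y : F => y ^ r)) {c : F × F × F}
    (hc : c.2.2 ≠ 0) :
    ∑ y : F × F × F, (if AA r c y = 0 then (1 : ℤ) else 0) = (Fintype.card F : ℤ) ^ 2 := by
  rw [Fintype.sum_prod_type]
  have h1 : ∀ a : F, ∑ y : F × F, (if AA r c (a, y) = 0 then (1 : ℤ) else 0) =
      (Fintype.card F : ℤ) := by
    intro a
    rw [Fintype.sum_prod_type]
    have h2 : ∀ b : F, ∑ d : F, (if AA r c (a, b, d) = 0 then (1 : ℤ) else 0) = 1 := by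
      intro b
      obtain ⟨d, hd⟩ := hr.2 ((c.1 * a ^ r + c.2.1 * b ^ r) / c.2.2)
      dsimp only at hd
      rw [Finset.sum_eq_single d]
      · rw [if_pos]
        unfold AA
        simp only
        rw [hd, mul_div_cancel₀ _ hc]
        exact add_self' _
      · intro d' _ hd'
        rw [if_neg]
        intro h
        apply hd'
        apply hr.1
        dsimp only
        rw [hd, eq_div_iff hc]
        unfold AA at h
        simp only at h
        linear_combination h - (c.1 * a ^ r + c.2.1 * b ^ r) * (two_eq (F := F))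
      · intro h
        exact absurd (Finset.mem_univ _) h
    rw [Finset.sum_congr rfl fun b _ => h2 b]
    simp
  rw [Finset.sum_congr rfl fun a _ => h1 a]
  simp
  ring

lemma count_B : ∑ y : F × F × F, (if BB y = 0 then (1 : ℤ) else 0) =
    (Fintype.card F : ℤ) ^ 2 := by
  have h := count_A (F := F) (r := 1) (c := (1, 1, 1)) (by
    simp only [pow_one]
    exact Function.bijective_id) one_ne_zero
  rw [← h]
  refine Finset.sum_congr rfl fun y _ => ?_
  have : AA 1 ((1 : F), (1 : F), (1 : F)) y = BB y := by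
    unfold AA BB
    ring
  rw [this]

lemma sum_PP {r : ℕ} (hr : Function.Bijective (fun y : F => y ^ r)) {c : F × F × F}
    (hc : c.2.2 ≠ 0) :
    ∑ s ∈ univ.erase (0 : F), ∑ t ∈ univ.erase (0 : F), PP r t s c =
      (Fintype.card F : ℤ) ^ 2 * ZZ r c - (Fintype.card F : ℤ) ^ 3 := by
  have h1 : ∀ y : F × F × F, ∑ s ∈ univ.erase (0 : F), ∑ t ∈ univ.erase (0 : F),
      chi (t * AA r c y + s * BB y) =
      (Fintype.card F : ℤ) ^ 2 * (if AA r c y = 0 ∧ BB y = 0 then 1 else 0)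
        - (Fintype.card F : ℤ) * (if AA r c y = 0 then 1 else 0)
        - (Fintype.card F : ℤ) * (if BB y = 0 then 1 else 0) + 1 := by
    intro y
    have h2 : ∑ s ∈ univ.erase (0 : F), ∑ t ∈ univ.erase (0 : F),
        chi (t * AA r c y + s * BB y) =
        (∑ t ∈ univ.erase (0 : F), chi (t * AA r c y)) *
          ∑ s ∈ univ.erase (0 : F), chi (s * BB y) := by
      rw [Finset.sum_mul_sum, Finset.sum_comm]
      refine Finset.sum_congr rfl fun s _ => Finset.sum_congr rfl fun t _ => ?_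
      rw [chi_add]
    rw [h2, sum_ne, sum_ne]
    by_cases ha : AA r c y = 0 <;> by_cases hb : BB y = 0 <;> simp [ha, hb] <;> ring
  unfold PP
  have h3 : ∑ s ∈ univ.erase (0 : F), ∑ t ∈ univ.erase (0 : F), ∑ y : F × F × F,
      chi (t * AA r c y + s * BB y) = ∑ y : F × F × F, ∑ s ∈ univ.erase (0 : F),
      ∑ t ∈ univ.erase (0 : F), chi (t * AA r c y + s * BB y) := by
    refine (Finset.sum_congr rfl fun s _ => Finset.sum_comm).trans ?_
    exact Finset.sum_comm
  rw [h3, Finset.sum_congr rfl fun y _ => h1 y, Finset.sum_add_distrib, Finset.sum_sub_distrib,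
    Finset.sum_sub_distrib, ← Finset.mul_sum, ← Finset.mul_sum, ← Finset.mul_sum, count_A hr hc,
    count_B]
  have h4 : ∑ y : F × F × F, (if AA r c y = 0 ∧ BB y = 0 then (1 : ℤ) else 0) = ZZ r c := by
    rw [ZZ, Finset.sum_boole]
  rw [h4]
  have h5 : ∑ _y : F × F × F, (1 : ℤ) = (Fintype.card F : ℤ) ^ 3 := by
    rw [Finset.sum_const, Finset.card_univ, Fintype.card_prod, Fintype.card_prod]
    simp
    ring
  rw [h5]
  ring

lemma le_ZZ {r : ℕ} {c y : F × F × F} (hy : y ≠ 0) (hA : AA r c y = 0)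
    (hB : BB y = 0) : (Fintype.card F : ℤ) ≤ ZZ r c := by
  unfold ZZ
  rw [← Finset.card_univ]
  have h1 : (univ.image fun l : F => (l * y.1, l * y.2.1, l * y.2.2)) ⊆
      univ.filter fun y : F × F × F => AA r c y = 0 ∧ BB y = 0 := by
    intro z hz
    obtain ⟨l, -, rfl⟩ := Finset.mem_image.1 hz
    rw [Finset.mem_filter]
    refine ⟨Finset.mem_univ _, ?_, ?_⟩
    · have : AA r c (l * y.1, l * y.2.1, l * y.2.2) = l ^ r * AA r c y := by
        unfold AA
        simp only [mul_pow]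
        ring
      rw [this, hA, mul_zero]
    · have : BB (l * y.1, l * y.2.1, l * y.2.2) = l * BB y := by
        unfold BB
        ring
      rw [this, hB, mul_zero]
  have h2 := Finset.card_le_card h1
  rw [Finset.card_image_of_injective] at h2
  · exact_mod_cast h2
  · intro l l' h
    have e1 := congrArg Prod.fst h
    have e2 := congrArg (fun z => z.2.1) h
    have e3 := congrArg (fun z => z.2.2) h
    dsimp only at e1 e2 e3
    by_contra hne
    apply hy
    have h0 : l - l' ≠ 0 := sub_ne_zero.2 hne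
    obtain ⟨y1, y2, y3⟩ := y
    dsimp only at e1 e2 e3
    have f1 : y1 = 0 := (mul_eq_zero.1 (show (l - l') * y1 = 0 by linear_combination e1)).resolve_left h0
    have f2 : y2 = 0 := (mul_eq_zero.1 (show (l - l') * y2 = 0 by linear_combination e2)).resolve_left h0
    have f3 : y3 = 0 := (mul_eq_zero.1 (show (l - l') * y3 = 0 by linear_combination e3)).resolve_left h0
    rw [f1, f2, f3]
    rfl

/-- the set of the `c` -/
def CS (w1 w2 : F) : Finset (F × F × F) := univ.filter fun c =>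
  (c.1 ^ 3 + w1 * c.2.2 ^ 3 = 0 ∧ c.2.1 ^ 3 + w2 * c.2.2 ^ 3 = 0) ∧ c.2.2 ≠ 0

lemma CS_nonneg {r : ℕ} (hr : Function.Bijective (fun y : F => y ^ r))
    (hE : ∀ d1 d2 d3 : F, d1 ≠ 0 → d2 ≠ 0 → d3 ≠ 0 → d1 ^ 3 + d2 ^ 3 + d3 ^ 3 = 0 →
      ∃ y1 y2 y3 : F, (y1 ≠ 0 ∨ y2 ≠ 0 ∨ y3 ≠ 0) ∧ y1 + y2 + y3 = 0 ∧
        d1 * y1 ^ r + d2 * y2 ^ r + d3 * y3 ^ r = 0) {w1 w2 : F} (h1 : w1 ≠ 0) (h2 : w2 ≠ 0)
    (h12 : w1 + w2 = 1) : 0 ≤ ∑ c ∈ CS w1 w2, UU r c := by
  obtain ⟨S, hS⟩ : ∃ S, S = ∑ c ∈ CS w1 w2, UU r c := ⟨_, rfl⟩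
  obtain ⟨N, hN⟩ : ∃ N : ℤ, N = (Fintype.card F : ℤ) := ⟨_, rfl⟩
  have hN2 : 2 ≤ N := by
    have := Fintype.one_lt_card (α := F)
    rw [hN]
    exact_mod_cast this
  have e1 : ∀ lam ∈ univ.erase (0 : F),
      ∑ c ∈ CS w1 w2, UU r (lam * c.1, lam * c.2.1, lam * c.2.2) = S := by
    intro lam hlam
    have hl : lam ≠ 0 := (Finset.mem_erase.1 hlam).1
    rw [hS]
    have hmem : ∀ l : F, l ≠ 0 → ∀ c ∈ CS w1 w2, (l * c.1, l * c.2.1, l * c.2.2) ∈ CS w1 w2 := by
      intro l hl c hc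
      rw [CS, Finset.mem_filter] at hc ⊢
      obtain ⟨-, ⟨a1, a2⟩, a3⟩ := hc
      refine ⟨Finset.mem_univ _, ⟨?_, ?_⟩, mul_ne_zero hl a3⟩
      · linear_combination l ^ 3 * a1
      · linear_combination l ^ 3 * a2
    refine Finset.sum_nbij' (fun c => (lam * c.1, lam * c.2.1, lam * c.2.2))
      (fun c => (lam⁻¹ * c.1, lam⁻¹ * c.2.1, lam⁻¹ * c.2.2)) (hmem lam hl)
      (hmem lam⁻¹ (inv_ne_zero hl)) ?_ ?_ ?_
    · rintro ⟨c1, c2, c3⟩ _
      simp [inv_mul_cancel_left₀ hl]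
    · rintro ⟨c1, c2, c3⟩ _
      simp [mul_inv_cancel_left₀ hl]
    · intro c _
      rfl
  have e2 : (N - 1) * S = ∑ c ∈ CS w1 w2, ∑ lam ∈ univ.erase (0 : F),
      UU r (lam * c.1, lam * c.2.1, lam * c.2.2) := by
    rw [Finset.sum_comm, Finset.sum_congr rfl e1, Finset.sum_const, nsmul_eq_mul, card_ne, hN]
  have e3 : ∀ c ∈ CS w1 w2, 0 ≤ (N - 1) * ∑ lam ∈ univ.erase (0 : F),
      UU r (lam * c.1, lam * c.2.1, lam * c.2.2) := by
    intro c hc
    rw [CS, Finset.mem_filter] at hc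
    obtain ⟨-, ⟨a1, a2⟩, a3⟩ := hc
    have e4 : (N - 1) * ∑ lam ∈ univ.erase (0 : F),
        UU r (lam * c.1, lam * c.2.1, lam * c.2.2) =
        ∑ s ∈ univ.erase (0 : F), ∑ t ∈ univ.erase (0 : F), PP r t s c := by
      rw [hN, ← card_ne, ← nsmul_eq_mul, ← Finset.sum_const]
      refine Finset.sum_congr rfl fun s hs => ?_
      have hs0 : s ≠ 0 := (Finset.mem_erase.1 hs).1
      have hs1 : s ^ r ≠ 0 := pow_ne_zero r hs0
      refine Finset.sum_nbij' (fun l => l * s ^ r) (fun l => l * (s ^ r)⁻¹) ?_ ?_ ?_ ?_ ?_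
      · intro l hl
        exact Finset.mem_erase.2 ⟨mul_ne_zero (Finset.mem_erase.1 hl).1 hs1, Finset.mem_univ _⟩
      · intro l hl
        exact Finset.mem_erase.2 ⟨mul_ne_zero (Finset.mem_erase.1 hl).1 (inv_ne_zero hs1),
          Finset.mem_univ _⟩
      · intro l _
        exact mul_inv_cancel_right₀ hs1 l
      · intro l _
        exact inv_mul_cancel_right₀ hs1 l
      · intro l _
        exact UU_scale r l s hs0 c
    rw [e4, sum_PP hr a3]
    have b1 : c.1 ≠ 0 := by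
      intro h
      rw [h, zero_pow (by norm_num), zero_add] at a1
      exact mul_ne_zero h1 (pow_ne_zero 3 a3) a1
    have b2 : c.2.1 ≠ 0 := by
      intro h
      rw [h, zero_pow (by norm_num), zero_add] at a2
      exact mul_ne_zero h2 (pow_ne_zero 3 a3) a2
    have b3 : c.1 ^ 3 + c.2.1 ^ 3 + c.2.2 ^ 3 = 0 := by
      linear_combination a1 + a2 - c.2.2 ^ 3 * h12
    obtain ⟨y1, y2, y3, c1, c2, c3⟩ := hE _ _ _ b1 b2 a3 b3
    have h3 := le_ZZ (c := c) (y := (y1, y2, y3)) (by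
      intro h
      have f1 : y1 = 0 := congrArg Prod.fst h
      have f2 : y2 = 0 := congrArg (fun z => z.2.1) h
      have f3 : y3 = 0 := congrArg (fun z => z.2.2) h
      simp [f1, f2, f3] at c1) c3 c2
    have h4 : (Fintype.card F : ℤ) ^ 2 * (Fintype.card F : ℤ) ≤ (Fintype.card F : ℤ) ^ 2 * ZZ r c :=
      mul_le_mul_of_nonneg_left h3 (by positivity)
    nlinarith [h4]
  have e5 : 0 ≤ (N - 1) * ((N - 1) * S) := by
    rw [e2, Finset.mul_sum]
    exact Finset.sum_nonneg e3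
  rw [← hS]
  by_contra hcon
  push Not at hcon
  have h3 : (N - 1) * ((N - 1) * S) < 0 := by
    have h4 : 0 < (N - 1) * (N - 1) := by nlinarith
    nlinarith
  linarith

end

end F1

theorem f1 : StmF1 := by
  classical
  intro F _ _ _ r D _ hr hD hE v1 v2 hv1 hv2 hv12
  obtain ⟨v3, hv3⟩ : ∃ v3, v3 = v1 + v2 := ⟨_, rfl⟩
  have hv30 : v3 ≠ 0 := by
    intro h
    apply hv12
    have h2 : (2 : F) = 0 := CharTwo.two_eq_zero
    linear_combination h - v2 * h2 - hv3
  obtain ⟨w1, hw1⟩ : ∃ w1, w1 = v1 / v3 := ⟨_, rfl⟩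
  obtain ⟨w2, hw2⟩ : ∃ w2, w2 = v2 / v3 := ⟨_, rfl⟩
  have hw10 : w1 ≠ 0 := by rw [hw1]; exact div_ne_zero hv1 hv30
  have hw20 : w2 ≠ 0 := by rw [hw2]; exact div_ne_zero hv2 hv30
  have hw12 : w1 + w2 = 1 := by
    rw [hw1, hw2, ← add_div, ← hv3, div_self hv30]
  obtain ⟨N, hN⟩ : ∃ N : ℤ, N = (Fintype.card F : ℤ) := ⟨_, rfl⟩
  have hNpos : 0 < N := by
    rw [hN]
    exact_mod_cast Fintype.card_pos
  obtain ⟨s, hs⟩ : ∃ s : F → ℤ, s = fun x => if x ∈ D then 1 else -1 := ⟨_, rfl⟩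
  have hEs : ∀ x, EE r x = N * s x := by
    intro x
    rw [hD, hN, hs]
  have hsum : ∑ x, s x = 0 := by
    have h1 := F1.sum_EE (F := F) r
    simp only [hEs] at h1
    rw [← Finset.mul_sum] at h1
    rcases mul_eq_zero.1 h1 with h2 | h2
    · exact absurd h2 hNpos.ne'
    · exact h2
  -- the count
  have hcount : 8 * NK D v1 v2 = ∑ a : F, ∑ b : F, (1 + s a) * (1 + s b) *
      (1 + s (w1 * a + w2 * b)) := by
    have h1 : NK D v1 v2 = ∑ a : F, ∑ b : F,
        (if a ∈ D ∧ b ∈ D ∧ (w1 * a + w2 * b) ∈ D then (1 : ℤ) else 0) := by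
      unfold NK
      rw [← Finset.sum_boole, Fintype.sum_prod_type]
      refine Finset.sum_congr rfl fun a _ => ?_
      rw [Fintype.sum_prod_type]
      refine Finset.sum_congr rfl fun b _ => ?_
      simp only
      rw [Finset.sum_eq_single (w1 * a + w2 * b)]
      · congr 1
        rw [eq_iff_iff]
        have h0 : v1 * a + v2 * b + (v1 + v2) * (w1 * a + w2 * b) = 0 := by
          rw [← hv3, hw1, hw2]
          field_simp
          have h2 : (2 : F) = 0 := CharTwo.two_eq_zero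
          linear_combination (v1 * a + v2 * b) * h2
        tauto
      · intro d _ hd
        rw [if_neg]
        rintro ⟨-, -, -, h0⟩
        apply hd
        rw [← hv3] at h0
        rw [hw1, hw2]
        field_simp
        have h2 : (2 : F) = 0 := CharTwo.two_eq_zero
        linear_combination h0 - (v1 * a + v2 * b) * h2
      · intro h
        exact absurd (Finset.mem_univ _) h
    rw [h1, Finset.mul_sum]
    refine Finset.sum_congr rfl fun a _ => ?_
    rw [Finset.mul_sum]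
    refine Finset.sum_congr rfl fun b _ => ?_
    rw [hs]
    by_cases ha : a ∈ D <;> by_cases hb : b ∈ D <;> by_cases hc : w1 * a + w2 * b ∈ D <;>
      simp [ha, hb, hc]
  have hsh1 : ∀ a : F, ∑ b : F, s (w1 * a + w2 * b) = 0 := by
    intro a
    rw [← hsum]
    exact Fintype.sum_equiv ((Equiv.mulLeft₀ w2 hw20).trans (Equiv.addLeft (w1 * a))) _ _
      (fun b => rfl)
  have hsh2 : ∀ b : F, ∑ a : F, s (w1 * a + w2 * b) = 0 := by
    intro b
    rw [← hsum]
    exact Fintype.sum_equiv ((Equiv.mulLeft₀ w1 hw10).trans (Equiv.addRight (w2 * b))) _ _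
      (fun a => rfl)
  have hexp : 8 * NK D v1 v2 = N ^ 2 + ∑ a : F, ∑ b : F, s a * s b * s (w1 * a + w2 * b) := by
    rw [hcount]
    have h1 : ∀ a b : F, (1 + s a) * (1 + s b) * (1 + s (w1 * a + w2 * b)) =
        1 + s a + s b + s a * s b + s (w1 * a + w2 * b) + s a * s (w1 * a + w2 * b) +
          s b * s (w1 * a + w2 * b) + s a * s b * s (w1 * a + w2 * b) := fun a b => by ring
    simp only [h1, Finset.sum_add_distrib]
    have c1 : ∑ _a : F, ∑ _b : F, (1 : ℤ) = N ^ 2 := by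
      simp [hN, sq]
    have c2 : ∑ a : F, ∑ _b : F, s a = 0 := by
      rw [Finset.sum_comm]
      simp [hsum]
    have c3 : ∑ _a : F, ∑ b : F, s b = 0 := by
      simp [hsum]
    have c4 : ∑ a : F, ∑ b : F, s a * s b = 0 := by
      simp [← Finset.mul_sum, hsum]
    have c5 : ∑ a : F, ∑ b : F, s (w1 * a + w2 * b) = 0 := by
      simp [hsh1]
    have c6 : ∑ a : F, ∑ b : F, s a * s (w1 * a + w2 * b) = 0 := by
      simp [← Finset.mul_sum, hsh1]
    have c7 : ∑ a : F, ∑ b : F, s b * s (w1 * a + w2 * b) = 0 := by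
      rw [Finset.sum_comm]
      simp [← Finset.mul_sum, hsh2]
    rw [c1, c2, c3, c4, c5, c6, c7]
    ring
  -- the cubic term
  have hXi : N ^ 3 * ∑ a : F, ∑ b : F, s a * s b * s (w1 * a + w2 * b) =
      N ^ 2 * ∑ c ∈ F1.CS w1 w2, F1.UU r c := by
    have h1 : N ^ 3 * ∑ a : F, ∑ b : F, s a * s b * s (w1 * a + w2 * b) =
        ∑ a : F, ∑ b : F, EE r a * EE r b * EE r (w1 * a + w2 * b) := by
      rw [Finset.mul_sum]
      refine Finset.sum_congr rfl fun a _ => ?_
      rw [Finset.mul_sum]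
      refine Finset.sum_congr rfl fun b _ => ?_
      rw [hEs, hEs, hEs]
      ring
    have h2 : ∀ a b : F, EE r a * EE r b * EE r (w1 * a + w2 * b) =
        ∑ c : F × F × F, F1.UU r c * (chi ((c.1 ^ 3 + w1 * c.2.2 ^ 3) * a) *
          chi ((c.2.1 ^ 3 + w2 * c.2.2 ^ 3) * b)) := by
      intro a b
      rw [F1.EE_eq, F1.EE_eq, F1.EE_eq, F1.prod3]
      refine Finset.sum_congr rfl fun c _ => ?_
      have h3 : chi (a * c.1 ^ 3) * chi (b * c.2.1 ^ 3) * chi ((w1 * a + w2 * b) * c.2.2 ^ 3) =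
          chi ((c.1 ^ 3 + w1 * c.2.2 ^ 3) * a) * chi ((c.2.1 ^ 3 + w2 * c.2.2 ^ 3) * b) := by
        rw [← chi_add, ← chi_add, ← chi_add]
        congr 1
        ring
      rw [← h3, F1.UU]
      ring
    rw [h1]
    have h4 : ∑ a : F, ∑ b : F, EE r a * EE r b * EE r (w1 * a + w2 * b) =
        ∑ c : F × F × F, F1.UU r c * ((∑ a : F, chi ((c.1 ^ 3 + w1 * c.2.2 ^ 3) * a)) *
          ∑ b : F, chi ((c.2.1 ^ 3 + w2 * c.2.2 ^ 3) * b)) := by
      simp only [h2]
      have h5 : ∀ c : F × F × F, F1.UU r c * ((∑ a : F, chi ((c.1 ^ 3 + w1 * c.2.2 ^ 3) * a)) *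
          ∑ b : F, chi ((c.2.1 ^ 3 + w2 * c.2.2 ^ 3) * b)) = ∑ a : F, ∑ b : F,
          F1.UU r c * (chi ((c.1 ^ 3 + w1 * c.2.2 ^ 3) * a) *
          chi ((c.2.1 ^ 3 + w2 * c.2.2 ^ 3) * b)) := by
        intro c
        rw [Finset.sum_mul_sum, Finset.mul_sum]
        refine Finset.sum_congr rfl fun a _ => ?_
        rw [Finset.mul_sum]
      rw [Finset.sum_congr rfl fun c _ => h5 c]
      refine (Finset.sum_congr rfl fun a _ => Finset.sum_comm).trans ?_
      exact Finset.sum_comm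
    rw [h4]
    simp only [sum_chi_mul]
    rw [← hN, Finset.mul_sum, F1.CS, Finset.sum_filter]
    refine Finset.sum_congr rfl fun c _ => ?_
    by_cases g1 : c.1 ^ 3 + w1 * c.2.2 ^ 3 = 0 <;>
      by_cases g2 : c.2.1 ^ 3 + w2 * c.2.2 ^ 3 = 0 <;> by_cases g3 : c.2.2 = 0
    · have : F1.UU r c = 0 := by
        rw [F1.UU, g3, F1.WW_zero, mul_zero]
      simp [this]
    · rw [if_pos g1, if_pos g2, if_pos ⟨⟨g1, g2⟩, g3⟩]
      ring
    all_goals simp [g1, g2]
  have h1 : 0 ≤ N ^ 3 * ∑ a : F, ∑ b : F, s a * s b * s (w1 * a + w2 * b) := by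
    rw [hXi]
    exact mul_nonneg (by positivity) (F1.CS_nonneg hr hE hw10 hw20 hw12)
  have h2 : 0 ≤ ∑ a : F, ∑ b : F, s a * s b * s (w1 * a + w2 * b) := by
    by_contra hcon
    push Not at hcon
    have := mul_neg_of_pos_of_neg (show 0 < N ^ 3 by positivity) hcon
    linarith
  rw [hexp, ← hN]
  linarith

end Pool.Agent.R48.KT
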