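import Pool.Agent.R48.KT.A

namespace Pool.Agent.R48.KT

open Finset
open scoped Classical

set_option linter.unusedSectionVars false

noncomputable section

theorem two_pow_le_four_pow (k : ℕ) : 2 ^ k ≤ 4 ^ k := Nat.pow_le_pow_left (by norm_num) k

theorem kas_mul {F : Type} [Field F] (k : ℕ) (z : F) :
    z ^ (4 ^ k - 2 ^ k + 1) * z ^ (2 ^ k) = z ^ (4 ^ k) * z := by
  rw [← pow_add, ← pow_succ]
  congr 1
  have := two_pow_le_four_pow k
  omega

theorem kas_shift {F : Type} [Field F] [Fintype F] (n k : ℕ) (hcard : Fintype.card F = 2 ^ n)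
    (z : F) : z ^ (4 ^ (k + n) - 2 ^ (k + n) + 1) = z ^ (4 ^ k - 2 ^ k + 1) := by
  by_cases hz : z = 0
  · rw [hz, zero_pow (by omega), zero_pow (by omega)]
  have h2n : ∀ w : F, w ^ (2 ^ n) = w := by
    intro w; rw [← hcard]; exact FiniteField.pow_card w
  have h4n : ∀ w : F, w ^ (4 ^ n) = w := by
    intro w
    rw [show (4 : ℕ) ^ n = 2 ^ n * 2 ^ n by rw [← mul_pow]; norm_num, pow_mul, h2n, h2n]
  have e1 : z ^ (2 ^ (k + n)) = z ^ (2 ^ k) := by
    rw [pow_add, pow_mul, h2n]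
  have e2 : z ^ (4 ^ (k + n)) = z ^ (4 ^ k) := by
    rw [pow_add, pow_mul, h4n]
  have h1 := kas_mul (k + n) z
  have h2 := kas_mul k z
  rw [e1, e2, ← h2] at h1
  exact mul_right_cancel₀ (pow_ne_zero _ hz) h1

theorem fK_shift {F : Type} [Field F] [Fintype F] (n k : ℕ) (hcard : Fintype.card F = 2 ^ n)
    (b : F) : fK (k + n) b = fK k b := by
  unfold fK
  rw [kas_shift n k hcard, kas_shift n k hcard]

theorem Delta_shift {F : Type} [Field F] [Fintype F] (n k : ℕ)
    (hcard : Fintype.card F = 2 ^ n) : DeltaK F (k + n) = DeltaK F k := by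
  unfold DeltaK
  congr 1
  funext b
  exact fK_shift n k hcard b

theorem good_k (n k : ℕ) (hcop : Nat.Coprime k n) :
    ∃ k' : ℕ, (k' = k ∨ k' = k + n) ∧ Nat.Coprime k' n ∧ Odd k' ∧ (Odd n ∨ ¬ 3 ∣ k') := by
  have hcop' : Nat.Coprime (k + n) n := by
    simpa using hcop
  rcases Nat.even_or_odd n with he | ho
  · have hk : Odd k := by
      by_contra h
      rw [Nat.not_odd_iff_even] at h
      have h2 : 2 ∣ Nat.gcd k n := Nat.dvd_gcd h.two_dvd he.two_dvd
      rw [hcop] at h2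
      omega
    by_cases h3 : 3 ∣ k
    · refine ⟨k + n, Or.inr rfl, hcop', hk.add_even he, Or.inr ?_⟩
      intro h4
      have h5 : 3 ∣ n := (Nat.dvd_add_right h3).1 h4
      have h6 : 3 ∣ Nat.gcd k n := Nat.dvd_gcd h3 h5
      rw [hcop] at h6
      omega
    · exact ⟨k, Or.inl rfl, hcop, hk, Or.inr h3⟩
  · rcases Nat.even_or_odd k with hke | hko
    · exact ⟨k + n, Or.inr rfl, hcop', hke.add_odd ho, Or.inl ho⟩
    · exact ⟨k, Or.inl rfl, hcop, hko, Or.inl ho⟩

/-- the assembly of piece F -/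
theorem assembly (hD : StmD) (hE : StmE) (hF1 : StmF1) (hF2 : StmF2)
    (F : Type) [Field F] [Fintype F] (n k : ℕ) (hcard : Fintype.card F = 2 ^ n)
    (hcop : Nat.Coprime k n) (v1 v2 : F) (h1 : v1 ≠ 0) (h2 : v2 ≠ 0) (h12 : v1 ≠ v2) :
    8 * NK (DeltaK F k) v1 v2 = (2 ^ n) ^ 2 := by
  haveI : Fact (Nat.Prime 2) := ⟨Nat.prime_two⟩
  have hn0 : n ≠ 0 := by
    rintro rfl
    have := Fintype.one_lt_card (α := F)
    rw [hcard] at this
    norm_num at this
  haveI : CharP F 2 := charP_of_card_eq_prime_pow hcard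
  obtain ⟨k', hk', hcop', hodd, hn3⟩ := good_k n k hcop
  have hDel : DeltaK F k' = DeltaK F k := by
    rcases hk' with h | h
    · rw [h]
    · rw [h]; exact Delta_shift n k hcard
  rw [← hDel]
  -- r
  obtain ⟨r, hr⟩ : ∃ r, 3 * r = 2 ^ k' + 1 := by
    obtain ⟨j, hj⟩ := hodd
    have : 3 ∣ 2 ^ k' + 1 := by
      rw [hj, pow_succ, pow_mul]
      have h4 : (2 ^ 2) ^ j % 3 = 1 := by
        rw [Nat.pow_mod]; norm_num
      omega
    obtain ⟨r, hr⟩ := this
    exact ⟨r, hr.symm⟩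
  obtain ⟨hE1, hcardD⟩ := hD F n k' r hcard hcop' hodd hn3 hr
  have hbij := stmA3 F n k' r hcard hcop' hodd hn3 hr
  have hr1 : 1 ≤ r := by
    have := Nat.one_le_two_pow (n := k'); omega
  have hEx := hE F n k' r hcard hcop' hodd hn3 hr
  have hlow := hF1 F r (DeltaK F k') hr1 hbij hE1 hEx
  have hsum := hF2 F (DeltaK F k') hcardD
  set S : Finset (F × F) := (univ : Finset (F × F)).filter
    (fun v => v.1 ≠ 0 ∧ v.2 ≠ 0 ∧ v.1 ≠ v.2) with hS
  set N : ℤ := (Fintype.card F : ℤ) with hN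
  have hScard : (S.card : ℤ) = (N - 1) * (N - 2) := by
    have hN2 : 2 ≤ Fintype.card F := by
      have := Fintype.one_lt_card (α := F); omega
    have e1 : S = (univ.erase (0 : F)).biUnion
        (fun a => ((univ.erase (0 : F)).erase a).image (fun b => (a, b))) := by
      ext ⟨a, b⟩
      simp only [hS, mem_filter, mem_univ, true_and, mem_biUnion, mem_erase, mem_image,
        Prod.mk.injEq, and_true, ne_eq]
      constructor
      · rintro ⟨ha, hb, hab⟩
        exact ⟨a, ha, b, ⟨fun h => hab h.symm, hb⟩, rfl, rfl⟩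
      · rintro ⟨a', ha', b', ⟨hb', hb0⟩, rfl, rfl⟩
        exact ⟨ha', hb0, fun h => hb' h.symm⟩
    rw [e1, Finset.card_biUnion]
    · have e2 : ∀ a ∈ univ.erase (0 : F),
          (((univ.erase (0 : F)).erase a).image (fun b => (a, b))).card
            = Fintype.card F - 2 := by
        intro a ha
        rw [Finset.card_image_of_injective _ (fun x y h => by simpa using h),
          Finset.card_erase_of_mem, Finset.card_erase_of_mem (mem_univ _), Finset.card_univ]
        · omega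
        · exact ha
      rw [Finset.sum_congr rfl e2, Finset.sum_const, Finset.card_erase_of_mem (mem_univ _),
        Finset.card_univ, smul_eq_mul]
      push_cast [Nat.cast_sub (show 1 ≤ Fintype.card F by omega), Nat.cast_sub hN2]
      ring
    · intro a _ a' _ haa'
      rw [Function.onFun, Finset.disjoint_left]
      rintro ⟨x, y⟩ hx hx'
      simp only [mem_image, Prod.mk.injEq] at hx hx'
      obtain ⟨_, _, rfl, _⟩ := hx
      obtain ⟨_, _, h, _⟩ := hx'
      exact haa' h.symm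
  have hle : ∀ v ∈ S, N ^ 2 ≤ 8 * NK (DeltaK F k') v.1 v.2 := by
    intro v hv
    simp only [hS, mem_filter, mem_univ, true_and] at hv
    exact hlow v.1 v.2 hv.1 hv.2.1 hv.2.2
  have hsum' : ∑ v ∈ S, N ^ 2 = ∑ v ∈ S, 8 * NK (DeltaK F k') v.1 v.2 := by
    rw [Finset.sum_const, ← Finset.mul_sum, hsum, nsmul_eq_mul, hScard]
  have hall := (Finset.sum_eq_sum_iff_of_le hle).1 hsum'
  have hv : (v1, v2) ∈ S := by
    simp only [hS, mem_filter, mem_univ, true_and]
    exact ⟨h1, h2, h12⟩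
  have := hall (v1, v2) hv
  rw [← this, hN, hcard]
  push_cast
  ring

/-- the final form, from the pieces -/
theorem final (hD : StmD) (hE : StmE) (hF1 : StmF1) (hF2 : StmF2)
    (F : Type) [Field F] [Fintype F] (n k : ℕ) (hcard : Fintype.card F = 2 ^ n)
    (hcop : Nat.Coprime k n) (v1 v2 : F) (h1 : v1 ≠ 0) (h2 : v2 ≠ 0) (h12 : v1 ≠ v2) :
    NK (DeltaK F k) v1 v2 = 2 ^ (2 * n - 3) := by
  have h := assembly hD hE hF1 hF2 F n k hcard hcop v1 v2 h1 h2 h12
  have hn2 : 2 ≤ n := by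
    by_contra hlt
    have h3 : ({0, v1, v2} : Finset F).card = 3 := by
      rw [Finset.card_eq_three]
      exact ⟨0, v1, v2, h1.symm, h2.symm, h12, rfl⟩
    have h4 : ({0, v1, v2} : Finset F).card ≤ Fintype.card F := Finset.card_le_univ _
    rw [h3, hcard] at h4
    have : n = 0 ∨ n = 1 := by omega
    rcases this with h | h <;> rw [h] at h4 <;> norm_num at h4
  have e : ((2 : ℤ) ^ n) ^ 2 = 8 * 2 ^ (2 * n - 3) := by
    rw [← pow_mul, show (8 : ℤ) = 2 ^ 3 by norm_num, ← pow_add]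
    congr 1
    omega
  rw [e] at h
  linarith

end

end Pool.Agent.R48.KT
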