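import Pool.Agent.R48.KT.Stm

/-!
# Kasami triple counts: D0, D1, D2, D3
-/

namespace Pool.Agent.R48.KT

open Finset
open scoped Classical

namespace D03

variable {K : Type} [Field K] [CharP K 2]

theorem two0 : (2 : K) = 0 := CharTwo.two_eq_zero

theorem padd (k : ℕ) (x y : K) : (x + y) ^ (2 ^ k) = x ^ (2 ^ k) + y ^ (2 ^ k) :=
  add_pow_char_pow x y 2 k

theorem pinj (k : ℕ) (x y : K) (h : x ^ (2 ^ k) = y ^ (2 ^ k)) : x = y := by
  have h1 : (iterateFrobenius K 2 k) x = (iterateFrobenius K 2 k) y := by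
    simpa [iterateFrobenius_def] using h
  exact (iterateFrobenius K 2 k).injective h1

theorem sqinj (x y : K) (h : x ^ 2 = y ^ 2) : x = y := by
  apply pinj 1 x y
  simpa using h

theorem psurj [Fintype K] (k : ℕ) (x : K) : ∃ y : K, y ^ (2 ^ k) = x := by
  have h1 : Function.Surjective (iterateFrobenius K 2 k) :=
    Finite.surjective_of_injective (iterateFrobenius K 2 k).injective
  obtain ⟨y, hy⟩ := h1 x
  exact ⟨y, by simpa [iterateFrobenius_def] using hy⟩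

theorem sqsurj [Fintype K] (x : K) : ∃ y : K, y ^ 2 = x := by
  obtain ⟨y, hy⟩ := psurj 1 x
  exact ⟨y, by simpa using hy⟩

end D03

open D03

theorem D0 : StmD0 := by
  intro K _ _ k b hk hb0 hb1
  have h2 : (2 : K) = 0 := two0
  have hle : 2 ^ k ≤ 4 ^ k := Nat.pow_le_pow_left (by norm_num) k
  have e1 : ∀ x : K, x ^ (4 ^ k - 2 ^ k + 1) * x ^ (2 ^ k) = (x ^ (2 ^ k)) ^ (2 ^ k) * x := by
    intro x
    rw [← pow_add, ← pow_mul, ← pow_succ]
    congr 1
    have : 2 ^ k * 2 ^ k = 4 ^ k := by rw [← Nat.mul_pow]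
    omega
  have hb1' : (b + 1) ^ (2 ^ k) = b ^ (2 ^ k) + 1 := by rw [padd, one_pow]
  have hb2' : ((b + 1) ^ (2 ^ k)) ^ (2 ^ k) = (b ^ (2 ^ k)) ^ (2 ^ k) + 1 := by
    rw [hb1', padd, one_pow]
  have e2 : (b ^ 2 + b) ^ (2 ^ k) = b ^ (2 ^ k) * (b + 1) ^ (2 ^ k) := by
    rw [← mul_pow]; congr 1; ring
  have e3 : (b ^ (2 ^ k) + b) ^ (2 ^ k + 1) =
      ((b ^ (2 ^ k)) ^ (2 ^ k) + b ^ (2 ^ k)) * (b ^ (2 ^ k) + b) := by
    rw [pow_succ, padd]
  have f1 := e1 b
  have f2 := e1 (b + 1)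
  rw [hb2', hb1'] at f2
  rw [e3, e2, fK, hb1']
  set B := b ^ (2 ^ k)
  set C := B ^ (2 ^ k)
  set U := b ^ (4 ^ k - 2 ^ k + 1)
  set V := (b + 1) ^ (4 ^ k - 2 ^ k + 1)
  linear_combination (B + 1) * f1 + B * f2 + (B + C * b * B) * h2


namespace D03

variable {K : Type} [Field K] [CharP K 2]

theorem ne_one_of (x : K) (h : x + 1 ≠ 0) : x ≠ 1 := by
  rintro rfl
  apply h
  have h2 : (2 : K) = 0 := two0
  linear_combination h2

theorem add_one_ne (x : K) (h : x ≠ 1) : x + 1 ≠ 0 := by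
  intro h1
  apply h
  have h2 : (2 : K) = 0 := two0
  linear_combination h1 - h2

/-- the square root form of D0 -/
theorem D0' (k : ℕ) (hk : 1 ≤ k) (b be a : K) (hb0 : b ≠ 0) (hb1 : b ≠ 1) (hbe : be ^ 2 = b)
    (h0 : StmD0) (hb : b ^ (2 ^ k) + b ≠ 0) :
    fK k b * a ^ 2 = 1 ↔ (be ^ (2 ^ k) + be) ^ (2 ^ k + 1) * a = (be ^ 2 + be) ^ (2 ^ k) := by
  have h2 : (2 : K) = 0 := two0
  have hd := h0 K k b hk hb0 hb1
  have hbb : (b ^ 2 + b) ^ (2 ^ k) ≠ 0 := by
    apply pow_ne_zero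
    have : b ^ 2 + b = b * (b + 1) := by ring
    rw [this]
    exact mul_ne_zero hb0 (add_one_ne b hb1)
  have e1 : (b ^ 2 + b) ^ (2 ^ k) = ((be ^ 2 + be) ^ (2 ^ k)) ^ 2 := by
    rw [← pow_mul, mul_comm (2 ^ k) 2, pow_mul]
    congr 1
    rw [← hbe]
    linear_combination (-(be ^ 3)) * h2
  have e2 : (b ^ (2 ^ k) + b) ^ (2 ^ k + 1) = ((be ^ (2 ^ k) + be) ^ (2 ^ k + 1)) ^ 2 := by
    rw [← pow_mul, mul_comm (2 ^ k + 1) 2, pow_mul]
    congr 1
    rw [← hbe]
    have : (be ^ 2) ^ (2 ^ k) = (be ^ (2 ^ k)) ^ 2 := by rw [← pow_mul, ← pow_mul, mul_comm]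
    rw [this]
    linear_combination (-(be ^ (2 ^ k) * be)) * h2
  constructor
  · intro h
    apply sqinj
    rw [mul_pow, ← e1, ← e2, ← hd]
    linear_combination ((b ^ 2 + b) ^ (2 ^ k)) * h
  · intro h
    have h3 : (fK k b * a ^ 2) * (b ^ 2 + b) ^ (2 ^ k) = 1 * (b ^ 2 + b) ^ (2 ^ k) := by
      have h4 : (fK k b * a ^ 2) * (b ^ 2 + b) ^ (2 ^ k) =
          (fK k b * (b ^ 2 + b) ^ (2 ^ k)) * a ^ 2 := by ring
      rw [h4, hd, e2, e1, ← mul_pow, h, one_mul]
    exact mul_right_cancel₀ hbb h3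

theorem tau_ne (k : ℕ) (hA : HypA K k) (b : K) (hb0 : b ≠ 0) (hb1 : b ≠ 1) :
    b ^ (2 ^ k) + b ≠ 0 := by
  intro h
  have h2 : (2 : K) = 0 := two0
  have : b ^ (2 ^ k) = b := by linear_combination h - b * h2
  rcases hA b this with h | h
  · exact hb0 h
  · exact hb1 h

end D03

theorem D1 (h0 : StmD0) : StmD1 := by
  intro K _ _ _ k hk hA b be rho hb0 hb1 hbe hrho
  have h2 : (2 : K) = 0 := two0
  have hbe0 : be ≠ 0 := by rintro rfl; apply hb0; rw [← hbe]; ring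
  have hbe1 : be ≠ 1 := by rintro rfl; apply hb1; rw [← hbe]; ring
  have htau := tau_ne k hA be hbe0 hbe1
  have htb := tau_ne k hA b hb0 hb1
  have hr1 : rho ≠ 1 := by
    rintro rfl
    rw [one_pow, one_mul] at hrho
    exact one_ne_zero (by linear_combination hrho : (1 : K) = 0)
  have hr1' := add_one_ne rho hr1
  set th := rho / (rho + 1) with hth
  have hrth : rho = th * (rho + 1) := by rw [hth]; field_simp
  have hth1 : (th + 1) * (rho + 1) = 1 := by
    rw [add_mul, ← hrth]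
    linear_combination rho * h2
  have hE : th ^ (2 ^ k) * th + be * (th ^ (2 ^ k) + th + 1) = 0 := by
    -- rho^(q+1) (be+1) = be, multiply by (th+1)^(q+1)
    have h3 : th = (th + 1) * rho := by
      have h4 : (th + 1) * rho = (th + 1) * (rho + 1) - (th + 1) := by ring
      rw [h4, hth1]
      linear_combination th * h2
    have h5 : th ^ (2 ^ k + 1) * (be + 1) = be * (th + 1) ^ (2 ^ k + 1) := by
      calc th ^ (2 ^ k + 1) * (be + 1) = ((th + 1) * rho) ^ (2 ^ k + 1) * (be + 1) := by rw [← h3]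
        _ = (th + 1) ^ (2 ^ k + 1) * (rho ^ (2 ^ k + 1) * (be + 1)) := by rw [mul_pow]; ring
        _ = be * (th + 1) ^ (2 ^ k + 1) := by rw [hrho]; ring
    rw [pow_succ, pow_succ, padd, one_pow] at h5
    linear_combination h5 + (be * (th ^ (2 ^ k) + th + 1)) * h2
  set g := be + th with hg
  set tau := be ^ (2 ^ k) + be with htaudef
  have hG : g ^ (2 ^ k) * g + g * tau = be ^ 2 + be := by
    rw [hg, padd, htaudef]
    linear_combination hE + (be ^ (2 ^ k) * be + be ^ (2 ^ k) * th - be) * h2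
  set h := g ^ (2 ^ k) / tau with hh
  have hht : h * tau = g ^ (2 ^ k) := by rw [hh]; field_simp
  have hmain : tau ^ (2 ^ k + 1) * (h ^ (2 ^ k + 1) + h) = (be ^ 2 + be) ^ (2 ^ k) := by
    have h5 : (g ^ (2 ^ k)) ^ (2 ^ k) * g ^ (2 ^ k) + g ^ (2 ^ k) * tau ^ (2 ^ k) =
        (be ^ 2 + be) ^ (2 ^ k) := by
      rw [← hG]
      clear_value g tau
      rw [padd k (g ^ (2 ^ k) * g) (g * tau), mul_pow, mul_pow]
    rw [← h5, ← hht, mul_pow, pow_succ, pow_succ]
    ring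
  have hbb : (be ^ 2 + be) ^ (2 ^ k) ≠ 0 := by
    apply pow_ne_zero
    have : be ^ 2 + be = be * (be + 1) := by ring
    rw [this]
    exact mul_ne_zero hbe0 (add_one_ne be hbe1)
  refine ⟨h, ?_, ?_, ?_⟩
  · intro h6
    rw [h6] at hmain
    apply hbb
    rw [← hmain]
    simp
  · intro h6
    rw [h6] at hmain
    apply hbb
    rw [← hmain]
    have : (1 : K) ^ (2 ^ k + 1) + 1 = 0 := by rw [one_pow]; linear_combination h2
    rw [this, mul_zero]
  · rw [D0' k hk b be _ hb0 hb1 hbe h0 htb]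
    exact hmain

namespace D03

/-- structure of the solutions `b` for given `h` -/
theorem struct {K : Type} [Field K] [Fintype K] [CharP K 2] (h0 : StmD0) (h1u : StmA1u)
    (k : ℕ) (hk : 1 ≤ k) (hA : HypA K k) (h pi b : K) (hh0 : h ≠ 0) (hpi0 : pi ≠ 0)
    (hpi : h * pi ^ (2 ^ k) = (h + 1) * pi) (hb0 : b ≠ 0) (hb1 : b ≠ 1)
    (hb : fK k b * (h ^ (2 ^ k + 1) + h) ^ 2 = 1) :
    ∃ be th : K, be ^ 2 = b ∧ th ^ (2 ^ k) + th + 1 = pi ∧ be * pi = th ^ (2 ^ k) * th := by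
  have h2 : (2 : K) = 0 := two0
  obtain ⟨be, hbe⟩ := sqsurj b
  have hbe0 : be ≠ 0 := by rintro rfl; apply hb0; rw [← hbe]; ring
  have hbe1 : be ≠ 1 := by rintro rfl; apply hb1; rw [← hbe]; ring
  have htau := tau_ne k hA be hbe0 hbe1
  have htb := tau_ne k hA b hb0 hb1
  rw [D0' k hk b be _ hb0 hb1 hbe h0 htb] at hb
  set tau := be ^ (2 ^ k) + be with htaudef
  obtain ⟨g, hg⟩ := psurj k (h * tau)
  have hG : g ^ (2 ^ k) * g + g * tau = be ^ 2 + be := by
    apply pinj k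
    rw [← hb, padd, mul_pow, mul_pow, hg, mul_pow, pow_succ, pow_succ]
    ring
  set th := g + be with hth
  have hgth : g = th + be := by rw [hth]; linear_combination (-be) * h2
  have hE : th ^ (2 ^ k) * th + be * (th ^ (2 ^ k) + th + 1) = 0 := by
    rw [hgth, padd, htaudef] at hG
    linear_combination hG + (-(be ^ (2 ^ k) * be) - be ^ (2 ^ k) * th + be * 1) * h2
  set P := th ^ (2 ^ k) + th + 1 with hP
  have hP0 : P ≠ 0 := by
    intro h3
    rw [h3, mul_zero, add_zero] at hE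
    have : th = 0 := by
      rcases mul_eq_zero.mp hE with h4 | h4
      · exact pow_eq_zero_iff (pow_ne_zero _ two_ne_zero) |>.mp h4
      · exact h4
    rw [this] at hP
    rw [h3] at hP
    simp at hP
  have hPE : be * P = th ^ (2 ^ k) * th := by
    linear_combination hE - (th ^ (2 ^ k) * th) * h2
  have hPq : be ^ (2 ^ k) * P ^ (2 ^ k) = (th ^ (2 ^ k)) ^ (2 ^ k) * th ^ (2 ^ k) := by
    rw [← mul_pow, hPE, mul_pow]
  have hPq2 : P ^ (2 ^ k) = (th ^ (2 ^ k)) ^ (2 ^ k) + th ^ (2 ^ k) + 1 := by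
    rw [hP, padd, padd, one_pow]
  have hkey : h * P ^ (2 ^ k) = (h + 1) * P := by
    have h5 : tau * (h * (P ^ (2 ^ k) + P)) = tau * P := by
      have h6 : tau * (h * (P ^ (2 ^ k) + P)) = g ^ (2 ^ k) * (P ^ (2 ^ k) + P) := by
        rw [hg]; ring
      rw [h6, hgth, padd, htaudef]
      linear_combination hPq + (th ^ (2 ^ k)) * hPq2 + (th ^ (2 ^ k)) * hP - hPE +
        ((th ^ (2 ^ k)) ^ (2 ^ k) * th ^ (2 ^ k) + (th ^ (2 ^ k)) ^ 2 + th ^ (2 ^ k)) * h2
    have h7 := mul_left_cancel₀ htau h5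
    linear_combination h7 - (h * P) * h2
  have hPpi : P = pi := by
    apply h1u K k hA ((h + 1) / h) P pi hP0 hpi0
    · field_simp
      linear_combination hkey
    · field_simp
      linear_combination hpi
  refine ⟨be, th, hbe, hPpi, ?_⟩
  rw [← hPpi]
  exact hPE

end D03

theorem D2 (h0 : StmD0) (h1u : StmA1u) (hA2 : StmA2) : StmD2 := by
  intro K _ _ _ k hk hA h pi hh0 hh1 hpi0 hpi
  have h2 : (2 : K) = 0 := two0
  refine ⟨?_, ?_, ?_⟩
  · intro hchi
    obtain ⟨y, hy⟩ := (hA2 K k hA (1 + pi)).1 hchi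
    have hP : pi = y ^ (2 ^ k) + y + 1 := by linear_combination (-1 : K) * hy - h2
    have hP1 : pi ^ (2 ^ k) = (y ^ (2 ^ k)) ^ (2 ^ k) + y ^ (2 ^ k) + 1 := by
      rw [hP, padd, padd, one_pow]
    have hne : pi ≠ 1 := by
      rintro rfl
      rw [one_pow] at hpi
      exact one_ne_zero (by linear_combination (-1 : K) * hpi : (1 : K) = 0)
    have hy0 : y ≠ 0 := by
      rintro rfl
      apply hne
      rw [hP]
      simp
    have hy1 : y ≠ 1 := by
      rintro rfl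
      apply hne
      rw [hP]
      rw [one_pow]
      linear_combination h2
    have hy1' := add_one_ne y hy1
    set Y1 := y ^ (2 ^ k) with hY1
    set Y2 := Y1 ^ (2 ^ k) with hY2
    set P1 := pi ^ (2 ^ k) with hP1def
    set P2 := P1 ^ (2 ^ k) with hP2def
    have hY10 : Y1 ≠ 0 := pow_ne_zero _ hy0
    have hP10 : P1 ≠ 0 := pow_ne_zero _ hpi0
    have hP20 : P2 ≠ 0 := pow_ne_zero _ hP10
    set be := (y + 1) * (Y1 + 1) / pi with hbe
    have hbepi : be * pi = (y + 1) * (Y1 + 1) := by rw [hbe]; field_simp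
    have hbepi1 : (be + 1) * pi = y * Y1 := by
      rw [add_mul, hbepi, one_mul, hP]
      linear_combination (y + Y1 + 1) * h2
    have hY11 : Y1 + 1 ≠ 0 := by
      have : Y1 + 1 = (y + 1) ^ (2 ^ k) := by rw [padd, one_pow]
      rw [this]
      exact pow_ne_zero _ hy1'
    have hbe0 : be ≠ 0 := by
      rw [hbe]
      exact div_ne_zero (mul_ne_zero hy1' hY11) hpi0
    have hbe1 : be ≠ 1 := by
      rintro h3
      rw [h3] at hbepi1
      have h4 : y * Y1 = 0 := by rw [← hbepi1]; linear_combination pi * h2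
      exact mul_ne_zero hy0 hY10 h4
    have hb0 : be ^ 2 ≠ 0 := pow_ne_zero _ hbe0
    have hb1 : be ^ 2 ≠ 1 := by
      intro h3
      apply hbe1
      apply sqinj
      rw [h3]; ring
    refine ⟨be ^ 2, hb0, hb1, ?_⟩
    have htb := tau_ne k hA _ hb0 hb1
    rw [D0' k hk (be ^ 2) be _ hb0 hb1 rfl h0 htb]
    have hbq : be ^ (2 ^ k) * P1 = (Y1 + 1) * (Y2 + 1) := by
      rw [hP1def, ← mul_pow, hbepi, mul_pow, padd, padd, one_pow]
    -- tau
    set tau := be ^ (2 ^ k) + be with htau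
    have htau1 : tau * (pi * P1) = Y1 * (Y1 + 1) * (pi + P1) := by
      have e1 : tau * (pi * P1) = (be ^ (2 ^ k) * P1) * pi + (be * pi) * P1 := by
        rw [htau]; ring
      rw [e1, hbq, hbepi, hP1, hP]
      linear_combination ((Y1 + 1) * (Y2 + y * Y2 + Y1 + y + 1 - Y1 ^ 2) - Y1 - Y1 ^ 2) * h2
    have htau2 : tau ^ (2 ^ k) * (P1 * P2) = Y2 * (Y2 + 1) * (P1 + P2) := by
      have e1 := congrArg (fun x => x ^ (2 ^ k)) htau1
      simp only [mul_pow, padd, one_pow] at e1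
      simpa [← hP1def, ← hP2def, ← hY2] using e1
    have hhP : h * (pi + P1) = pi := by linear_combination hpi - (h * P1) * h2 + (h * P1 + pi * h) * h2
    have hhP1 : (h + 1) * (pi + P1) = P1 := by
      linear_combination hhP + pi * h2
    have hhP2 : (h ^ (2 ^ k) + 1) * (P1 + P2) = P2 := by
      have e1 := congrArg (fun x => x ^ (2 ^ k)) hhP1
      simp only [mul_pow, padd, one_pow] at e1
      simpa [← hP1def, ← hP2def] using e1
    have hs1 : pi + P1 ≠ 0 := by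
      intro h3
      rw [h3, mul_zero] at hhP
      exact hpi0 hhP.symm
    have hs2 : P1 + P2 ≠ 0 := by
      intro h3
      rw [h3, mul_zero] at hhP2
      exact hP20 hhP2.symm
    have hq : (be ^ 2 + be) ^ (2 ^ k) * P1 ^ 2 = (Y1 + 1) * (Y2 + 1) * (Y1 * Y2) := by
      have e1 : (be ^ 2 + be) * pi ^ 2 = (y + 1) * (Y1 + 1) * (y * Y1) := by
        rw [← hbepi, ← hbepi1]; ring
      have e2 := congrArg (fun x => x ^ (2 ^ k)) e1
      simp only [mul_pow] at e2
      rw [padd k y 1, padd k Y1 1, one_pow, ← pow_mul, mul_comm 2, pow_mul] at e2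
      rw [← hY1, ← hY2, ← hP1def] at e2
      exact e2
    have hfin : (tau ^ (2 ^ k + 1) * (h ^ (2 ^ k + 1) + h)) * (P1 ^ 2 * (pi * P2 * (pi + P1) * (P1 + P2))) =
        (be ^ 2 + be) ^ (2 ^ k) * (P1 ^ 2 * (pi * P2 * (pi + P1) * (P1 + P2))) := by
      have e1 : (tau ^ (2 ^ k + 1) * (h ^ (2 ^ k + 1) + h)) * (P1 ^ 2 * (pi * P2 * (pi + P1) * (P1 + P2)))
          = (tau ^ (2 ^ k) * (P1 * P2)) * (tau * (pi * P1)) * (h * (pi + P1)) *
            ((h ^ (2 ^ k) + 1) * (P1 + P2)) := by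
        rw [pow_succ, pow_succ]; ring
      have e2 : (be ^ 2 + be) ^ (2 ^ k) * (P1 ^ 2 * (pi * P2 * (pi + P1) * (P1 + P2))) =
          ((be ^ 2 + be) ^ (2 ^ k) * P1 ^ 2) * (pi * P2 * (pi + P1) * (P1 + P2)) := by ring
      rw [e1, e2, htau1, htau2, hhP, hhP2, hq]
      ring
    refine mul_right_cancel₀ ?_ hfin
    exact mul_ne_zero (pow_ne_zero _ hP10)
      (mul_ne_zero (mul_ne_zero (mul_ne_zero hpi0 hP20) hs1) hs2)
  · intro b hb0 hb1 hb
    obtain ⟨be, th, _, h3, _⟩ := D03.struct h0 h1u k hk hA h pi b hh0 hpi0 hpi hb0 hb1 hb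
    rw [hA2 K k hA]
    refine ⟨th, ?_⟩
    rw [← h3]
    linear_combination (-1 : K) * h2
  · intro b b' hb0 hb1 hb0' hb1' hb hb'
    obtain ⟨be, th, h3, h4, h5⟩ := D03.struct h0 h1u k hk hA h pi b hh0 hpi0 hpi hb0 hb1 hb
    obtain ⟨be', th', h3', h4', h5'⟩ := D03.struct h0 h1u k hk hA h pi b' hh0 hpi0 hpi hb0' hb1' hb'
    have h6 : (th' + th) ^ (2 ^ k) = th' + th := by
      rw [padd]
      linear_combination h4' + h4 + (pi - th' - th - 1) * h2
    rcases hA _ h6 with h7 | h7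
    · left
      have h8 : th' = th := by linear_combination h7 - th * h2
      rw [h8, ← h5] at h5'
      have h9 : be' = be := mul_right_cancel₀ hpi0 h5'
      rw [← h3', ← h3, h9]
    · right
      have h8 : th' = th + 1 := by linear_combination h7 - th * h2
      rw [h8, padd, one_pow] at h5'
      have h9 : be' * pi = (be + 1) * pi := by
        linear_combination h5' - h5 + h4
      have h10 : be' = be + 1 := mul_right_cancel₀ hpi0 h9
      rw [← h3', ← h3, h10]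
      linear_combination be * h2

theorem D3 (hA2 : StmA2) : StmD3 := by
  intro K _ _ _ k hA h h' pi hh0 hh1 hh0' hh1' hne heq hpi0 hpi
  have h2 : (2 : K) = 0 := two0
  set d := h' + h with hd
  have hd0 : d ≠ 0 := by
    intro h3
    apply hne
    linear_combination (-1 : K) * h3 + h * h2
  have hh' : h' = h + d := by rw [hd]; linear_combination (-h) * h2
  set u := d⁻¹ with hu
  have hud : u * d = 1 := by rw [hu]; field_simp
  have e1 : h ^ (2 ^ k) * d + d ^ (2 ^ k) * h + d ^ (2 ^ k) * d + d = 0 := by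
    rw [hh', pow_succ, pow_succ, padd] at heq
    linear_combination (-1 : K) * heq
  have hudq : u ^ (2 ^ k) * d ^ (2 ^ k) = 1 := by rw [← mul_pow, hud, one_pow]
  have e2 : h * u + (h + 1) ^ (2 ^ k) * u ^ (2 ^ k) = 1 := by
    rw [padd, one_pow]
    have e3 : (h ^ (2 ^ k) * d + d ^ (2 ^ k) * h + d ^ (2 ^ k) * d + d) * (u * u ^ (2 ^ k)) = 0 := by
      rw [e1, zero_mul]
    have e4 : (h ^ (2 ^ k) * d + d ^ (2 ^ k) * h + d ^ (2 ^ k) * d + d) * (u * u ^ (2 ^ k)) =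
        h ^ (2 ^ k) * u ^ (2 ^ k) * (u * d) + h * u * (u ^ (2 ^ k) * d ^ (2 ^ k)) +
        (u ^ (2 ^ k) * d ^ (2 ^ k)) * (u * d) + u ^ (2 ^ k) * (u * d) := by ring
    rw [e4, hud, hudq] at e3
    linear_combination e3 - h2
  have hpiq : h ^ (2 ^ k) * (pi ^ (2 ^ k)) ^ (2 ^ k) = (h + 1) ^ (2 ^ k) * pi ^ (2 ^ k) := by
    rw [← mul_pow, hpi, mul_pow]
  have hm : (h * u * pi ^ (2 ^ k)) ^ (2 ^ k) + (h * u * pi ^ (2 ^ k)) = pi ^ (2 ^ k) := by
    rw [mul_pow, mul_pow]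
    linear_combination (u ^ (2 ^ k)) * hpiq + pi ^ (2 ^ k) * e2
  have hc : chi (pi ^ (2 ^ k)) = 1 := (hA2 K k hA _).2 ⟨_, hm⟩
  rw [chi_pow_two_pow] at hc
  exact hc

end Pool.Agent.R48.KT
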