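import Pool.Agent.R48.KT.Stm

/-!
# Kasami triple counts: F2
-/

namespace Pool.Agent.R48.KT

open Finset
open scoped Classical

namespace F2aux

variable {F : Type} [Field F] [Fintype F] [CharP F 2]

theorem cnt (A B : F) :
    ((univ.filter fun v : F × F => (v.1 ≠ 0 ∧ v.2 ≠ 0 ∧ v.1 ≠ v.2) ∧ v.1 * A + v.2 * B = 0).card : ℤ)
      = if A = 0 ∧ B = 0 then ((Fintype.card F : ℤ) - 1) * ((Fintype.card F : ℤ) - 2)
        else if A ≠ 0 ∧ B ≠ 0 ∧ A ≠ B then (Fintype.card F : ℤ) - 1 else 0 := by
  have h2 : (2 : F) = 0 := CharTwo.two_eq_zero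
  have hN : 1 ≤ Fintype.card F := Fintype.card_pos
  have hN2 : 2 ≤ Fintype.card F := Fintype.one_lt_card
  have hne : ((univ.erase (0 : F)).card : ℤ) = (Fintype.card F : ℤ) - 1 := by
    rw [Finset.card_erase_of_mem (mem_univ _), Finset.card_univ]
    push_cast [hN]
    ring
  split_ifs with h h'
  · obtain ⟨rfl, rfl⟩ := h
    have e1 : (univ.filter fun v : F × F => (v.1 ≠ 0 ∧ v.2 ≠ 0 ∧ v.1 ≠ v.2) ∧
        v.1 * (0 : F) + v.2 * 0 = 0) = (univ.erase (0 : F)).offDiag := by
      ext v
      simp [mem_offDiag]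
    rw [e1, Finset.offDiag_card, Nat.cast_sub (Nat.le_mul_self _), Nat.cast_mul, hne]
    ring
  · obtain ⟨hA, hB, hAB⟩ := h'
    rw [← hne]
    congr 1
    apply Finset.card_bij' (fun v _ => v.1) (fun a _ => (a, a * A / B))
    · intro v hv
      simp only [mem_filter, mem_univ, true_and] at hv
      simp [hv.1.1]
    · intro a ha
      have ha0 : a ≠ 0 := by simpa using ha
      simp only [mem_filter, mem_univ, true_and]
      refine ⟨⟨ha0, div_ne_zero (mul_ne_zero ha0 hA) hB, ?_⟩, ?_⟩
      · intro h3
        apply hAB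
        have h4 : a * B = a * A := by
          rw [eq_div_iff hB] at h3
          exact h3
        exact (mul_left_cancel₀ ha0 h4).symm
      · field_simp
        linear_combination (a * A) * h2
    · rintro ⟨v1, v2⟩ hv
      simp only [mem_filter, mem_univ, true_and] at hv
      simp only [Prod.mk.injEq, true_and]
      rw [div_eq_iff hB]
      linear_combination hv.2 - (v2 * B) * h2
    · intro a _
      rfl
  · rw [Nat.cast_eq_zero, Finset.card_eq_zero, Finset.filter_eq_empty_iff]
    rintro ⟨v1, v2⟩ _ ⟨⟨h1, h3, h4⟩, h5⟩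
    simp only at h1 h3 h4 h5
    by_cases hA : A = 0
    · subst hA
      have hB : B ≠ 0 := fun hB => h ⟨rfl, hB⟩
      rw [mul_zero, zero_add] at h5
      exact (mul_ne_zero h3 hB) h5
    · by_cases hB : B = 0
      · subst hB
        rw [mul_zero, add_zero] at h5
        exact (mul_ne_zero h1 hA) h5
      · have hAB : A = B := by
          by_contra hAB
          exact h' ⟨hA, hB, hAB⟩
        subst hAB
        have h6 : (v1 + v2) * A = 0 := by rw [add_mul]; exact h5
        rcases mul_eq_zero.mp h6 with h7 | h7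
        · apply h4
          linear_combination h7 - v2 * h2
        · exact hA h7

end F2aux

open F2aux

theorem F2 : StmF2 := by
  intro F _ _ _ D hD
  have h2 : (2 : F) = 0 := CharTwo.two_eq_zero
  set N : ℤ := (Fintype.card F : ℤ) with hN
  set d : ℤ := (D.card : ℤ) with hd
  have hDN : 2 * d = N := by rw [hN, hd]; exact_mod_cast hD
  have hNK : ∀ v : F × F, NK D v.1 v.2 = ∑ x ∈ D, ∑ y ∈ D, ∑ z ∈ D,
      (if v.1 * x + v.2 * y + (v.1 + v.2) * z = 0 then (1 : ℤ) else 0) := by
    intro v
    unfold NK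
    have e1 : (univ.filter fun p : F × F × F => p.1 ∈ D ∧ p.2.1 ∈ D ∧ p.2.2 ∈ D ∧
        v.1 * p.1 + v.2 * p.2.1 + (v.1 + v.2) * p.2.2 = 0) =
        (D ×ˢ D ×ˢ D).filter (fun p : F × F × F =>
          v.1 * p.1 + v.2 * p.2.1 + (v.1 + v.2) * p.2.2 = 0) := by
      ext p
      simp only [mem_filter, mem_univ, true_and, mem_product]
      tauto
    rw [e1, Finset.card_filter]
    push_cast
    rw [Finset.sum_product]
    apply Finset.sum_congr rfl
    intro x _
    rw [Finset.sum_product]
  have hsum : ∑ v ∈ (univ : Finset (F × F)).filter (fun v => v.1 ≠ 0 ∧ v.2 ≠ 0 ∧ v.1 ≠ v.2),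
      NK D v.1 v.2 = ∑ x ∈ D, ∑ y ∈ D, ∑ z ∈ D,
        (if x = z ∧ y = z then (N - 1) * (N - 2)
          else if x ≠ z ∧ y ≠ z ∧ x ≠ y then N - 1 else 0) := by
    rw [Finset.sum_congr rfl (fun v _ => hNK v), Finset.sum_comm]
    apply Finset.sum_congr rfl
    intro x _
    rw [Finset.sum_comm]
    apply Finset.sum_congr rfl
    intro y _
    rw [Finset.sum_comm]
    apply Finset.sum_congr rfl
    intro z _
    have e1 := cnt (x + z) (y + z)
    have e2 : ∀ a b : F, a + b = 0 ↔ a = b := by
      intro a b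
      constructor
      · intro h; linear_combination h - b * h2
      · intro h; rw [h]; linear_combination b * h2
    have e3 : x + z = y + z ↔ x = y := by
      constructor
      · intro h; exact add_right_cancel h
      · intro h; rw [h]
    have e5 : (if x = z ∧ y = z then (N - 1) * (N - 2)
          else if x ≠ z ∧ y ≠ z ∧ x ≠ y then N - 1 else 0) =
          (if x + z = 0 ∧ y + z = 0 then ((Fintype.card F : ℤ) - 1) * ((Fintype.card F : ℤ) - 2)
        else if x + z ≠ 0 ∧ y + z ≠ 0 ∧ x + z ≠ y + z then (Fintype.card F : ℤ) - 1 else 0) := by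
      simp only [e2, e3, Ne, hN]
    rw [e5, ← e1, ← Finset.sum_filter, Finset.filter_filter, Finset.sum_const, nsmul_eq_mul, mul_one]
    congr 2
    ext v
    simp only [mem_filter, mem_univ, true_and]
    have e4 : v.1 * x + v.2 * y + (v.1 + v.2) * z = v.1 * (x + z) + v.2 * (y + z) := by ring
    rw [e4]
  have hxy : ∀ x ∈ D, ∀ y ∈ D, ∑ z ∈ D,
        (if x = z ∧ y = z then (N - 1) * (N - 2)
          else if x ≠ z ∧ y ≠ z ∧ x ≠ y then N - 1 else 0) =
        if x = y then (N - 1) * (N - 2) else (N - 1) * (d - 2) := by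
    intro x hx y hy
    split_ifs with h
    · subst h
      have e1 : ∀ z ∈ D, (if x = z ∧ x = z then (N - 1) * (N - 2)
          else if x ≠ z ∧ x ≠ z ∧ x ≠ x then N - 1 else 0) =
          if x = z then (N - 1) * (N - 2) else 0 := by
        intro z _
        by_cases hz : x = z
        · simp [hz]
        · simp [hz]
      rw [Finset.sum_congr rfl e1, Finset.sum_ite_eq, if_pos hx]
    · have e1 : ∀ z ∈ D, (if x = z ∧ y = z then (N - 1) * (N - 2)
          else if x ≠ z ∧ y ≠ z ∧ x ≠ y then N - 1 else 0) =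
          if z ∈ (D.erase x).erase y then N - 1 else 0 := by
        intro z hz
        by_cases h1 : x = z
        · subst h1
          have : ¬ y = x := fun h3 => h h3.symm
          simp [this]
        · by_cases h3 : y = z
          · subst h3
            simp [h1]
          · have h4 : z ≠ x := fun h5 => h1 h5.symm
            have h6 : z ≠ y := fun h5 => h3 h5.symm
            simp [h1, h3, h, h4, h6, hz]
      rw [Finset.sum_congr rfl e1, ← Finset.sum_filter]
      have e2 : D.filter (fun z => z ∈ (D.erase x).erase y) = (D.erase x).erase y := by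
        ext z
        simp only [mem_filter, mem_erase]
        tauto
      rw [e2, Finset.sum_const, nsmul_eq_mul]
      have hyx : y ∈ D.erase x := mem_erase.mpr ⟨fun h3 => h h3.symm, hy⟩
      have hc : ((D.erase x).erase y).card + 2 = D.card := by
        rw [Finset.card_erase_of_mem hyx, Finset.card_erase_of_mem hx]
        have h5 : 0 < (D.erase x).card := Finset.card_pos.mpr ⟨y, hyx⟩
        rw [Finset.card_erase_of_mem hx] at h5
        omega
      have hc' : (((D.erase x).erase y).card : ℤ) = d - 2 := by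
        rw [hd, ← hc]; push_cast; ring
      rw [hc']; ring
  rw [hsum, Finset.sum_congr rfl (fun x hx => Finset.sum_congr rfl (hxy x hx))]
  have hx2 : ∀ x ∈ D, ∑ y ∈ D, (if x = y then (N - 1) * (N - 2) else (N - 1) * (d - 2)) =
      (N - 1) * (N - 2) + (d - 1) * ((N - 1) * (d - 2)) := by
    intro x hx
    rw [← Finset.add_sum_erase D _ hx, if_pos rfl]
    congr 1
    have e1 : ∀ y ∈ D.erase x, (if x = y then (N - 1) * (N - 2) else (N - 1) * (d - 2)) =
        (N - 1) * (d - 2) := by
      intro y hy
      rw [if_neg]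
      intro h3
      exact (mem_erase.mp hy).1 h3.symm
    rw [Finset.sum_congr rfl e1, Finset.sum_const, nsmul_eq_mul]
    congr 1
    rw [Finset.card_erase_of_mem hx, hd]
    have : 1 ≤ D.card := Finset.card_pos.mpr ⟨x, hx⟩
    push_cast [this]
    ring
  rw [Finset.sum_congr rfl hx2, Finset.sum_const, nsmul_eq_mul, ← hd, ← hDN]
  ring

end Pool.Agent.R48.KT
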