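import Pool.Agent.R48.KT.G
import Pool.Agent.R48.KT.C
import Pool.Agent.R48.KT.D6
import Pool.Agent.R48.KT.D4
import Pool.Agent.R48.KT.PieceD03
import Pool.Agent.R48.KT.B2a
import Pool.Agent.R48.KT.B2b
import Pool.Agent.R48.KT.F1
import Pool.Agent.R48.KT.PieceF2
import Pool.Agent.R114.Kas.EStm
import Pool.Agent.R906.KT.B1
import Pool.Agent.R906.KT.B2odd
import Pool.Agent.R906.KT.D5

namespace Pool.Agent.R48.KT

open Finset
open scoped Classical

noncomputable section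

theorem stmB2_of (hodd : StmB2odd) : StmB2 := by
  intro F _ _ _ p s hp hs
  rcases chi_eq (1 : F) with h | h
  · exact (stmB2even stmB2a) F p s h hp hs
  · exact hodd F p s h hp hs

theorem main_of (hB1 : StmB1) (hB2o : StmB2odd) (hD5 : StmD5)
    (F : Type) [Field F] [Fintype F] (n k : ℕ) (hcard : Fintype.card F = 2 ^ n)
    (hcop : Nat.Coprime k n) (v1 v2 : F) (h1 : v1 ≠ 0) (h2 : v2 ≠ 0) (h12 : v1 ≠ v2) :
    NK (DeltaK F k) v1 v2 = 2 ^ (2 * n - 3) := by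
  have hC : StmC := stmC stmA1u stmA4 hB1 (stmB2_of hB2o)
  have hD2 : StmD2 := D2 D0 stmA1u stmA2
  have hD : StmD := stmD stmA1 stmA1u stmA3 hC hD2 (D3 stmA2) (D4_of D0 (D1 D0) hD2 stmA1) hD5
  exact final hD Pool.Agent.R114.Kas.stmE f1 F2 F n k hcard hcop v1 v2 h1 h2 h12

theorem main (F : Type) [Field F] [Fintype F] (n k : ℕ) (hcard : Fintype.card F = 2 ^ n)
    (hcop : Nat.Coprime k n) (v1 v2 : F) (h1 : v1 ≠ 0) (h2 : v2 ≠ 0) (h12 : v1 ≠ v2) :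
    NK (DeltaK F k) v1 v2 = 2 ^ (2 * n - 3) :=
  main_of Pool.Agent.R906.KT.b1_ok Pool.Agent.R906.KT.b2odd_ok Pool.Agent.R906.KT.d5_ok F n k hcard hcop v1 v2 h1 h2 h12

end

end Pool.Agent.R48.KT
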