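import Pool.Agent.R48.KT.Stm

/-!
# Kasami triple counts, piece E: assembly (existence of a solution)
-/

set_option linter.unusedSectionVars false

namespace Pool.Agent.R48.KT

open Finset
open WeierstrassCurve.Affine

section curve

variable {K : Type} [Field K] [CharP K 2]

theorem pe_ns {x y : K} (h : y ^ 2 + y = x ^ 3) : (EC K).Nonsingular x y := by
  have h2 : (2 : K) = 0 := CharTwo.two_eq_zero
  rw [nonsingular_iff', equation_iff]
  refine ⟨?_, Or.inr ?_⟩
  · simp only [EC]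
    linear_combination h
  · simp only [EC]
    rw [h2]
    simp

theorem pe_eq {x y : K} (h : (EC K).Nonsingular x y) : y ^ 2 + y = x ^ 3 := by
  have h1 := h.1
  rw [equation_iff] at h1
  simp only [EC] at h1
  linear_combination h1

theorem pe_cube (a b c : K) (h : a ^ 3 + b ^ 3 + c ^ 3 = 0) :
    (a + b + c) ^ 3 = (a + b) * (b + c) * (a + c) := by
  have h2 : (2 : K) = 0 := CharTwo.two_eq_zero
  linear_combination h + (a ^ 2 * b + a ^ 2 * c + a * b ^ 2 + b ^ 2 * c + a * c ^ 2 + b * c ^ 2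
    + 2 * a * b * c) * h2

/-- the point with `u`-coordinates `(a,b,c)/(a+c)` -/
theorem pe_pt (a b c : K) (h : a ^ 3 + b ^ 3 + c ^ 3 = 0) (hs : a + c ≠ 0) :
    (EC K).Nonsingular ((a + b + c) / (a + c)) ((b + c) / (a + c)) := by
  have h2 : (2 : K) = 0 := CharTwo.two_eq_zero
  apply pe_ns
  have h3 := pe_cube a b c h
  field_simp
  linear_combination (-1 : K) * h3 + (b + c) * (a + c) * c * h2

theorem pe_d (x t : K) (ht : t ≠ 0) : x = t * (x / t) := by field_simp

theorem pe_u1 (x1 x2 x3 : K) : (x1 + x2 + x3) / (x1 + x3) + (x2 + x3) / (x1 + x3) =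
    x1 / (x1 + x3) := by
  have h2 : (2 : K) = 0 := CharTwo.two_eq_zero
  rw [← add_div]
  congr 1
  linear_combination (x2 + x3) * h2

theorem pe_u2 (x1 x2 x3 : K) (hx : x1 + x3 ≠ 0) :
    (x1 + x2 + x3) / (x1 + x3) + 1 = x2 / (x1 + x3) := by
  have h2 : (2 : K) = 0 := CharTwo.two_eq_zero
  field_simp
  linear_combination (x1 + x3) * h2

theorem pe_u3 (x1 x2 x3 : K) (hx : x1 + x3 ≠ 0) :
    (x1 + x2 + x3) / (x1 + x3) + (x2 + x3) / (x1 + x3) + 1 = x3 / (x1 + x3) := by
  have h2 : (2 : K) = 0 := CharTwo.two_eq_zero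
  rw [pe_u1 x1 x2 x3]
  field_simp
  linear_combination x1 * h2

theorem pe_fin (c1 c2 c3 t1 t3 s s' : K) (q : ℕ) (hs : s ≠ 0) (hs' : s' ≠ 0)
    (h : c1 / s * (t1 / s') * (t1 / s') ^ q + c2 / s * (1 / s') * (1 / s') ^ q +
      c3 / s * (t3 / s') * (t3 / s') ^ q = 0) :
    c1 * t1 ^ (q + 1) + c2 + c3 * t3 ^ (q + 1) = 0 := by
  have h3 : s' ^ q ≠ 0 := pow_ne_zero _ hs'
  have h4 : (c1 * t1 ^ (q + 1) + c2 + c3 * t3 ^ (q + 1)) / (s * s' * s' ^ q) = 0 := by
    rw [← h, div_pow, div_pow, div_pow, one_pow]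
    field_simp
    ring
  rcases div_eq_zero_iff.1 h4 with h5 | h5
  · exact h5
  · exact absurd h5 (mul_ne_zero (mul_ne_zero hs hs') h3)

variable [DecidableEq K]

/-- `-(τ + φ τ) = (t₁ t₃, t₁³)` -/
theorem pe_tau (t1 t3 : K) (h : t1 ^ 3 + t3 ^ 3 = 1) (h1 : t1 ≠ 0) (h3 : t3 ≠ 0)
    (hs : t1 + t3 ≠ 0)
    (hn : (EC K).Nonsingular ((t1 + 1 + t3) / (t1 + t3)) ((1 + t3) / (t1 + t3)))
    (hn2 : (EC K).Nonsingular (((t1 + 1 + t3) / (t1 + t3)) ^ 2) (((1 + t3) / (t1 + t3)) ^ 2))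
    (hp : (EC K).Nonsingular (t1 * t3) (t1 ^ 3)) :
    WeierstrassCurve.Affine.Point.some _ _ hp = -(WeierstrassCurve.Affine.Point.some _ _ hn +
      WeierstrassCurve.Affine.Point.some _ _ hn2) := by
  have h2 : (2 : K) = 0 := CharTwo.two_eq_zero
  obtain ⟨s, hs'⟩ : ∃ s, s = t1 + t3 := ⟨_, rfl⟩
  have hs3 : s ^ 3 = 1 + t1 * t3 * s := by
    rw [hs']
    linear_combination h + (t1 ^ 2 * t3 + t1 * t3 ^ 2) * h2
  obtain ⟨X, hX⟩ : ∃ X, X = (t1 + 1 + t3) / (t1 + t3) := ⟨_, rfl⟩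
  obtain ⟨Y, hY⟩ : ∃ Y, Y = (1 + t3) / (t1 + t3) := ⟨_, rfl⟩
  have hX' : X * s = s + 1 := by
    rw [hX, hs']; field_simp; ring
  have hY' : Y * s = 1 + t3 := by
    rw [hY, hs']; field_simp
  simp only [← hX, ← hY] at hn hn2 ⊢
  have hs0 : s ≠ 0 := by rw [hs']; exact hs
  have hsne : s + 1 ≠ 0 := by
    intro h4
    have h5 : s = 1 := by linear_combination h4 - h2
    rw [h5] at hs3
    have h6 : t1 * t3 = 0 := by linear_combination -hs3
    rcases mul_eq_zero.1 h6 with h7 | h7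
    · exact h1 h7
    · exact h3 h7
  have hXe : X = (s + 1) / s := by rw [eq_div_iff hs0]; exact hX'
  have hYe : Y = (1 + t3) / s := by rw [eq_div_iff hs0]; exact hY'
  have hX0 : X ≠ 0 := by rw [hXe]; exact div_ne_zero hsne hs0
  have hXX : X ≠ X ^ 2 := by
    intro h4
    have h5 : X * (X - 1) = 0 := by linear_combination -h4
    rcases mul_eq_zero.1 h5 with h6 | h6
    · exact hX0 h6
    · have h7 : X = 1 := by linear_combination h6
      rw [h7, one_mul] at hX'
      have h8 : (1 : K) = 0 := by linear_combination -hX'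
      exact one_ne_zero h8
  have hcurve := pe_eq hn
  have hsl : (EC K).slope X (X ^ 2) Y (Y ^ 2) = (s + 1) ^ 2 / s := by
    rw [slope_of_X_ne hXX, div_eq_div_iff (sub_ne_zero.2 hXX) hs0]
    have h4 : X ^ 3 * s ^ 3 = (s + 1) ^ 3 := by rw [← mul_pow, hX']
    have h5 : X * s = s + 1 := hX'
    have h6 : (X - X ^ 2) * s ^ 2 = (s + 1) * s - (s + 1) ^ 2 := by
      linear_combination (s - X * s - (s + 1)) * h5
    have h7 : (Y - Y ^ 2) * s ^ 3 = (s + 1) ^ 3 := by
      linear_combination h4 + s ^ 3 * hcurve - Y ^ 2 * s ^ 3 * h2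
    have h8 : (s ^ 2 : K) ≠ 0 := pow_ne_zero _ hs0
    refine mul_right_cancel₀ h8 ?_
    linear_combination h7 - (s + 1) ^ 2 * h6 + (s + 1) ^ 3 * h2
  have hadd : Point.some _ _ hn + Point.some _ _ hn2 =
      -Point.some _ _ (nonsingular_negAdd hn hn2 fun hxy => hXX hxy.left) :=
    Point.add_of_X_ne' hXX
  rw [hadd, neg_neg]
  have e1 : (EC K).addX X (X ^ 2) ((EC K).slope X (X ^ 2) Y (Y ^ 2)) = t1 * t3 := by
    rw [hsl]
    simp only [addX, EC]
    rw [hXe]
    field_simp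
    linear_combination s * hs3 + (s + 2 * s ^ 2 + 2 * s ^ 3) * h2
  have e2 : (EC K).negAddY X (X ^ 2) Y ((EC K).slope X (X ^ 2) Y (Y ^ 2)) = t1 ^ 3 := by
    simp only [negAddY]
    rw [e1, hsl, hXe, hYe]
    have h9 : (s + 1) ^ 2 * (t1 * t3 * s - (s + 1)) + (1 + t3) * s = t1 ^ 3 * s ^ 2 := by
      rw [hs']
      linear_combination (t1 ^ 2 + t1 * t3 + 1) * h + (-t1 ^ 5 - t1 ^ 4 * t3 + t1 ^ 3 * t3 ^ 2
        + t1 ^ 3 * t3 - t1 ^ 3 + t1 ^ 2 * t3 ^ 3 + 2 * t1 ^ 2 * t3 ^ 2 - t1 ^ 2 * t3 - t1 ^ 2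
        + t1 * t3 ^ 3 - t1 * t3 ^ 2 - 2 * t1 * t3 - t1 - t3 ^ 3 - t3 ^ 2 - t3) * h2
    field_simp
    linear_combination h9
  congr 1
  · exact e1.symm
  · exact e2.symm

theorem pe_iter (phi : (EC K).Point →+ (EC K).Point)
    (hphi : ∀ x y h, ∃ h', phi (.some x y h) = .some (x ^ 2) (y ^ 2) h') (i : ℕ) :
    ∀ x y h, ∃ h', (⇑phi)^[i] (.some x y h) = .some (x ^ (2 ^ i)) (y ^ (2 ^ i)) h' := by
  induction i with
  | zero =>
    intro x y h
    simp only [Function.iterate_zero, id_eq, pow_zero, pow_one]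
    exact ⟨h, trivial⟩
  | succ i ih =>
    intro x y h
    obtain ⟨h1, h2⟩ := ih x y h
    obtain ⟨h3, h4⟩ := hphi _ _ h1
    simp only [← pow_mul, ← pow_succ] at h3 h4
    refine ⟨h3, ?_⟩
    rw [Function.iterate_succ_apply', h2, h4]

theorem pe_tele (phi : (EC K).Point →+ (EC K).Point) (T : (EC K).Point) (k : ℕ) :
    ∑ i ∈ range k, (-1 : ℤ) ^ i • ((⇑phi)^[i] (-(T + phi T))) =
      -(T - (-1 : ℤ) ^ k • ((⇑phi)^[k] T)) := by
  induction k with
  | zero => simp
  | succ k ih =>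
    rw [sum_range_succ, ih]
    have h1 : (⇑phi)^[k] (-(T + phi T)) = -((⇑phi)^[k] T + (⇑phi)^[k + 1] T) := by
      rw [iterate_map_neg, iterate_map_add, Function.iterate_succ_apply]
    rw [h1, pow_succ, mul_neg_one, neg_smul, smul_neg, smul_add]
    abel

theorem pe_const (phi : (EC K).Point →+ (EC K).Point) (P : (EC K).Point) (hP : phi P = P)
    (k : ℕ) (hk : Odd k) : ∑ i ∈ range k, (-1 : ℤ) ^ i • ((⇑phi)^[i] P) = P := by
  have h1 : ∀ i, (⇑phi)^[i] P = P := fun i => Function.iterate_fixed hP i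
  simp only [h1]
  rw [← sum_smul, neg_one_geom_sum, if_neg (Nat.not_even_iff_odd.2 hk), one_smul]

end curve

section fin

variable {F : Type} [Field F] [Fintype F] {K : Type} [Field K] [Algebra F K]

theorem pe_range (z : K) (h : z ^ Fintype.card F = z) : ∃ a : F, algebraMap F K a = z := by
  classical
  by_contra hcon
  push Not at hcon
  set N := Fintype.card F with hN
  have hN1 : 1 < N := Fintype.one_lt_card
  let P : Polynomial K := Polynomial.X ^ N - Polynomial.X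
  have hdeg : P.natDegree = N := FiniteField.X_pow_card_sub_X_natDegree_eq K hN1
  have hP0 : P ≠ 0 := FiniteField.X_pow_card_sub_X_ne_zero K hN1
  have hsub : insert z (univ.image (algebraMap F K)) ⊆ P.roots.toFinset := by
    intro w hw
    rw [Multiset.mem_toFinset, Polynomial.mem_roots hP0, Polynomial.IsRoot.def]
    simp only [P, Polynomial.eval_sub, Polynomial.eval_pow, Polynomial.eval_X]
    rcases Finset.mem_insert.1 hw with rfl | hw
    · rw [h, sub_self]
    · obtain ⟨a, _, rfl⟩ := Finset.mem_image.1 hw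
      rw [← map_pow, FiniteField.pow_card, sub_self]
  have hcard := Finset.card_le_card hsub
  rw [Finset.card_insert_of_notMem, Finset.card_image_of_injective _ (algebraMap F K).injective,
    Finset.card_univ] at hcard
  · have h1 := (Multiset.toFinset_card_le P.roots).trans (Polynomial.card_roots' P)
    rw [hdeg] at h1
    omega
  · intro hz
    obtain ⟨a, _, ha⟩ := Finset.mem_image.1 hz
    exact hcon a ha

end fin

open scoped Classical in
theorem pieceE (hE1 : StmE1) (hE2 : StmE2) (hE3 : StmE3) : StmE := by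
  intro F _ _ _ n k r hF hkn hk hnk hr d1 d2 d3 hd1 hd2 hd3 hd
  let K := AlgebraicClosure F
  have : CharP K 2 := charP_of_injective_algebraMap (algebraMap F K).injective 2
  have h2 : (2 : K) = 0 := CharTwo.two_eq_zero
  have h2F : (2 : F) = 0 := CharTwo.two_eq_zero
  obtain ⟨phi, hphi, hphi2⟩ := hE2 K
  set a := algebraMap F K with ha
  have hainj : Function.Injective a := (algebraMap F K).injective
  have hafix : ∀ z : F, a z ^ (2 ^ n) = a z := fun z => by
    rw [← map_pow, ← hF, FiniteField.pow_card]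
  have hc : a d1 ^ 3 + a d2 ^ 3 + a d3 ^ 3 = 0 := by
    rw [← map_pow, ← map_pow, ← map_pow, ← map_add, ← map_add, hd, map_zero]
  have hc1 : a d1 ≠ 0 := fun h => hd1 (hainj (by rw [h, map_zero]))
  have hc2 : a d2 ≠ 0 := fun h => hd2 (hainj (by rw [h, map_zero]))
  have hc3 : a d3 ≠ 0 := fun h => hd3 (hainj (by rw [h, map_zero]))
  have hs : a d1 + a d3 ≠ 0 := by
    intro h
    have h3 : a d3 = -a d1 := by linear_combination h
    rw [h3] at hc
    have h4 : a d2 ^ 3 = 0 := by linear_combination hc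
    exact hc2 (pow_eq_zero_iff (by norm_num) |>.1 h4)
  have hQ := pe_pt (a d1) (a d2) (a d3) hc hs
  -- the fixed subgroup
  let G : AddSubgroup (EC K).Point :=
    { carrier := {P | (⇑phi)^[n] P = P}
      add_mem' := by
        intro x y hx hy
        simp only [Set.mem_ofPred_eq] at hx hy ⊢
        rw [iterate_map_add, hx, hy]
      zero_mem' := by
        simp only [Set.mem_ofPred_eq]
        exact iterate_map_zero phi n
      neg_mem' := by
        intro x hx
        simp only [Set.mem_ofPred_eq] at hx ⊢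
        rw [iterate_map_neg, hx] }
  have hGmem : ∀ P, P ∈ G ↔ (⇑phi)^[n] P = P := fun P => Iff.rfl
  have hGco : ∀ x y h, (.some x y h : (EC K).Point) ∈ G → x ^ (2 ^ n) = x ∧ y ^ (2 ^ n) = y := by
    intro x y h hP
    rw [hGmem] at hP
    obtain ⟨h', e⟩ := pe_iter phi hphi n x y h
    rw [e, Point.some.injEq] at hP
    exact hP
  have hGfin : Finite G := by
    let f : G → Option (F × F) := fun P => match (P : (EC K).Point) with
      | .zero => none
      | .some x y _ => if h : (∃ u, a u = x) ∧ ∃ v, a v = y then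
          some (h.1.choose, h.2.choose) else none
    refine Finite.of_injective f ?_
    rintro ⟨P, hP⟩ ⟨P', hP'⟩ hPP
    have key : ∀ x y h, (.some x y h : (EC K).Point) ∈ G →
        (∃ u, a u = x) ∧ ∃ v, a v = y := by
      intro x y h hm
      obtain ⟨hx, hy⟩ := hGco x y h hm
      exact ⟨pe_range x (by rw [hF]; exact hx), pe_range y (by rw [hF]; exact hy)⟩
    rcases P with _ | ⟨x, y, h⟩
    · rcases P' with _ | ⟨x', y', h'⟩
      · rfl
      · simp only [f] at hPP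
        rw [dif_pos (key x' y' h' hP')] at hPP
        exact absurd hPP (by simp)
    · rcases P' with _ | ⟨x', y', h'⟩
      · simp only [f] at hPP
        rw [dif_pos (key x y h hP)] at hPP
        exact absurd hPP (by simp)
      · simp only [f] at hPP
        rw [dif_pos (key x y h hP), dif_pos (key x' y' h' hP')] at hPP
        simp only [Option.some.injEq, Prod.mk.injEq] at hPP
        have e1 := (key x y h hP).1.choose_spec
        have e2 := (key x y h hP).2.choose_spec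
        have e3 := (key x' y' h' hP').1.choose_spec
        have e4 := (key x' y' h' hP').2.choose_spec
        rw [hPP.1, e3] at e1
        rw [hPP.2, e4] at e2
        subst e1; subst e2
        rfl
  have hphiG : ∀ P ∈ G, phi P ∈ G := by
    intro P hP
    rw [hGmem] at hP ⊢
    rw [← Function.iterate_succ_apply, Function.iterate_succ_apply', hP]
  let phiG : G →+ G := (phi.comp G.subtype).codRestrict G (fun P => hphiG P P.2)
  have hcoe : ∀ (i : ℕ) (P : G), (((⇑phiG)^[i] P : G) : (EC K).Point) = (⇑phi)^[i] P := by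
    intro i
    induction i with
    | zero => intro P; rfl
    | succ i ih =>
      intro P
      rw [Function.iterate_succ_apply', Function.iterate_succ_apply', ← ih]
      rfl
  have hbij := hE3 G phiG n k
    (fun P => Subtype.ext (by
      have := hphi2 P
      exact this))
    (fun P => Subtype.ext (by rw [hcoe]; exact P.2)) hkn hk hnk
  have hQG : (.some _ _ hQ : (EC K).Point) ∈ G := by
    rw [hGmem]
    obtain ⟨h', e⟩ := pe_iter phi hphi n _ _ hQ
    rw [e, Point.some.injEq]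
    have e1 : (a d1 + a d2 + a d3) / (a d1 + a d3) = a ((d1 + d2 + d3) / (d1 + d3)) := by
      rw [map_div₀, map_add, map_add, map_add]
    have e2 : (a d2 + a d3) / (a d1 + a d3) = a ((d2 + d3) / (d1 + d3)) := by
      rw [map_div₀, map_add, map_add]
    rw [e1, e2]
    exact ⟨hafix _, hafix _⟩
  obtain ⟨P', hP'⟩ := hbij.2 ⟨_, hQG⟩
  have hP1 : ∑ i ∈ range k, (-1 : ℤ) ^ i • ((⇑phi)^[i] (P' : (EC K).Point)) =
      .some _ _ hQ := by
    have h3 := congrArg (fun P : G => (P : (EC K).Point)) hP'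
    simp only [AddSubgroup.val_finsetSum, AddSubgroup.coe_zsmul, hcoe] at h3
    exact h3
  obtain ⟨P, hPG⟩ := P'
  simp only at hP1
  rcases P with _ | ⟨x, b, h⟩
  · exfalso
    have h3 : ∑ i ∈ range k, (-1 : ℤ) ^ i • ((⇑phi)^[i] (0 : (EC K).Point)) = 0 := by
      refine Finset.sum_eq_zero fun i _ => ?_
      rw [iterate_map_zero, smul_zero]
    exact Point.some_ne_zero hQ (hP1.symm.trans h3)
  obtain ⟨hxn, hbn⟩ := hGco x b h hPG
  obtain ⟨bF, hbF⟩ : ∃ u, a u = b := pe_range b (by rw [hF]; exact hbn)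
  have hcurve := pe_eq h
  have hb01 : b ≠ 0 ∧ b ≠ 1 := by
    by_contra hcon
    have hb : b = 0 ∨ b = 1 := by
      by_contra h3
      push Not at h3
      exact hcon h3
    have hbb : b ^ 2 = b := by rcases hb with h3 | h3 <;> rw [h3] <;> ring
    have hx0 : x = 0 := by
      have h4 : x ^ 3 = 0 := by
        rw [← hcurve, hbb]
        linear_combination b * h2
      exact pow_eq_zero_iff (by norm_num) |>.1 h4
    have hfix : phi (.some x b h) = .some x b h := by
      obtain ⟨h', e⟩ := hphi x b h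
      rw [e, Point.some.injEq]
      exact ⟨by rw [hx0]; ring, hbb⟩
    rw [pe_const phi _ hfix k hk, Point.some.injEq] at hP1
    obtain ⟨e1, e2⟩ := hP1
    rw [hx0, eq_comm, div_eq_zero_iff] at e1
    have e3 : a d1 + a d2 + a d3 = 0 := e1.resolve_right hs
    rw [eq_div_iff hs] at e2
    rcases hb with h3 | h3
    · rw [h3, zero_mul] at e2
      exact hc1 (by linear_combination e3 + e2)
    · rw [h3, one_mul] at e2
      exact hc3 (by linear_combination e3 - e2 - (a d2) * h2)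
  obtain ⟨hb0, hb1⟩ := hb01
  obtain ⟨t1, ht1⟩ : ∃ z : K, z ^ 3 = b := IsAlgClosed.exists_pow_nat_eq b (by norm_num)
  have ht10 : t1 ≠ 0 := by
    intro h3; rw [h3] at ht1; exact hb0 (by rw [← ht1]; ring)
  obtain ⟨t3, ht3⟩ : ∃ t3, t3 = x / t1 := ⟨_, rfl⟩
  have hx13 : x = t1 * t3 := by rw [ht3]; exact pe_d x t1 ht10
  have ht3c : t3 ^ 3 = b + 1 := by
    have h3 : b * t3 ^ 3 = b * (b + 1) := by
      have h4 : (t1 * t3) ^ 3 = b ^ 2 + b := by rw [← hx13]; exact hcurve.symm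
      rw [mul_pow, ht1] at h4
      linear_combination h4
    exact mul_left_cancel₀ hb0 h3
  have ht30 : t3 ≠ 0 := by
    intro h3
    rw [h3] at ht3c
    exact hb1 (by linear_combination -ht3c - h2)
  have h13 : t1 ^ 3 + t3 ^ 3 = 1 := by
    rw [ht1, ht3c]; linear_combination b * h2
  have hs13 : t1 + t3 ≠ 0 := by
    intro h3
    have h4 : t3 = -t1 := by linear_combination h3
    rw [h4] at h13
    have h5 : (1 : K) = 0 := by linear_combination -h13
    exact one_ne_zero h5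
  have hsum : t1 ^ 3 + 1 ^ 3 + t3 ^ 3 = 0 := by linear_combination h13 + h2
  have hn := pe_pt t1 1 t3 hsum hs13
  obtain ⟨hn2, en2⟩ := hphi _ _ hn
  have hp : (EC K).Nonsingular (t1 * t3) (t1 ^ 3) := by
    rw [← hx13, ht1]; exact h
  have hPe : (.some x b h : (EC K).Point) = -(.some _ _ hn + phi (.some _ _ hn)) := by
    rw [en2, ← pe_tau t1 t3 h13 ht10 ht30 hs13 hn hn2 hp, Point.some.injEq]
    exact ⟨hx13, ht1.symm⟩
  rw [hPe, pe_tele, hk.neg_one_pow] at hP1
  have hzero : (.some _ _ hQ : (EC K).Point) + .some _ _ hn + (⇑phi)^[k] (.some _ _ hn) = 0 := by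
    rw [← hP1]
    rw [neg_one_smul]
    abel
  obtain ⟨hn3, en3⟩ := pe_iter phi hphi k _ _ hn
  rw [en3] at hzero
  have htri := hE1 K _ _ _ hzero
  have hq : ∀ u v : K, (u + v) ^ 2 ^ k = u ^ 2 ^ k + v ^ 2 ^ k := fun u v =>
    add_pow_char_pow u v 2 k
  have htri2 : ((a d1 + a d2 + a d3) / (a d1 + a d3) + (a d2 + a d3) / (a d1 + a d3)) *
      ((t1 + 1 + t3) / (t1 + t3) + (1 + t3) / (t1 + t3)) *
      (((t1 + 1 + t3) / (t1 + t3)) ^ 2 ^ k + ((1 + t3) / (t1 + t3)) ^ 2 ^ k) +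
      ((a d1 + a d2 + a d3) / (a d1 + a d3) + 1) * ((t1 + 1 + t3) / (t1 + t3) + 1) *
      (((t1 + 1 + t3) / (t1 + t3)) ^ 2 ^ k + 1) +
      ((a d1 + a d2 + a d3) / (a d1 + a d3) + (a d2 + a d3) / (a d1 + a d3) + 1) *
      ((t1 + 1 + t3) / (t1 + t3) + (1 + t3) / (t1 + t3) + 1) *
      (((t1 + 1 + t3) / (t1 + t3)) ^ 2 ^ k + ((1 + t3) / (t1 + t3)) ^ 2 ^ k + 1) = 0 := by
    have h3 := htri
    rw [Fin.sum_univ_three] at h3
    exact h3
  have hone : (1 : K) ^ 2 ^ k = 1 := one_pow _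
  have v1 : ((t1 + 1 + t3) / (t1 + t3)) ^ 2 ^ k + ((1 + t3) / (t1 + t3)) ^ 2 ^ k =
      (t1 / (t1 + t3)) ^ 2 ^ k := by rw [← hq, pe_u1 t1 1 t3]
  have v2 : ((t1 + 1 + t3) / (t1 + t3)) ^ 2 ^ k + 1 = (1 / (t1 + t3)) ^ 2 ^ k := by
    rw [← pe_u2 t1 1 t3 hs13, hq, hone]
  have v3 : ((t1 + 1 + t3) / (t1 + t3)) ^ 2 ^ k + ((1 + t3) / (t1 + t3)) ^ 2 ^ k + 1 =
      (t3 / (t1 + t3)) ^ 2 ^ k := by
    rw [← pe_u3 t1 1 t3 hs13, hq, hone, pe_u1 t1 1 t3, v1]
  rw [v3, v2, v1, pe_u3 t1 1 t3 hs13, pe_u2 t1 1 t3 hs13, pe_u1 t1 1 t3,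
    pe_u3 (a d1) (a d2) (a d3) hs, pe_u2 (a d1) (a d2) (a d3) hs, pe_u1 (a d1) (a d2) (a d3)]
    at htri2
  have hfin := pe_fin (a d1) (a d2) (a d3) t1 t3 _ _ (2 ^ k) hs hs13 htri2
  rw [← hr, pow_mul, pow_mul, ht1, ht3c] at hfin
  refine ⟨bF, 1, bF + 1, Or.inr (Or.inl one_ne_zero), ?_, ?_⟩
  · linear_combination (bF + 1) * h2F
  · apply hainj
    rw [map_zero, map_add, map_add, map_mul, map_mul, map_mul, map_pow, map_pow, map_pow, map_add,
      map_one, hbF, one_pow, mul_one]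
    exact hfin

end Pool.Agent.R48.KT
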